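import Mathlib

set_option autoImplicit false

namespace Pool.Agent.H224R3.Cluster

open Finset

/-- value of a permutation at a natural position -/
def val {n : ℕ} (π : Equiv.Perm (Fin n)) (j : ℕ) : ℕ :=
  if h : j < n then ((π ⟨j, h⟩ : Fin n) : ℕ) else 0

/-- the pattern 341562 (zero based 2 3 0 4 5 1) -/
def sig : Equiv.Perm (Fin 6) :=
  ⟨![2, 3, 0, 4, 5, 1], ![2, 5, 0, 1, 3, 4], by decide, by decide⟩

/-- consecutive occurrence of the pattern at position i -/
def Occ (x : ℕ → ℕ) (i : ℕ) : Prop :=
  ∀ a b : Fin 6, (sig a < sig b ↔ x (i + (a : ℕ)) < x (i + (b : ℕ)))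

open Classical in
/-- number of permutations with occurrences at all positions of E -/
noncomputable def N (n : ℕ) (E : Finset ℕ) : ℕ :=
  (univ.filter (fun π : Equiv.Perm (Fin n) => ∀ e ∈ E, Occ (val π) e)).card

open Classical in
/-- number of avoiders -/
noncomputable def al (n : ℕ) : ℕ :=
  (univ.filter (fun π : Equiv.Perm (Fin n) => ∀ i, i + 6 ≤ n → ¬ Occ (val π) i)).card

open Classical in
theorem al_eq (n : ℕ) :
    (al n : ℤ) = ∑ E ∈ (range (n - 5)).powerset, (-1) ^ E.card * (N n E : ℤ) := by
  have h1 : ∀ E : Finset ℕ, (N n E : ℤ) =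
      ∑ π : Equiv.Perm (Fin n), if (∀ e ∈ E, Occ (val π) e) then (1 : ℤ) else 0 := by
    intro E
    simp [N]
  have h2 : (al n : ℤ) =
      ∑ π : Equiv.Perm (Fin n), if (∀ i, i + 6 ≤ n → ¬ Occ (val π) i) then (1 : ℤ) else 0 := by
    simp [al]
  rw [h2]
  simp_rw [h1, mul_sum]
  rw [sum_comm]
  apply sum_congr rfl
  intro π _
  have h3 : ∑ E ∈ (range (n - 5)).powerset,
      (-1 : ℤ) ^ E.card * (if (∀ e ∈ E, Occ (val π) e) then (1 : ℤ) else 0) =
      ∑ E ∈ ((range (n - 5)).filter (fun e => Occ (val π) e)).powerset, (-1 : ℤ) ^ E.card := by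
    simp_rw [mul_ite, mul_one, mul_zero]
    rw [← sum_filter]
    apply sum_congr _ (fun _ _ => rfl)
    ext E
    simp only [mem_filter, mem_powerset, subset_iff, mem_range]
    constructor
    · rintro ⟨h, h'⟩ e he
      exact ⟨h he, h' e he⟩
    · intro h
      exact ⟨fun e he => (h he).1, fun e he => (h he).2⟩
  rw [h3, sum_powerset_neg_one_pow_card]
  congr 1
  rw [eq_iff_iff, filter_eq_empty_iff]
  constructor
  · intro h e he
    rw [mem_range] at he
    exact h e (by omega)
  · intro h i hi
    exact h (mem_range.2 (by omega))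

/-- gluing two permutations along an l-subset of the values -/
noncomputable def glue {l m : ℕ} (s : {s : Finset (Fin (l + m)) // s.card = l})
    (p : Equiv.Perm (Fin l)) (q : Equiv.Perm (Fin m)) : Equiv.Perm (Fin (l + m)) :=
  finSumFinEquiv.symm.trans ((Equiv.sumCongr p q).trans
    (finSumEquivOfFinset (s := s.1) s.2
      (by rw [card_compl, s.2, Fintype.card_fin]; omega)))

theorem glue_left {l m : ℕ} (s : {s : Finset (Fin (l + m)) // s.card = l})
    (p : Equiv.Perm (Fin l)) (q : Equiv.Perm (Fin m)) (i : Fin l) :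
    glue s p q (Fin.castAdd m i) = s.1.orderEmbOfFin s.2 (p i) := by
  simp [glue]

theorem glue_right {l m : ℕ} (s : {s : Finset (Fin (l + m)) // s.card = l})
    (p : Equiv.Perm (Fin l)) (q : Equiv.Perm (Fin m)) (i : Fin m) :
    glue s p q (Fin.natAdd l i) = s.1ᶜ.orderEmbOfFin
      (by rw [card_compl, s.2, Fintype.card_fin]; omega) (q i) := by
  simp [glue]

theorem val_glue_left {l m : ℕ} (s : {s : Finset (Fin (l + m)) // s.card = l})
    (p : Equiv.Perm (Fin l)) (q : Equiv.Perm (Fin m)) (i j : ℕ) (hi : i < l) (hj : j < l) :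
    val (glue s p q) i < val (glue s p q) j ↔ val p i < val p j := by
  have hi' : i < l + m := by omega
  have hj' : j < l + m := by omega
  have e1 : (⟨i, hi'⟩ : Fin (l + m)) = Fin.castAdd m ⟨i, hi⟩ := rfl
  have e2 : (⟨j, hj'⟩ : Fin (l + m)) = Fin.castAdd m ⟨j, hj⟩ := rfl
  simp only [val, hi, hj, hi', hj', dif_pos, e1, e2, glue_left]
  rw [Fin.val_fin_lt, OrderEmbedding.lt_iff_lt, Fin.val_fin_lt]

theorem val_glue_right {l m : ℕ} (s : {s : Finset (Fin (l + m)) // s.card = l})
    (p : Equiv.Perm (Fin l)) (q : Equiv.Perm (Fin m)) (i j : ℕ) (hi : i < m) (hj : j < m) :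
    val (glue s p q) (l + i) < val (glue s p q) (l + j) ↔ val q i < val q j := by
  have hi' : l + i < l + m := by omega
  have hj' : l + j < l + m := by omega
  have e1 : (⟨l + i, hi'⟩ : Fin (l + m)) = Fin.natAdd l ⟨i, hi⟩ := rfl
  have e2 : (⟨l + j, hj'⟩ : Fin (l + m)) = Fin.natAdd l ⟨j, hj⟩ := rfl
  simp only [val, hi, hj, hi', hj', dif_pos, e1, e2, glue_right]
  rw [Fin.val_fin_lt, OrderEmbedding.lt_iff_lt, Fin.val_fin_lt]

theorem glue_injective (l m : ℕ) : Function.Injective
    (fun x : {s : Finset (Fin (l + m)) // s.card = l} × Equiv.Perm (Fin l) × Equiv.Perm (Fin m) =>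
      glue x.1 x.2.1 x.2.2) := by
  rintro ⟨s, p, q⟩ ⟨s', p', q'⟩ h
  simp only at h
  have key : ∀ (s : {s : Finset (Fin (l + m)) // s.card = l})
    (p : Equiv.Perm (Fin l)) (q : Equiv.Perm (Fin m)) (v : Fin (l + m)),
      v ∈ s.1 ↔ ((glue s p q).symm v : ℕ) < l := by
    intro s p q v
    obtain ⟨w, rfl⟩ := (glue s p q).surjective v
    rw [Equiv.symm_apply_apply]
    refine Fin.addCases (fun i => ?_) (fun i => ?_) w
    · rw [glue_left]
      simp
    · rw [glue_right]
      have : s.1ᶜ.orderEmbOfFin (by rw [card_compl, s.2, Fintype.card_fin]; omega) (q i) ∈ s.1ᶜ :=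
        orderEmbOfFin_mem _ _ _
      rw [mem_compl] at this
      simp [this]
  have hs : s = s' := by
    apply Subtype.ext
    ext v
    rw [key s p q v, key s' p' q' v, h]
  subst hs
  have hp : p = p' := by
    ext i
    have := congrArg (fun g => g (Fin.castAdd m i)) h
    simp only [glue_left] at this
    have := (s.1.orderEmbOfFin s.2).injective this
    rw [this]
  have hq : q = q' := by
    ext i
    have := congrArg (fun g => g (Fin.natAdd l i)) h
    simp only [glue_right] at this
    have := (s.1ᶜ.orderEmbOfFin _).injective this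
    rw [this]
  rw [hp, hq]

theorem glue_bijective (l m : ℕ) : Function.Bijective
    (fun x : {s : Finset (Fin (l + m)) // s.card = l} × Equiv.Perm (Fin l) × Equiv.Perm (Fin m) =>
      glue x.1 x.2.1 x.2.2) := by
  rw [Fintype.bijective_iff_injective_and_card]
  refine ⟨glue_injective l m, ?_⟩
  rw [Fintype.card_prod, Fintype.card_prod, Fintype.card_perm, Fintype.card_perm,
    Fintype.card_perm, Fintype.card_fin, Fintype.card_fin, Fintype.card_fin,
    Fintype.card_finset_len, Fintype.card_fin, ← mul_assoc]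
  have := Nat.add_choose_mul_factorial_mul_factorial l m
  rw [Nat.choose_symm_add]
  exact this

open Classical in
theorem N_mul (l m : ℕ) (E1 E2 : Finset ℕ) (h1 : ∀ e ∈ E1, e + 6 ≤ l)
    (h2 : ∀ e ∈ E2, e + 6 ≤ m) :
    N (l + m) (E1 ∪ E2.map (addLeftEmbedding l)) = (l + m).choose l * N l E1 * N m E2 := by
  have hcard : N (l + m) (E1 ∪ E2.map (addLeftEmbedding l)) =
      ((univ : Finset {s : Finset (Fin (l + m)) // s.card = l}) ×ˢ
        ((univ.filter (fun π : Equiv.Perm (Fin l) => ∀ e ∈ E1, Occ (val π) e)) ×ˢ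
        (univ.filter (fun π : Equiv.Perm (Fin m) => ∀ e ∈ E2, Occ (val π) e)))).card := by
    symm
    unfold N
    apply card_bij (fun x _ => glue x.1 x.2.1 x.2.2)
    · rintro ⟨s, p, q⟩ hx
      simp only [mem_product, mem_univ, mem_filter, true_and] at hx
      simp only [mem_filter, mem_univ, true_and, mem_union, mem_map, addLeftEmbedding_apply]
      rintro e (he | ⟨e', he', rfl⟩)
      · intro a b
        rw [val_glue_left s p q _ _ (by have := h1 e he; omega) (by have := h1 e he; omega)]
        exact hx.1 e he a b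
      · intro a b
        rw [add_assoc, add_assoc,
          val_glue_right s p q _ _ (by have := h2 e' he'; omega) (by have := h2 e' he'; omega)]
        exact hx.2 e' he' a b
    · intro x _ y _ hxy
      exact glue_injective l m hxy
    · intro π hπ
      obtain ⟨⟨s, p, q⟩, rfl⟩ := (glue_bijective l m).2 π
      simp only [mem_filter, mem_univ, true_and, mem_union, mem_map, addLeftEmbedding_apply] at hπ
      refine ⟨⟨s, p, q⟩, ?_, rfl⟩
      simp only [mem_product, mem_univ, mem_filter, true_and]
      constructor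
      · intro e he a b
        have := hπ e (Or.inl he) a b
        rwa [val_glue_left s p q _ _ (by have := h1 e he; omega) (by have := h1 e he; omega)]
          at this
      · intro e he a b
        have := hπ (l + e) (Or.inr ⟨e, he, rfl⟩) a b
        rwa [add_assoc, add_assoc,
          val_glue_right s p q _ _ (by have := h2 e he; omega) (by have := h2 e he; omega)]
          at this
  rw [hcard, card_product, card_product, card_univ, Fintype.card_finset_len, Fintype.card_fin]
  unfold N
  ring

end Pool.Agent.H224R3.Cluster
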