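import Pool.Agent.H224R3.Cluster1

set_option autoImplicit false

namespace Pool.Agent.H224R3.Cluster

open Finset

/-- cluster condition -/
def IsCl (l : ℕ) (E : Finset ℕ) : Prop := ∀ b, 1 ≤ b → b < l → ∃ e ∈ E, e < b ∧ b < e + 6

open Classical in
/-- clusters of length l -/
noncomputable def Cl (l : ℕ) : Finset (Finset ℕ) :=
  (range (l - 5)).powerset.filter (fun E => IsCl l E)

/-- signed cluster numbers -/
noncomputable def w (l : ℕ) : ℤ := ∑ E ∈ Cl l, (-1) ^ E.card * (N l E : ℤ)

open Classical in
theorem mem_Cl {l : ℕ} {E : Finset ℕ} : E ∈ Cl l ↔ (∀ e ∈ E, e + 6 ≤ l) ∧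
    ∀ b, 1 ≤ b → b < l → ∃ e ∈ E, e < b ∧ b < e + 6 := by
  unfold Cl
  rw [mem_filter, mem_powerset, IsCl]
  constructor
  · rintro ⟨h, h'⟩
    exact ⟨fun e he => by have := mem_range.1 (h he); omega, h'⟩
  · rintro ⟨h, h'⟩
    exact ⟨fun e he => mem_range.2 (by have := h e he; omega), h'⟩

theorem mem_P {n : ℕ} {E : Finset ℕ} : E ∈ (range (n - 5)).powerset ↔ ∀ e ∈ E, e + 6 ≤ n := by
  rw [mem_powerset]
  constructor
  · intro h e he
    have := mem_range.1 (h he); omega
  · intro h e he
    exact mem_range.2 (by have := h e he; omega)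

open Classical in
theorem sum_split (n : ℕ) (hn : 1 ≤ n) (g : Finset ℕ → ℤ) :
    ∑ E ∈ (range (n - 5)).powerset, g E =
      ∑ l ∈ Icc 1 n, ∑ E1 ∈ Cl l, ∑ E2 ∈ (range (n - l - 5)).powerset,
        g (E1 ∪ E2.map (addLeftEmbedding l)) := by
  have hR : ∑ l ∈ Icc 1 n, ∑ E1 ∈ Cl l, ∑ E2 ∈ (range (n - l - 5)).powerset,
        g (E1 ∪ E2.map (addLeftEmbedding l)) =
      ∑ x ∈ (Icc 1 n).sigma (fun l => Cl l ×ˢ (range (n - l - 5)).powerset),
        g (x.2.1 ∪ x.2.2.map (addLeftEmbedding x.1)) := by
    rw [sum_sigma]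
    apply sum_congr rfl
    intro l _
    rw [sum_product]
  rw [hR]
  symm
  apply sum_nbij (fun x => x.2.1 ∪ x.2.2.map (addLeftEmbedding x.1))
  · rintro ⟨l, E1, E2⟩ hx
    simp only [mem_sigma, mem_Icc, mem_product] at hx
    obtain ⟨⟨hl1, hl2⟩, h1, h2⟩ := hx
    rw [mem_Cl] at h1
    rw [mem_P] at h2
    simp only
    rw [mem_P]
    intro e he
    rw [mem_union, mem_map] at he
    rcases he with he | ⟨e', he', rfl⟩
    · have := h1.1 e he; omega
    · have := h2 e' he'
      simp only [addLeftEmbedding_apply]; omega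
  · rintro ⟨l, E1, E2⟩ hx ⟨l', E1', E2'⟩ hx' hEq
    simp only [coe_sigma, Set.mem_sigma_iff, mem_coe, mem_Icc, mem_product] at hx hx'
    simp only at hEq
    obtain ⟨⟨hl1, hl2⟩, h1, h2⟩ := hx
    obtain ⟨⟨hl1', hl2'⟩, h1', h2'⟩ := hx'
    rw [mem_Cl] at h1 h1'
    rw [mem_P] at h2 h2'
    -- first break agree
    have aux : ∀ (l l' : ℕ) (E1 E2 E1' E2' : Finset ℕ), 1 ≤ l → (∀ e ∈ E1, e + 6 ≤ l) →
        (∀ b, 1 ≤ b → b < l' → ∃ e ∈ E1', e < b ∧ b < e + 6) →
        E1 ∪ E2.map (addLeftEmbedding l) = E1' ∪ E2'.map (addLeftEmbedding l') → ¬ l < l' := by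
      intro l l' E1 E2 E1' E2' hl h h' hE hlt
      obtain ⟨e, he, he1, he2⟩ := h' l hl hlt
      have hmem : e ∈ E1 ∪ E2.map (addLeftEmbedding l) := by
        rw [hE]; exact mem_union_left _ he
      rw [mem_union, mem_map] at hmem
      rcases hmem with hm | ⟨e', he', hee⟩
      · have := h e hm; omega
      · simp only [addLeftEmbedding_apply] at hee; omega
    have hll : l = l' := by
      have a1 := aux l l' E1 E2 E1' E2' hl1 h1.1 h1'.2 hEq
      have a2 := aux l' l E1' E2' E1 E2 hl1' h1'.1 h1.2 hEq.symm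
      omega
    subst hll
    have hE1 : E1 = E1' := by
      ext e
      constructor
      · intro he
        have hmem : e ∈ E1' ∪ E2'.map (addLeftEmbedding l) := by
          rw [← hEq]; exact mem_union_left _ he
        rw [mem_union, mem_map] at hmem
        rcases hmem with hm | ⟨e', he', hee⟩
        · exact hm
        · simp only [addLeftEmbedding_apply] at hee
          have := h1.1 e he; omega
      · intro he
        have hmem : e ∈ E1 ∪ E2.map (addLeftEmbedding l) := by
          rw [hEq]; exact mem_union_left _ he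
        rw [mem_union, mem_map] at hmem
        rcases hmem with hm | ⟨e', he', hee⟩
        · exact hm
        · simp only [addLeftEmbedding_apply] at hee
          have := h1'.1 e he; omega
    have hE2 : E2 = E2' := by
      ext e
      constructor
      · intro he
        have hmem : l + e ∈ E1' ∪ E2'.map (addLeftEmbedding l) := by
          rw [← hEq]; exact mem_union_right _ (mem_map.2 ⟨e, he, rfl⟩)
        rw [mem_union, mem_map] at hmem
        rcases hmem with hm | ⟨e', he', hee⟩
        · have := h1'.1 _ hm; omega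
        · simp only [addLeftEmbedding_apply] at hee
          have : e' = e := by omega
          exact this ▸ he'
      · intro he
        have hmem : l + e ∈ E1 ∪ E2.map (addLeftEmbedding l) := by
          rw [hEq]; exact mem_union_right _ (mem_map.2 ⟨e, he, rfl⟩)
        rw [mem_union, mem_map] at hmem
        rcases hmem with hm | ⟨e', he', hee⟩
        · have := h1.1 _ hm; omega
        · simp only [addLeftEmbedding_apply] at hee
          have : e' = e := by omega
          exact this ▸ he'
    rw [hE1, hE2]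
  · intro E hE
    rw [mem_coe, mem_P] at hE
    have hex : ∃ l, 1 ≤ l ∧ ∀ e ∈ E, e + 6 ≤ l ∨ l ≤ e := ⟨n, hn, fun e he => Or.inl (hE e he)⟩
    obtain ⟨hl1, hl2⟩ := Nat.find_spec hex
    have hmin := fun m (hm : m < Nat.find hex) => Nat.find_min hex hm
    have hle : Nat.find hex ≤ n := Nat.find_min' hex ⟨hn, fun e he => Or.inl (hE e he)⟩
    set l := Nat.find hex with hl
    refine ⟨⟨l, E.filter (· < l), (E.filter (l ≤ ·)).image (· - l)⟩, ?_, ?_⟩
    · simp only [coe_sigma, Set.mem_sigma_iff, mem_coe, mem_Icc, mem_product]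
      refine ⟨⟨hl1, hle⟩, ?_, ?_⟩
      · rw [mem_Cl]
        constructor
        · intro e he
          rw [mem_filter] at he
          rcases hl2 e he.1 with h | h <;> omega
        · intro b hb hb'
          have := hmin b hb'
          push Not at this
          obtain ⟨e, he, h1, h2⟩ := this hb
          exact ⟨e, mem_filter.2 ⟨he, by omega⟩, h2, h1⟩
      · rw [mem_P]
        intro e he
        rw [mem_image] at he
        obtain ⟨e', he', rfl⟩ := he
        rw [mem_filter] at he'
        have := hE e' he'.1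
        omega
    · ext e
      simp only [mem_union, mem_filter, mem_map, mem_image, addLeftEmbedding_apply]
      constructor
      · rintro (h | ⟨e', ⟨e'', h1, h2⟩, h3⟩)
        · exact h.1
        · have : e = e'' := by omega
          rw [this]; exact h1.1
      · intro he
        by_cases h : e < l
        · exact Or.inl ⟨he, h⟩
        · exact Or.inr ⟨e - l, ⟨e, ⟨he, by omega⟩, rfl⟩, by omega⟩
  · intro x _
    rfl

theorem al_rec (n : ℕ) (hn : 1 ≤ n) :
    (al n : ℤ) = ∑ l ∈ Icc 1 n, (n.choose l : ℤ) * w l * (al (n - l) : ℤ) := by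
  rw [al_eq, sum_split n hn]
  apply sum_congr rfl
  intro l hl
  rw [mem_Icc] at hl
  rw [al_eq (n - l), w, mul_sum (s := Cl l), sum_mul]
  apply sum_congr rfl
  intro E1 hE1
  rw [mul_sum]
  apply sum_congr rfl
  intro E2 hE2
  rw [mem_Cl] at hE1
  rw [mem_P] at hE2
  have hN := N_mul l (n - l) E1 E2 hE1.1 hE2
  have hnl : l + (n - l) = n := by omega
  rw [hnl] at hN
  rw [hN]
  have hdisj : Disjoint E1 (E2.map (addLeftEmbedding l)) := by
    rw [disjoint_left]
    intro e he he'
    rw [mem_map] at he'
    obtain ⟨e', _, hee⟩ := he'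
    simp only [addLeftEmbedding_apply] at hee
    have := hE1.1 e he
    omega
  rw [card_union_of_disjoint hdisj, card_map, pow_add]
  push_cast
  ring

/-- compatible shifts are odd -/
theorem shift_odd {x : ℕ → ℕ} {e s : ℕ} (h1 : Occ x e) (h2 : Occ x (e + s)) (hs : 1 ≤ s)
    (hs' : s < 6) : s % 2 = 1 := by
  have key : s ≠ 2 ∧ s ≠ 4 := by
    constructor
    · rintro rfl
      have a := h1 3 4
      have b := h2 1 2
      have ha : sig 3 < sig 4 := by decide
      have hb : ¬ sig 1 < sig 2 := by decide
      apply hb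
      rw [b]
      have := a.1 ha
      simpa [add_assoc] using this
    · rintro rfl
      have a := h1 4 5
      have b := h2 0 1
      have ha : ¬ sig 4 < sig 5 := by decide
      have hb : sig 0 < sig 1 := by decide
      apply ha
      rw [a]
      have := b.1 hb
      simpa [add_assoc] using this
  omega

theorem parity_aux {n : ℕ} {E : Finset ℕ} (hE : E ∈ Cl n) (x : ℕ → ℕ)
    (hx : ∀ e ∈ E, Occ x e) : ∀ e ∈ E, (E.filter (· < e)).card % 2 = e % 2 := by
  rw [mem_Cl] at hE
  intro e
  induction e using Nat.strong_induction_on with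
  | _ e ih =>
    intro he
    by_cases he0 : e = 0
    · subst he0
      simp
    · -- predecessor
      have hen := hE.1 e he
      obtain ⟨e1, he1, he1', he1''⟩ := hE.2 e (by omega) (by omega)
      have hne : (E.filter (· < e)).Nonempty := ⟨e1, mem_filter.2 ⟨he1, he1'⟩⟩
      set e' := (E.filter (· < e)).max' hne with he'
      have hmem : e' ∈ E.filter (· < e) := max'_mem _ _
      rw [mem_filter] at hmem
      have hge : e1 ≤ e' := le_max' _ _ (mem_filter.2 ⟨he1, he1'⟩)
      have ih' := ih e' hmem.2 hmem.1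
      have hcard : (E.filter (· < e)) = insert e' (E.filter (· < e')) := by
        ext y
        simp only [mem_filter, mem_insert]
        constructor
        · rintro ⟨h1, h2⟩
          have : y ≤ e' := le_max' _ _ (mem_filter.2 ⟨h1, h2⟩)
          rcases this.lt_or_eq with h | h
          · exact Or.inr ⟨h1, h⟩
          · exact Or.inl h
        · rintro (h | ⟨h1, h2⟩)
          · rw [h]; exact hmem
          · exact ⟨h1, by omega⟩
      rw [hcard, card_insert_of_notMem (by simp)]
      have hs := shift_odd (x := x) (e := e') (s := e - e') (hx e' hmem.1)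
        (by rw [Nat.add_sub_cancel' hmem.2.le]; exact hx e he) (by omega) (by omega)
      omega

open Classical in
theorem parity {n : ℕ} (hn : 1 ≤ n) {E : Finset ℕ} (hE : E ∈ Cl n) (hN : N n E ≠ 0) :
    (-1 : ℤ) ^ E.card = (-1) ^ (n + 1) := by
  unfold N at hN
  rw [card_ne_zero] at hN
  obtain ⟨π, hπ⟩ := hN
  rw [mem_filter] at hπ
  have hE' := hE
  rw [mem_Cl] at hE'
  by_cases hn1 : n = 1
  · subst hn1
    have : E = ∅ := by
      rw [eq_empty_iff_forall_notMem]
      intro e he
      have := hE'.1 e he
      omega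
    rw [this]; simp
  · obtain ⟨e, he, h1, h2⟩ := hE'.2 (n - 1) (by omega) (by omega)
    have hen := hE'.1 e he
    have hee : e + 6 = n := by omega
    have hp := parity_aux hE (val π) hπ.2 e he
    have hcard : E = insert e (E.filter (· < e)) := by
      ext y
      simp only [mem_insert, mem_filter]
      constructor
      · intro hy
        have := hE'.1 y hy
        rcases Nat.lt_or_ge y e with h | h
        · exact Or.inr ⟨hy, h⟩
        · exact Or.inl (by omega)
      · rintro (h | h)
        · rw [h]; exact he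
        · exact h.1
    have hc : E.card = (E.filter (· < e)).card + 1 := by
      conv_lhs => rw [hcard]
      rw [card_insert_of_notMem (by simp)]
    rw [hc, neg_one_pow_eq_pow_mod_two, neg_one_pow_eq_pow_mod_two (n := n + 1)]
    congr 1
    omega

theorem w_abs (n : ℕ) (hn : 1 ≤ n) (E : Finset ℕ) (hE : E ∈ Cl n) : (N n E : ℤ) ≤ |w n| := by
  have h : w n = (-1) ^ (n + 1) * ∑ E ∈ Cl n, (N n E : ℤ) := by
    unfold w
    rw [mul_sum]
    apply sum_congr rfl
    intro F hF
    by_cases hz : N n F = 0
    · rw [hz]; simp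
    · rw [parity hn hF hz]
  rw [h, abs_mul, abs_pow, abs_neg, abs_one, one_pow, one_mul]
  refine le_trans ?_ (le_abs_self _)
  exact single_le_sum (f := fun E => (N n E : ℤ)) (fun _ _ => Int.natCast_nonneg _) hE

end Pool.Agent.H224R3.Cluster
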