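import Pool.Agent.H224R3.Cluster2

set_option autoImplicit false

namespace Pool.Agent.H224R3.Cluster

open Finset

/-- levels of the eight classes -/
def hl : Fin 8 → Fin 8 := ![2, 3, 0, 4, 5, 1, 6, 7]

/-- class level of a position -/
def Lv (n : ℕ) (j : Fin n) : Fin 8 := hl ⟨(j : ℕ) % 8, Nat.mod_lt _ (by norm_num)⟩

/-- periodic set of starting positions -/
def Em (m : ℕ) : Finset ℕ :=
  (range m).image (fun i => 8 * i) ∪ (range m).image (fun i => 8 * i + 3)

theorem Em_mem_Cl (m : ℕ) : Em m ∈ Cl (8 * m + 1) := by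
  rw [mem_Cl]
  constructor
  · intro e he
    simp only [Em, mem_union, mem_image, mem_range] at he
    rcases he with ⟨i, hi, rfl⟩ | ⟨i, hi, rfl⟩ <;> omega
  · intro b hb hb'
    by_cases h : 1 ≤ b % 8 ∧ b % 8 ≤ 5
    · refine ⟨8 * (b / 8), ?_, by omega, by omega⟩
      simp only [Em, mem_union, mem_image, mem_range]
      exact Or.inl ⟨b / 8, by omega, rfl⟩
    · by_cases h0 : b % 8 = 0
      · refine ⟨8 * (b / 8 - 1) + 3, ?_, by omega, by omega⟩
        simp only [Em, mem_union, mem_image, mem_range]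
        exact Or.inr ⟨b / 8 - 1, by omega, rfl⟩
      · refine ⟨8 * (b / 8) + 3, ?_, by omega, by omega⟩
        simp only [Em, mem_union, mem_image, mem_range]
        exact Or.inr ⟨b / 8, by omega, rfl⟩

/-- permutations respecting the levels -/
def Resp {n : ℕ} (π : Equiv.Perm (Fin n)) : Prop := ∀ i j, Lv n i < Lv n j → π i < π j

theorem val_lt_iff {n : ℕ} {π : Equiv.Perm (Fin n)} (h : Resp π) {p q : ℕ} (hp : p < n)
    (hq : q < n) (c d : Fin 8) (hc : p % 8 = c) (hd : q % 8 = d) (hcd : hl c ≠ hl d) :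
    val π p < val π q ↔ hl c < hl d := by
  have e1 : Lv n ⟨p, hp⟩ = hl c := by
    unfold Lv; congr 1; ext; exact hc
  have e2 : Lv n ⟨q, hq⟩ = hl d := by
    unfold Lv; congr 1; ext; exact hd
  simp only [val, hp, hq, dif_pos, Fin.val_fin_lt]
  constructor
  · intro hlt
    rcases lt_trichotomy (hl c) (hl d) with h1 | h1 | h1
    · exact h1
    · exact absurd h1 hcd
    · have := h ⟨q, hq⟩ ⟨p, hp⟩ (by rw [e1, e2]; exact h1)
      exact absurd hlt (lt_asymm this)
  · intro h1
    exact h ⟨p, hp⟩ ⟨q, hq⟩ (by rw [e1, e2]; exact h1)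

theorem occ_of_resp {m : ℕ} {π : Equiv.Perm (Fin (8 * m + 1))} (h : Resp π) {e : ℕ}
    (he : e ∈ Em m) : Occ (val π) e := by
  simp only [Em, mem_union, mem_image, mem_range] at he
  intro a b
  have ha := a.2
  have hb := b.2
  by_cases hab : a = b
  · subst hab; simp
  rcases he with ⟨i, hi, rfl⟩ | ⟨i, hi, rfl⟩
  · have key : ∀ a b : Fin 6, a ≠ b → hl (Fin.castLE (by norm_num) a) ≠ hl (Fin.castLE (by norm_num) b) ∧
        (sig a < sig b ↔ hl (Fin.castLE (by norm_num) a) < hl (Fin.castLE (by norm_num) b)) := by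
      decide
    rw [val_lt_iff h (by omega) (by omega) (Fin.castLE (by norm_num) a) (Fin.castLE (by norm_num) b)
      (by simp only [Fin.val_castLE]; omega) (by simp only [Fin.val_castLE]; omega) (key a b hab).1]
    exact (key a b hab).2
  · have key : ∀ a b : Fin 6, a ≠ b →
        hl ⟨((a : ℕ) + 3) % 8, Nat.mod_lt _ (by norm_num)⟩ ≠
          hl ⟨((b : ℕ) + 3) % 8, Nat.mod_lt _ (by norm_num)⟩ ∧
        (sig a < sig b ↔ hl ⟨((a : ℕ) + 3) % 8, Nat.mod_lt _ (by norm_num)⟩ <
          hl ⟨((b : ℕ) + 3) % 8, Nat.mod_lt _ (by norm_num)⟩) := by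
      decide
    rw [val_lt_iff h (by omega) (by omega) ⟨((a : ℕ) + 3) % 8, Nat.mod_lt _ (by norm_num)⟩
      ⟨((b : ℕ) + 3) % 8, Nat.mod_lt _ (by norm_num)⟩
      (by simp only []; omega) (by simp only []; omega) (key a b hab).1]
    exact (key a b hab).2

open Classical in
theorem card_resp (n : ℕ) :
    n.factorial ≤ 8 ^ n * (univ.filter (fun π : Equiv.Perm (Fin n) => Resp π)).card := by
  set G := univ.filter (fun π : Equiv.Perm (Fin n) => Resp π) with hG
  set f : Equiv.Perm (Fin n) → (Fin n → Fin 8) := fun π => Lv n ∘ π.symm with hf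
  set π0 : Equiv.Perm (Fin n) := (Tuple.sort (Lv n))⁻¹ with hπ0
  have hmono : Monotone (Lv n ∘ Tuple.sort (Lv n)) := Tuple.monotone_sort _
  have h0 : ∀ i j, Lv n i < Lv n j → π0 i < π0 j := by
    intro i j hij
    by_contra hcon
    push Not at hcon
    have := hmono hcon
    simp only [Function.comp] at this
    have e1 : Tuple.sort (Lv n) (π0 i) = i := by rw [hπ0]; simp
    have e2 : Tuple.sort (Lv n) (π0 j) = j := by rw [hπ0]; simp
    rw [e1, e2] at this
    exact absurd hij (not_lt.2 this)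
  have hfib : ∀ b ∈ (univ : Finset (Equiv.Perm (Fin n))).image f,
      ((univ : Finset (Equiv.Perm (Fin n))).filter (fun a => f a = b)).card ≤ G.card := by
    intro b hb
    rw [mem_image] at hb
    obtain ⟨π1, _, rfl⟩ := hb
    apply card_le_card_of_injOn (fun π => π0 * (π1⁻¹ * π))
    · intro π hπ
      simp only [coe_filter, mem_univ, true_and, Set.mem_ofPred_eq] at hπ
      simp only [hG, coe_filter, mem_univ, true_and, Set.mem_ofPred_eq]
      have hst : ∀ j, Lv n ((π1⁻¹ * π) j) = Lv n j := by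
        intro j
        have := congrFun hπ (π j)
        simp only [hf, Function.comp, Equiv.symm_apply_apply] at this
        rw [this]
        rfl
      intro i j hij
      have a := hst i
      have b := hst j
      rw [Equiv.Perm.mul_apply] at a b
      rw [Equiv.Perm.mul_apply, Equiv.Perm.mul_apply, Equiv.Perm.mul_apply, Equiv.Perm.mul_apply]
      apply h0
      rw [a, b]
      exact hij
    · intro π _ π' _ hEq
      simp only at hEq
      exact mul_left_cancel (mul_left_cancel hEq)
  have h1 := card_le_mul_card_image (f := f) (univ : Finset (Equiv.Perm (Fin n))) G.card hfib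
  have h2 : ((univ : Finset (Equiv.Perm (Fin n))).image f).card ≤ 8 ^ n := by
    refine (card_le_univ _).trans ?_
    simp
  calc n.factorial = (univ : Finset (Equiv.Perm (Fin n))).card := by
        rw [card_univ, Fintype.card_perm, Fintype.card_fin]
    _ ≤ G.card * ((univ : Finset (Equiv.Perm (Fin n))).image f).card := h1
    _ ≤ G.card * 8 ^ n := Nat.mul_le_mul_left _ h2
    _ = 8 ^ n * G.card := mul_comm _ _

open Classical in
theorem N_lower (m : ℕ) : (8 * m + 1).factorial ≤ 8 ^ (8 * m + 1) * N (8 * m + 1) (Em m) := by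
  refine (card_resp (8 * m + 1)).trans (Nat.mul_le_mul_left _ ?_)
  unfold N
  apply card_le_card
  intro π hπ
  rw [mem_filter] at hπ ⊢
  exact ⟨hπ.1, fun e he => occ_of_resp hπ.2 he⟩

theorem w_lower (m : ℕ) : ((8 * m + 1).factorial : ℤ) ≤ 8 ^ (8 * m + 1) * |w (8 * m + 1)| := by
  have h1 := N_lower m
  have h2 := w_abs (8 * m + 1) (by omega) (Em m) (Em_mem_Cl m)
  calc ((8 * m + 1).factorial : ℤ) ≤ 8 ^ (8 * m + 1) * (N (8 * m + 1) (Em m) : ℤ) := by
        exact_mod_cast h1
    _ ≤ _ := by
        apply mul_le_mul_of_nonneg_left h2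
        positivity

end Pool.Agent.H224R3.Cluster
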