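import Pool.Agent.H224R3.Cluster3

set_option autoImplicit false

namespace Pool.Agent.H224R3.Cluster

open Finset

/-- normalized avoider numbers -/
noncomputable def a (n : ℕ) : ℂ := (al n : ℂ) / (n.factorial : ℂ)

/-- normalized signed cluster numbers -/
noncomputable def W (n : ℕ) : ℂ := if n = 0 then 0 else (w n : ℂ) / (n.factorial : ℂ)

theorem al_zero : al 0 = 1 := by
  classical
  unfold al
  rw [filter_true_of_mem]
  · simp
  · intro π _ i hi
    omega

theorem al_le (n : ℕ) : al n ≤ n.factorial := by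
  classical
  unfold al
  refine (card_filter_le _ _).trans ?_
  rw [card_univ, Fintype.card_perm, Fintype.card_fin]

theorem a_norm (n : ℕ) : ‖a n‖ ≤ 1 := by
  unfold a
  rw [norm_div, Complex.norm_natCast, Complex.norm_natCast]
  rw [div_le_one (by exact_mod_cast n.factorial_pos)]
  exact_mod_cast al_le n

theorem a_rec (n : ℕ) (hn : 1 ≤ n) : a n = ∑ p ∈ antidiagonal n, W p.1 * a p.2 := by
  rw [Nat.sum_antidiagonal_eq_sum_range_succ (fun i j => W i * a j), range_eq_Ico,
    sum_eq_sum_Ico_succ_bot (by omega)]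
  have h0 : W 0 = 0 := by simp [W]
  rw [h0, zero_mul, zero_add]
  have hI : Ico (0 + 1) (n + 1) = Icc 1 n := by
    ext x; simp only [mem_Ico, mem_Icc]; omega
  have h := al_rec n hn
  have h' : (al n : ℂ) = ∑ l ∈ Icc 1 n, (n.choose l : ℂ) * (w l : ℂ) * (al (n - l) : ℂ) := by
    exact_mod_cast h
  unfold a
  rw [h', sum_div]
  refine sum_congr hI.symm ?_
  intro l hl
  have hl : 1 ≤ l ∧ l ≤ n := by
    rw [mem_Ico] at hl; omega
  have hl0 : l ≠ 0 := by omega
  simp only [W, hl0, if_false]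
  have hch : (n.choose l : ℂ) = (n.factorial : ℂ) / ((l.factorial : ℂ) * ((n - l).factorial : ℂ)) := by
    rw [Nat.choose_eq_factorial_div_factorial hl.2,
      Nat.cast_div (Nat.factorial_mul_factorial_dvd_factorial hl.2)
        (by exact_mod_cast (Nat.mul_ne_zero l.factorial_ne_zero (n - l).factorial_ne_zero))]
    push_cast
    rfl
  rw [hch]
  have h1 : (n.factorial : ℂ) ≠ 0 := by exact_mod_cast n.factorial_ne_zero
  have h2 : (l.factorial : ℂ) ≠ 0 := by exact_mod_cast l.factorial_ne_zero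
  have h3 : ((n - l).factorial : ℂ) ≠ 0 := by exact_mod_cast (n - l).factorial_ne_zero
  field_simp

theorem W_norm (m : ℕ) : 1 ≤ ‖W (8 * m + 1)‖ * 8 ^ (8 * m + 1) := by
  have h := w_lower m
  have h1 : (0 : ℝ) < ((8 * m + 1).factorial : ℝ) := by exact_mod_cast (8 * m + 1).factorial_pos
  have h' : ((8 * m + 1).factorial : ℝ) ≤ 8 ^ (8 * m + 1) * |(w (8 * m + 1) : ℝ)| := by
    exact_mod_cast h
  have h0 : (8 * m + 1 : ℕ) ≠ 0 := by omega
  simp only [W, h0, if_false]
  rw [norm_div, Complex.norm_natCast, Complex.norm_intCast, div_mul_eq_mul_div,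
    le_div_iff₀ h1, one_mul, mul_comm |_|]
  exact h'

theorem hasSum_unique (c d : ℕ → ℂ) (g : ℂ → ℂ)
    (hc : ∀ᶠ z in nhds (0 : ℂ), HasSum (fun n => c n * z ^ n) (g z))
    (hd : ∀ᶠ z in nhds (0 : ℂ), HasSum (fun n => d n * z ^ n) (g z)) : c = d := by
  have h1 : HasFPowerSeriesAt g (FormalMultilinearSeries.ofScalars ℂ c) 0 := by
    rw [hasFPowerSeriesAt_iff]
    filter_upwards [hc] with z hz
    simpa [FormalMultilinearSeries.coeff_ofScalars, mul_comm] using hz
  have h2 : HasFPowerSeriesAt g (FormalMultilinearSeries.ofScalars ℂ d) 0 := by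
    rw [hasFPowerSeriesAt_iff]
    filter_upwards [hd] with z hz
    simpa [FormalMultilinearSeries.coeff_ofScalars, mul_comm] using hz
  have h3 := h1.eq_formalMultilinearSeries h2
  funext n
  have := congrArg (fun p => FormalMultilinearSeries.coeff p n) h3
  simpa [FormalMultilinearSeries.coeff_ofScalars] using this

theorem no_entire (f : ℂ → ℂ) (hf : Differentiable ℂ f)
    (h : ∀ᶠ z in nhds (0 : ℂ), f z * (∑' n : ℕ, (al n : ℂ) * z ^ n / (n.factorial : ℂ)) = 1) :
    False := by
  set F : ℕ → ℂ := fun n => (n.factorial : ℂ)⁻¹ * iteratedDeriv n f 0 with hFdef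
  have hF : ∀ z, HasSum (fun n => F n * z ^ n) (f z) := by
    intro z
    have := Complex.hasSum_taylorSeries_of_entire hf 0 z
    simp only [sub_zero, smul_eq_mul] at this
    have h2 : (fun n => F n * z ^ n) =
        fun n => (n.factorial : ℂ)⁻¹ * (z ^ n * iteratedDeriv n f 0) := by
      funext n
      show (n.factorial : ℂ)⁻¹ * iteratedDeriv n f 0 * z ^ n = _
      ring
    rw [h2]
    exact this
  have hFs : ∀ z, Summable (fun n => ‖F n * z ^ n‖) := fun z => (hF z).summable.norm
  have hball : ∀ᶠ z in nhds (0 : ℂ), ‖z‖ < 1 := by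
    have := Metric.ball_mem_nhds (0 : ℂ) one_pos
    filter_upwards [this] with z hz
    simpa using hz
  have has : ∀ z : ℂ, ‖z‖ < 1 → Summable (fun n => ‖a n * z ^ n‖) := by
    intro z hz
    refine Summable.of_nonneg_of_le (fun _ => norm_nonneg _) (fun n => ?_)
      (summable_geometric_of_lt_one (norm_nonneg z) hz)
    rw [norm_mul, norm_pow]
    have := a_norm n
    have h2 : 0 ≤ ‖z‖ ^ n := by positivity
    nlinarith
  have hprod : ∀ᶠ z in nhds (0 : ℂ),
      HasSum (fun n => (∑ p ∈ antidiagonal n, F p.1 * a p.2) * z ^ n) (1 : ℂ) := by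
    filter_upwards [h, hball] with z hz hz1
    have h1 := tsum_mul_tsum_eq_tsum_sum_antidiagonal_of_summable_norm (hFs z) (has z hz1)
    have h2 := summable_norm_sum_mul_antidiagonal_of_summable_norm (hFs z) (has z hz1)
    have h3 : (∑' n : ℕ, (al n : ℂ) * z ^ n / (n.factorial : ℂ)) = ∑' n, a n * z ^ n := by
      apply tsum_congr
      intro n
      unfold a
      ring
    rw [(hF z).tsum_eq, ← h3, hz] at h1
    have h4 : (fun n => (∑ p ∈ antidiagonal n, F p.1 * a p.2) * z ^ n) =
        fun n => ∑ kl ∈ antidiagonal n, F kl.1 * z ^ kl.1 * (a kl.2 * z ^ kl.2) := by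
      funext n
      rw [sum_mul]
      apply sum_congr rfl
      intro p hp
      rw [HasAntidiagonal.mem_antidiagonal] at hp
      rw [← hp, pow_add]
      ring
    rw [h4, h1]
    exact h2.of_norm.hasSum
  have hone : ∀ᶠ z in nhds (0 : ℂ),
      HasSum (fun n => (if n = 0 then (1 : ℂ) else 0) * z ^ n) (1 : ℂ) := by
    refine Filter.Eventually.of_forall (fun z => ?_)
    have := hasSum_single (f := fun n : ℕ => (if n = 0 then (1 : ℂ) else 0) * z ^ n) 0
      (fun n hn => by simp [hn])
    simpa using this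
  have hcoef := hasSum_unique _ _ (fun _ => 1) hprod hone
  -- power series
  set Fp : PowerSeries ℂ := PowerSeries.mk F
  set Ap : PowerSeries ℂ := PowerSeries.mk a
  set Wp : PowerSeries ℂ := PowerSeries.mk W
  have e1 : Fp * Ap = 1 := by
    ext n
    rw [PowerSeries.coeff_mul, PowerSeries.coeff_one]
    simp only [Fp, Ap, PowerSeries.coeff_mk]
    exact congrFun hcoef n
  have e2 : (1 - Wp) * Ap = 1 := by
    rw [sub_mul, one_mul]
    ext n
    rw [map_sub, PowerSeries.coeff_mul, PowerSeries.coeff_one]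
    simp only [Wp, Ap, PowerSeries.coeff_mk]
    by_cases hn : n = 0
    · subst hn
      simp [a, al_zero, W]
    · rw [if_neg hn, ← a_rec n (by omega), sub_self]
  have e3 : Fp = 1 - Wp := by
    calc Fp = Fp * ((1 - Wp) * Ap) := by rw [e2, mul_one]
      _ = (1 - Wp) * (Fp * Ap) := by ring
      _ = 1 - Wp := by rw [e1, mul_one]
  have e4 : ∀ n, 1 ≤ n → F n = - W n := by
    intro n hn
    have := congrArg (PowerSeries.coeff n) e3
    rw [map_sub, PowerSeries.coeff_one, if_neg (by omega)] at this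
    simp only [Fp, Wp, PowerSeries.coeff_mk] at this
    rw [this]; ring
  have h8 : Filter.Tendsto (fun n => ‖F n * (8 : ℂ) ^ n‖) Filter.atTop (nhds 0) :=
    (hFs 8).tendsto_atTop_zero
  have h9 : ∀ᶠ n in Filter.atTop, ‖F n * (8 : ℂ) ^ n‖ < 1 := h8.eventually (gt_mem_nhds one_pos)
  obtain ⟨n0, hn0⟩ := Filter.eventually_atTop.1 h9
  have h10 := hn0 (8 * n0 + 1) (by omega)
  rw [e4 _ (by omega), norm_mul, norm_neg, norm_pow] at h10
  have h11 := W_norm n0
  have h12 : ‖(8 : ℂ)‖ = 8 := by simp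
  rw [h12] at h10
  linarith

end Pool.Agent.H224R3.Cluster
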