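import Mathlib

set_option autoImplicit false

namespace Pool.Agent.H224R3.Dom

open Finset

/-- vertex type -/
abbrev V (a M : ℕ) := (Fin a × Fin 4) ⊕ ((Fin a × Fin 4) ⊕ Fin M)

/-- oriented edge relation -/
def R {a M : ℕ} (e : Fin M → Fin a × Fin a) : V a M → V a M → Prop
  | .inl (i, k), .inl (i', k') => i = i' ∧ k = 0 ∧ k' ≠ 0
  | .inr (.inl (j, k)), .inr (.inl (j', k')) => j = j' ∧ ((k = 0 ∧ k' = 2) ∨ (k = 1 ∧ k' = 3))
  | .inr (.inr b), .inl (i, k) => (e b).1 = i ∧ k = 0
  | .inr (.inr b), .inr (.inl (j, k)) => (e b).2 = j ∧ (k = 0 ∨ k = 1)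
  | _, _ => False

/-- the graph -/
def G {a M : ℕ} (e : Fin M → Fin a × Fin a) : SimpleGraph (V a M) := SimpleGraph.fromRel (R e)

theorem dom_iff {a M : ℕ} (e : Fin M → Fin a × Fin a) (S : Finset (V a M)) :
    (∀ v, v ∈ S ∨ ∃ u ∈ S, (G e).Adj v u) ↔
    (∀ i, Sum.inl (i, 0) ∈ S ∨ (Sum.inl (i, 1) ∈ S ∧ Sum.inl (i, 2) ∈ S ∧ Sum.inl (i, 3) ∈ S)) ∧
    (∀ j, (Sum.inr (Sum.inl (j, 0)) ∈ S ∨ Sum.inr (Sum.inl (j, 2)) ∈ S) ∧
      (Sum.inr (Sum.inl (j, 1)) ∈ S ∨ Sum.inr (Sum.inl (j, 3)) ∈ S)) ∧
    (∀ b, Sum.inr (Sum.inr b) ∈ S ∨ Sum.inl ((e b).1, 0) ∈ S ∨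
      Sum.inr (Sum.inl ((e b).2, 0)) ∈ S ∨ Sum.inr (Sum.inl ((e b).2, 1)) ∈ S) := by
  have adj : ∀ v u, (G e).Adj v u ↔ v ≠ u ∧ (R e v u ∨ R e u v) := by
    intro v u
    exact SimpleGraph.fromRel_adj _ _ _
  constructor
  · intro h
    have leafI : ∀ i (k : Fin 4), k ≠ 0 → Sum.inl (i, 0) ∈ S ∨ Sum.inl (i, k) ∈ S := by
      intro i k hk
      rcases h (Sum.inl (i, k)) with h1 | ⟨u, hu, hadj⟩
      · exact Or.inr h1
      · rw [adj] at hadj
        rcases u with ⟨i', k'⟩ | ⟨j', k'⟩ | b
        · simp only [R] at hadj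
          rcases hadj.2 with ⟨_, h2, _⟩ | ⟨h1, h2, _⟩
          · exact absurd h2 hk
          · left; rw [h1, h2] at hu; exact hu
        · simp only [R] at hadj; tauto
        · simp only [R] at hadj; tauto
    have leafII : ∀ j, (Sum.inr (Sum.inl (j, 0)) ∈ S ∨ Sum.inr (Sum.inl (j, 2)) ∈ S) := by
      intro j
      rcases h (Sum.inr (Sum.inl (j, 2))) with h1 | ⟨u, hu, hadj⟩
      · exact Or.inr h1
      · rw [adj] at hadj
        rcases u with ⟨i', k'⟩ | ⟨j', k'⟩ | b
        · simp only [R] at hadj; tauto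
        · simp only [R] at hadj
          rcases hadj.2 with ⟨_, h2⟩ | ⟨h1, h2⟩
          · rcases h2 with ⟨h3, _⟩ | ⟨h3, _⟩
            · exact absurd h3 (by decide)
            · exact absurd h3 (by decide)
          · rcases h2 with ⟨h3, _⟩ | ⟨_, h3⟩
            · left; rw [h1, h3] at hu; exact hu
            · exact absurd h3 (by decide)
        · simp only [R] at hadj
          rcases hadj.2 with h2 | ⟨_, h2 | h2⟩
          · exact h2.elim
          · exact absurd h2 (by decide)
          · exact absurd h2 (by decide)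
    have leafII' : ∀ j, (Sum.inr (Sum.inl (j, 1)) ∈ S ∨ Sum.inr (Sum.inl (j, 3)) ∈ S) := by
      intro j
      rcases h (Sum.inr (Sum.inl (j, 3))) with h1 | ⟨u, hu, hadj⟩
      · exact Or.inr h1
      · rw [adj] at hadj
        rcases u with ⟨i', k'⟩ | ⟨j', k'⟩ | b
        · simp only [R] at hadj; tauto
        · simp only [R] at hadj
          rcases hadj.2 with ⟨_, h2⟩ | ⟨h1, h2⟩
          · rcases h2 with ⟨h3, _⟩ | ⟨h3, _⟩
            · exact absurd h3 (by decide)
            · exact absurd h3 (by decide)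
          · rcases h2 with ⟨_, h3⟩ | ⟨h3, _⟩
            · exact absurd h3 (by decide)
            · left; rw [h1, h3] at hu; exact hu
        · simp only [R] at hadj
          rcases hadj.2 with h2 | ⟨_, h2 | h2⟩
          · exact h2.elim
          · exact absurd h2 (by decide)
          · exact absurd h2 (by decide)
    refine ⟨?_, ?_, ?_⟩
    · intro i
      have h1 := leafI i 1 (by decide)
      have h2 := leafI i 2 (by decide)
      have h3 := leafI i 3 (by decide)
      tauto
    · intro j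
      exact ⟨leafII j, leafII' j⟩
    · intro b
      rcases h (Sum.inr (Sum.inr b)) with h1 | ⟨u, hu, hadj⟩
      · exact Or.inl h1
      · rw [adj] at hadj
        rcases u with ⟨i', k'⟩ | ⟨j', k'⟩ | b'
        · simp only [R] at hadj
          rcases hadj.2 with ⟨h1, h2⟩ | h2
          · right; left; rw [h1, ← h2]; exact hu
          · exact h2.elim
        · simp only [R] at hadj
          rcases hadj.2 with ⟨h1, h2 | h2⟩ | h2
          · right; right; left; rw [h1, ← h2]; exact hu
          · right; right; right; rw [h1, ← h2]; exact hu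
          · exact h2.elim
        · simp only [R] at hadj; tauto
  · rintro ⟨h1, h2, h3⟩ v
    rcases v with ⟨i, k⟩ | ⟨j, k⟩ | b
    · by_cases hk : k = 0
      · subst hk
        rcases h1 i with h | ⟨h, _, _⟩
        · exact Or.inl h
        · right
          refine ⟨_, h, ?_⟩
          rw [adj]
          refine ⟨by simp, Or.inl ?_⟩
          simp [R]
      · rcases h1 i with h | ⟨ha, hb, hc⟩
        · right
          refine ⟨_, h, ?_⟩
          rw [adj]
          refine ⟨by simp [hk], Or.inr ?_⟩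
          simp [R, hk]
        · left
          fin_cases k
          · exact absurd rfl hk
          · exact ha
          · exact hb
          · exact hc
    · obtain ⟨ha, hb⟩ := h2 j
      fin_cases k
      · rcases ha with h | h
        · exact Or.inl h
        · right
          refine ⟨_, h, ?_⟩
          rw [adj]
          refine ⟨by simp, Or.inl ?_⟩
          simp [R]
      · rcases hb with h | h
        · exact Or.inl h
        · right
          refine ⟨_, h, ?_⟩
          rw [adj]
          refine ⟨by simp, Or.inl ?_⟩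
          simp [R]
      · rcases ha with h | h
        · right
          refine ⟨_, h, ?_⟩
          rw [adj]
          refine ⟨by simp, Or.inr ?_⟩
          simp [R]
        · exact Or.inl h
      · rcases hb with h | h
        · right
          refine ⟨_, h, ?_⟩
          rw [adj]
          refine ⟨by simp, Or.inr ?_⟩
          simp [R]
        · exact Or.inl h
    · rcases h3 b with h | h | h | h
      · exact Or.inl h
      all_goals
        right
        refine ⟨_, h, ?_⟩
        rw [adj]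
        refine ⟨by simp, Or.inl ?_⟩
        simp [R]

/-- configurations -/
abbrev C (a M : ℕ) := (Fin a → Finset (Fin 4)) × (Fin a → Finset (Fin 4)) × (Fin M → Bool)

/-- subsets as configurations -/
def toC (a M : ℕ) : Finset (V a M) ≃ C a M where
  toFun S := (fun i => univ.filter (fun k => Sum.inl (i, k) ∈ S),
    fun j => univ.filter (fun k => Sum.inr (Sum.inl (j, k)) ∈ S),
    fun b => decide (Sum.inr (Sum.inr b) ∈ S))
  invFun c := univ.filter (fun v => (match v with
    | .inl (i, k) => decide (k ∈ c.1 i)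
    | .inr (.inl (j, k)) => decide (k ∈ c.2.1 j)
    | .inr (.inr b) => c.2.2 b) = true)
  left_inv S := by
    ext v
    rcases v with ⟨i, k⟩ | ⟨j, k⟩ | b <;> simp
  right_inv c := by
    obtain ⟨c1, c2, c3⟩ := c
    simp only [Prod.mk.injEq]
    refine ⟨?_, ?_, ?_⟩
    · funext i; ext k; simp
    · funext i; ext k; simp
    · funext b; simp

/-- size of a configuration -/
def sz {a M : ℕ} (c : C a M) : ℕ :=
  ∑ i, (c.1 i).card + ∑ j, (c.2.1 j).card + ∑ b, (if c.2.2 b = true then 1 else 0)

theorem sz_toC {a M : ℕ} (S : Finset (V a M)) : sz (toC a M S) = S.card := by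
  have h : S.card = ∑ v : V a M, if v ∈ S then 1 else 0 := by simp
  rw [h, Fintype.sum_sum_type, Fintype.sum_sum_type, Fintype.sum_prod_type,
    Fintype.sum_prod_type]
  simp only [sz, toC, Equiv.coe_fn_mk, card_filter, decide_eq_true_eq]
  ring

/-- admissible states -/
def LI (s : Finset (Fin 4)) : Prop := 0 ∈ s ∨ (1 ∈ s ∧ 2 ∈ s ∧ 3 ∈ s)
/-- admissible states -/
def LII (s : Finset (Fin 4)) : Prop := (0 ∈ s ∨ 2 ∈ s) ∧ (1 ∈ s ∨ 3 ∈ s)

instance : DecidablePred LI := fun s => by unfold LI; infer_instance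
instance : DecidablePred LII := fun s => by unfold LII; infer_instance

/-- domination of a configuration -/
def Dm {a M : ℕ} (e : Fin M → Fin a × Fin a) (c : C a M) : Prop :=
  (∀ i, LI (c.1 i)) ∧ (∀ j, LII (c.2.1 j)) ∧
    ∀ b, c.2.2 b = true ∨ 0 ∈ c.1 (e b).1 ∨ 0 ∈ c.2.1 (e b).2 ∨ 1 ∈ c.2.1 (e b).2

instance {a M : ℕ} (e : Fin M → Fin a × Fin a) : DecidablePred (Dm e) := fun c => by
  unfold Dm; infer_instance

theorem Dm_toC {a M : ℕ} (e : Fin M → Fin a × Fin a) (S : Finset (V a M)) :
    Dm e (toC a M S) ↔ (∀ v, v ∈ S ∨ ∃ u ∈ S, (G e).Adj v u) := by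
  rw [dom_iff]
  simp [Dm, LI, LII, toC]

/-- number of dominating configurations of size k -/
def dk {a M : ℕ} (e : Fin M → Fin a × Fin a) (k : ℕ) : ℕ :=
  ((univ.filter (Dm e)).filter (fun c => sz c = k)).card

theorem ncard_eq {a M : ℕ} (e : Fin M → Fin a × Fin a) (k : ℕ) :
    {S : Finset (V a M) | S.card = k ∧ ∀ v, v ∈ S ∨ ∃ u ∈ S, (G e).Adj v u}.ncard = dk e k := by
  have : {S : Finset (V a M) | S.card = k ∧ ∀ v, v ∈ S ∨ ∃ u ∈ S, (G e).Adj v u} =
      (toC a M).symm '' (((univ.filter (Dm e)).filter (fun c => sz c = k) : Finset (C a M)) :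
        Set (C a M)) := by
    ext S
    simp only [Set.mem_ofPred_eq, Set.mem_image, coe_filter, mem_filter, mem_univ, true_and]
    constructor
    · rintro ⟨h1, h2⟩
      exact ⟨toC a M S, ⟨(Dm_toC e S).2 h2, by rw [sz_toC]; exact h1⟩, by simp⟩
    · rintro ⟨c, ⟨h1, h2⟩, rfl⟩
      obtain ⟨S, rfl⟩ := (toC a M).surjective c
      rw [Equiv.symm_apply_apply]
      exact ⟨by rw [← h2, sz_toC], (Dm_toC e S).1 h1⟩
  rw [this, Set.ncard_image_of_injective _ (Equiv.injective _), Set.ncard_coe_finset]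
  rfl

end Pool.Agent.H224R3.Dom
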