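import Pool.Agent.H224R3.Dom1

set_option autoImplicit false

namespace Pool.Agent.H224R3.Dom

open Finset Polynomial

/-- moment triple of a generating polynomial -/
structure Mom (P : ℝ[X]) (N m v : ℝ) : Prop where
  h0 : P.eval 1 = N
  h1 : P.derivative.eval 1 = m * N
  h2 : P.derivative.derivative.eval 1 = (v + m ^ 2 - m) * N

theorem Mom.mul {P Q : ℝ[X]} {N m v N' m' v' : ℝ} (hP : Mom P N m v) (hQ : Mom Q N' m' v') :
    Mom (P * Q) (N * N') (m + m') (v + v') := by
  refine ⟨?_, ?_, ?_⟩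
  · rw [eval_mul, hP.h0, hQ.h0]
  · rw [derivative_mul, eval_add, eval_mul, eval_mul, hP.h0, hQ.h0, hP.h1, hQ.h1]
    ring
  · rw [derivative_mul, derivative_add, derivative_mul, derivative_mul, eval_add, eval_add,
      eval_add]
    simp only [eval_mul]
    rw [hP.h0, hQ.h0, hP.h1, hQ.h1, hP.h2, hQ.h2]
    ring

theorem Mom.pow {P : ℝ[X]} {N m v : ℝ} (hP : Mom P N m v) (n : ℕ) :
    Mom (P ^ n) (N ^ n) (n * m) (n * v) := by
  induction n with
  | zero => exact ⟨by simp, by simp, by simp⟩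
  | succ n ih =>
    have := ih.mul hP
    rw [← pow_succ, ← pow_succ] at this
    convert this using 1 <;> push_cast <;> ring

/-- generating polynomial of a size function -/
noncomputable def gp {α : Type*} (A : Finset α) (f : α → ℕ) : ℝ[X] := ∑ x ∈ A, X ^ (f x)

theorem gp_eval0 {α : Type*} (A : Finset α) (f : α → ℕ) : (gp A f).eval 1 = (A.card : ℝ) := by
  simp [gp, eval_finsetSum]

theorem gp_eval1 {α : Type*} (A : Finset α) (f : α → ℕ) :
    (gp A f).derivative.eval 1 = ∑ x ∈ A, (f x : ℝ) := by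
  simp [gp, eval_finsetSum, derivative_sum, derivative_X_pow]

theorem gp_eval2 {α : Type*} (A : Finset α) (f : α → ℕ) :
    (gp A f).derivative.derivative.eval 1 = ∑ x ∈ A, (f x : ℝ) * ((f x : ℝ) - 1) := by
  simp only [gp, eval_finsetSum, derivative_sum]
  apply sum_congr rfl
  intro x _
  rw [derivative_X_pow, derivative_C_mul, derivative_X_pow, eval_mul, eval_mul, eval_C, eval_C,
    eval_pow, eval_X, one_pow, mul_one]
  rcases Nat.eq_zero_or_pos (f x) with h | h
  · rw [h]; simp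
  · rw [Nat.cast_sub h, Nat.cast_one]

theorem gp_mom {α : Type*} {A : Finset α} {f : α → ℕ} {N m v : ℝ} (h0 : (A.card : ℝ) = N)
    (h1 : ∑ x ∈ A, (f x : ℝ) = m * N)
    (h2 : ∑ x ∈ A, (f x : ℝ) * ((f x : ℝ) - 1) = (v + m ^ 2 - m) * N) : Mom (gp A f) N m v :=
  ⟨by rw [gp_eval0, h0], by rw [gp_eval1, h1], by rw [gp_eval2, h2]⟩

theorem gp_var {α : Type*} {A : Finset α} {f : α → ℕ} {N m v : ℝ} (h : Mom (gp A f) N m v) :
    ∑ x ∈ A, ((f x : ℝ) - m) ^ 2 = v * N := by
  have h0 := h.h0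
  have h1 := h.h1
  have h2 := h.h2
  rw [gp_eval0] at h0
  rw [gp_eval1] at h1
  rw [gp_eval2] at h2
  have e : ∑ x ∈ A, ((f x : ℝ) - m) ^ 2 = ∑ x ∈ A, (f x : ℝ) * ((f x : ℝ) - 1) +
      (1 - 2 * m) * ∑ x ∈ A, (f x : ℝ) + m ^ 2 * (A.card : ℝ) := by
    rw [mul_sum, card_eq_sum_ones, Nat.cast_sum, mul_sum, ← sum_add_distrib, ← sum_add_distrib]
    apply sum_congr rfl
    intro x _
    push_cast
    ring
  rw [e, h0, h1, h2]
  ring

theorem cheb {α : Type*} {A : Finset α} {f : α → ℕ} {N m v : ℝ} (h : Mom (gp A f) N m v)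
    (L : ℝ) (hL : 0 < L) :
    N * L ^ 2 - v * N ≤ ((A.filter (fun x => |(f x : ℝ) - m| < L)).card : ℝ) * L ^ 2 := by
  have hv := gp_var h
  have h0 := h.h0
  rw [gp_eval0] at h0
  have e1 : ((A.filter (fun x => |(f x : ℝ) - m| < L)).card : ℝ) +
      ((A.filter (fun x => ¬ |(f x : ℝ) - m| < L)).card : ℝ) = N := by
    rw [← h0]
    exact_mod_cast card_filter_add_card_filter_not (s := A) (fun x => |(f x : ℝ) - m| < L)
  have e2 : ((A.filter (fun x => ¬ |(f x : ℝ) - m| < L)).card : ℝ) * L ^ 2 ≤ v * N := by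
    rw [← hv]
    calc ((A.filter (fun x => ¬ |(f x : ℝ) - m| < L)).card : ℝ) * L ^ 2
        = ∑ x ∈ A.filter (fun x => ¬ |(f x : ℝ) - m| < L), L ^ 2 := by
          rw [sum_const, nsmul_eq_mul]
      _ ≤ ∑ x ∈ A.filter (fun x => ¬ |(f x : ℝ) - m| < L), ((f x : ℝ) - m) ^ 2 := by
          apply sum_le_sum
          intro x hx
          rw [mem_filter] at hx
          have := not_lt.1 hx.2
          rw [← sq_abs ((f x : ℝ) - m)]
          exact pow_le_pow_left₀ hL.le this 2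
      _ ≤ ∑ x ∈ A, ((f x : ℝ) - m) ^ 2 := by
          apply sum_le_sum_of_subset_of_nonneg (filter_subset _ _)
          intro x _ _
          positivity
  nlinarith

theorem gp_pi {α : Type*} [DecidableEq α] (A : Finset α) (f : α → ℕ) (n : ℕ) :
    gp (Fintype.piFinset (fun _ : Fin n => A)) (fun c => ∑ i, f (c i)) = (gp A f) ^ n := by
  have h := Finset.prod_univ_sum (fun _ : Fin n => A) (fun _ x => (X : ℝ[X]) ^ (f x))
  have h1 : ∏ i : Fin n, ∑ x ∈ A, (X : ℝ[X]) ^ (f x) = (gp A f) ^ n := by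
    rw [prod_const, card_univ, Fintype.card_fin]
    rfl
  rw [← h1, h]
  unfold gp
  apply sum_congr rfl
  intro c _
  rw [prod_pow_eq_pow_sum]

theorem gp_prod {α β : Type*} (A : Finset α) (B : Finset β) (f : α → ℕ) (g : β → ℕ) :
    gp (A ×ˢ B) (fun x => f x.1 + g x.2) = gp A f * gp B g := by
  unfold gp
  rw [sum_product, sum_mul_sum]
  simp_rw [pow_add]

/-- the finsets of states -/
def VI : Finset (Finset (Fin 4)) := univ.filter LI
/-- states -/
def VII : Finset (Finset (Fin 4)) := univ.filter LII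
/-- dominating states -/
def VIS : Finset (Finset (Fin 4)) := VI.filter (fun s => 0 ∈ s)
/-- dominating states -/
def VIIS : Finset (Finset (Fin 4)) := VII.filter (fun s => 0 ∈ s ∨ 1 ∈ s)

theorem momI : Mom (gp VI card) 9 (23 / 9) (56 / 81) := by
  apply gp_mom
  · have : VI.card = 9 := by decide
    rw [this]; norm_num
  · have : ∑ x ∈ VI, x.card = 23 := by decide
    rw [← Nat.cast_sum, this]; norm_num
  · have h1 : ∀ x : Finset (Fin 4), (x.card : ℝ) * ((x.card : ℝ) - 1) =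
        (((x.card : ℤ) * ((x.card : ℤ) - 1) : ℤ) : ℝ) := by
      intro x; push_cast; ring
    simp_rw [h1]
    have : ∑ x ∈ VI, ((x.card : ℤ) * ((x.card : ℤ) - 1)) = 42 := by decide
    rw [← Int.cast_sum, this]; norm_num

theorem momII : Mom (gp VII card) 9 (8 / 3) (4 / 9) := by
  apply gp_mom
  · have : VII.card = 9 := by decide
    rw [this]; norm_num
  · have : ∑ x ∈ VII, x.card = 24 := by decide
    rw [← Nat.cast_sum, this]; norm_num
  · have h1 : ∀ x : Finset (Fin 4), (x.card : ℝ) * ((x.card : ℝ) - 1) =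
        (((x.card : ℤ) * ((x.card : ℤ) - 1) : ℤ) : ℝ) := by
      intro x; push_cast; ring
    simp_rw [h1]
    have : ∑ x ∈ VII, ((x.card : ℤ) * ((x.card : ℤ) - 1)) = 44 := by decide
    rw [← Int.cast_sum, this]; norm_num

theorem momIS : Mom (gp VIS card) 8 (5 / 2) (3 / 4) := by
  apply gp_mom
  · have : VIS.card = 8 := by decide
    rw [this]; norm_num
  · have : ∑ x ∈ VIS, x.card = 20 := by decide
    rw [← Nat.cast_sum, this]; norm_num
  · have h1 : ∀ x : Finset (Fin 4), (x.card : ℝ) * ((x.card : ℝ) - 1) =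
        (((x.card : ℤ) * ((x.card : ℤ) - 1) : ℤ) : ℝ) := by
      intro x; push_cast; ring
    simp_rw [h1]
    have : ∑ x ∈ VIS, ((x.card : ℤ) * ((x.card : ℤ) - 1)) = 36 := by decide
    rw [← Int.cast_sum, this]; norm_num

theorem momIIS : Mom (gp VIIS card) 8 (11 / 4) (7 / 16) := by
  apply gp_mom
  · have : VIIS.card = 8 := by decide
    rw [this]; norm_num
  · have : ∑ x ∈ VIIS, x.card = 22 := by decide
    rw [← Nat.cast_sum, this]; norm_num
  · have h1 : ∀ x : Finset (Fin 4), (x.card : ℝ) * ((x.card : ℝ) - 1) =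
        (((x.card : ℤ) * ((x.card : ℤ) - 1) : ℤ) : ℝ) := by
      intro x; push_cast; ring
    simp_rw [h1]
    have : ∑ x ∈ VIIS, ((x.card : ℤ) * ((x.card : ℤ) - 1)) = 42 := by decide
    rw [← Int.cast_sum, this]; norm_num

theorem momB : Mom (gp (univ : Finset Bool) (fun b => if b = true then 1 else 0)) 2 (1 / 2) (1 / 4) := by
  apply gp_mom
  · simp
  · simp
  · simp; norm_num

/-- phase one -/
def D1 (a M : ℕ) : Finset (C a M) :=
  Fintype.piFinset (fun _ : Fin a => VI) ×ˢ (Fintype.piFinset (fun _ : Fin a => VIIS) ×ˢ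
    Fintype.piFinset (fun _ : Fin M => (univ : Finset Bool)))
/-- phase two -/
def D2 (a M : ℕ) : Finset (C a M) :=
  Fintype.piFinset (fun _ : Fin a => VIS) ×ˢ (Fintype.piFinset (fun _ : Fin a => VII) ×ˢ
    Fintype.piFinset (fun _ : Fin M => (univ : Finset Bool)))

theorem mom_gen (a M : ℕ) (A B : Finset (Finset (Fin 4))) {N m v N' m' v' : ℝ}
    (hA : Mom (gp A card) N m v) (hB : Mom (gp B card) N' m' v') :
    Mom (gp (Fintype.piFinset (fun _ : Fin a => A) ×ˢ (Fintype.piFinset (fun _ : Fin a => B) ×ˢ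
      Fintype.piFinset (fun _ : Fin M => (univ : Finset Bool)))) (sz : C a M → ℕ))
      (N ^ a * (N' ^ a * 2 ^ M)) (a * m + (a * m' + M * (1 / 2)))
      (a * v + (a * v' + M * (1 / 4))) := by
  have h1 := (hA.pow a).mul ((hB.pow a).mul (momB.pow M))
  have h2 : gp (Fintype.piFinset (fun _ : Fin a => A) ×ˢ (Fintype.piFinset (fun _ : Fin a => B) ×ˢ
      Fintype.piFinset (fun _ : Fin M => (univ : Finset Bool)))) (sz : C a M → ℕ) =
      gp A card ^ a * (gp B card ^ a *
        gp (univ : Finset Bool) (fun b => if b = true then 1 else 0) ^ M) := by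
    rw [← gp_pi, ← gp_pi, ← gp_pi, ← gp_prod, ← gp_prod]
    congr 1
    funext c
    simp only [sz]
    ring
  rw [h2]
  exact h1

theorem mom1 (a M : ℕ) : Mom (gp (D1 a M) sz) (9 ^ a * (8 ^ a * 2 ^ M))
    (a * (23 / 9) + (a * (11 / 4) + M * (1 / 2))) (a * (56 / 81) + (a * (7 / 16) + M * (1 / 4))) :=
  mom_gen a M VI VIIS momI momIIS

theorem mom2 (a M : ℕ) : Mom (gp (D2 a M) sz) (8 ^ a * (9 ^ a * 2 ^ M))
    (a * (5 / 2) + (a * (8 / 3) + M * (1 / 2))) (a * (3 / 4) + (a * (4 / 9) + M * (1 / 4))) :=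
  mom_gen a M VIS VII momIS momII

theorem D1_sub {a M : ℕ} (e : Fin M → Fin a × Fin a) {c : C a M} (hc : c ∈ D1 a M) : Dm e c := by
  simp only [D1, mem_product, Fintype.mem_piFinset, VI, VIIS, VII, mem_filter, mem_univ,
    true_and, implies_true, and_true] at hc
  refine ⟨hc.1, fun j => (hc.2 j).1, fun b => ?_⟩
  have := (hc.2 (e b).2).2
  tauto

theorem D2_sub {a M : ℕ} (e : Fin M → Fin a × Fin a) {c : C a M} (hc : c ∈ D2 a M) : Dm e c := by
  simp only [D2, mem_product, Fintype.mem_piFinset, VI, VIS, VII, mem_filter, mem_univ,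
    true_and, implies_true, and_true] at hc
  refine ⟨fun i => (hc.1 i).1, hc.2, fun b => ?_⟩
  have := (hc.1 (e b).1).2
  tauto

end Pool.Agent.H224R3.Dom
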