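import Pool.Agent.H224R3.Dom2

set_option autoImplicit false

namespace Pool.Agent.H224R3.Dom

open Finset

/-- non dominating gadgets, first kind -/
def XX {a : ℕ} (c : Fin a → Finset (Fin 4)) : Finset (Fin a) := univ.filter (fun i => 0 ∉ c i)
/-- non dominating gadgets, second kind -/
def YY {a : ℕ} (c : Fin a → Finset (Fin 4)) : Finset (Fin a) :=
  univ.filter (fun j => 0 ∉ c j ∧ 1 ∉ c j)

theorem card_good (a : ℕ) (X Y : Finset (Fin a)) :
    ((univ.filter (fun x : (Fin a × Fin a) × Bool =>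
      x.2 = true ∨ ¬ (x.1.1 ∈ X ∧ x.1.2 ∈ Y))).card : ℝ) = 2 * (a : ℝ) ^ 2 - X.card * Y.card := by
  have h1 := card_filter_add_card_filter_not (s := (univ : Finset ((Fin a × Fin a) × Bool)))
    (fun x : (Fin a × Fin a) × Bool => x.2 = true ∨ ¬ (x.1.1 ∈ X ∧ x.1.2 ∈ Y))
  have h2 : (univ.filter (fun x : (Fin a × Fin a) × Bool =>
      ¬ (x.2 = true ∨ ¬ (x.1.1 ∈ X ∧ x.1.2 ∈ Y)))) = (X ×ˢ Y) ×ˢ {false} := by
    ext ⟨⟨p, q⟩, b⟩
    simp only [mem_filter, mem_univ, true_and, mem_product, mem_singleton]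
    cases b <;> simp
  rw [h2, card_product, card_product, card_singleton, card_univ, Fintype.card_prod,
    Fintype.card_prod, Fintype.card_fin, Fintype.card_bool] at h1
  have h3 : (((univ.filter (fun x : (Fin a × Fin a) × Bool =>
      x.2 = true ∨ ¬ (x.1.1 ∈ X ∧ x.1.2 ∈ Y))).card + X.card * Y.card * 1 : ℕ) : ℝ) =
      ((a * a * 2 : ℕ) : ℝ) := by rw [h1]
  push_cast at h3
  linarith

theorem card_pairs (a M : ℕ) (X Y : Finset (Fin a)) :
    ((univ.filter (fun g : (Fin M → Fin a × Fin a) × (Fin M → Bool) =>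
      ∀ b, g.2 b = true ∨ ¬ ((g.1 b).1 ∈ X ∧ (g.1 b).2 ∈ Y))).card : ℝ) =
      (2 * (a : ℝ) ^ 2 - X.card * Y.card) ^ M := by
  rw [← card_good, ← Nat.cast_pow]
  congr 1
  have : (univ.filter (fun x : (Fin a × Fin a) × Bool =>
      x.2 = true ∨ ¬ (x.1.1 ∈ X ∧ x.1.2 ∈ Y))).card ^ M =
      (Fintype.piFinset (fun _ : Fin M => univ.filter (fun x : (Fin a × Fin a) × Bool =>
      x.2 = true ∨ ¬ (x.1.1 ∈ X ∧ x.1.2 ∈ Y)))).card := by
    rw [Fintype.card_piFinset, prod_const, card_univ, Fintype.card_fin]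
  rw [this]
  refine card_bij' (fun g _ => fun b => (g.1 b, g.2 b))
    (fun h _ => (fun b => (h b).1, fun b => (h b).2)) ?_ ?_ (fun _ _ => rfl) (fun _ _ => rfl)
  · intro g hg
    simp only [mem_filter, mem_univ, true_and] at hg
    simp only [Fintype.mem_piFinset, mem_filter, mem_univ, true_and]
    exact hg
  · intro h hh
    simp only [Fintype.mem_piFinset, mem_filter, mem_univ, true_and] at hh
    simp only [mem_filter, mem_univ, true_and]
    exact hh

theorem sum_card (a M : ℕ) :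
    ∑ e : Fin M → Fin a × Fin a, ((univ.filter (Dm e)).card : ℝ) =
    ∑ c1 ∈ Fintype.piFinset (fun _ : Fin a => VI), ∑ c2 ∈ Fintype.piFinset (fun _ : Fin a => VII),
      (2 * (a : ℝ) ^ 2 - (XX c1).card * (YY c2).card) ^ M := by
  have h1 : ∀ e : Fin M → Fin a × Fin a, ((univ.filter (Dm e)).card : ℝ) =
      ∑ c1 ∈ Fintype.piFinset (fun _ : Fin a => VI),
        ∑ c2 ∈ Fintype.piFinset (fun _ : Fin a => VII),
        ∑ c3 : Fin M → Bool,
          if (∀ b, c3 b = true ∨ ¬ ((e b).1 ∈ XX c1 ∧ (e b).2 ∈ YY c2)) then (1 : ℝ) else 0 := by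
    intro e
    have : univ.filter (Dm e) = (Fintype.piFinset (fun _ : Fin a => VI) ×ˢ
        (Fintype.piFinset (fun _ : Fin a => VII) ×ˢ (univ : Finset (Fin M → Bool)))).filter
        (fun c => ∀ b, c.2.2 b = true ∨ ¬ ((e b).1 ∈ XX c.1 ∧ (e b).2 ∈ YY c.2.1)) := by
      ext ⟨c1, c2, c3⟩
      simp only [mem_filter, mem_univ, true_and, mem_product, Fintype.mem_piFinset, VI, VII, XX, YY,
        Dm, and_true]
      constructor
      · rintro ⟨h1, h2, h3⟩
        refine ⟨⟨h1, h2⟩, fun b => ?_⟩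
        have := h3 b
        tauto
      · rintro ⟨⟨h1, h2⟩, h3⟩
        refine ⟨h1, h2, fun b => ?_⟩
        have := h3 b
        tauto
    rw [this, card_filter, Nat.cast_sum, sum_product]
    apply sum_congr rfl
    intro c1 _
    rw [sum_product]
    apply sum_congr rfl
    intro c2 _
    apply sum_congr rfl
    intro c3 _
    simp
  simp_rw [h1]
  rw [sum_comm]
  apply sum_congr rfl
  intro c1 _
  rw [sum_comm]
  apply sum_congr rfl
  intro c2 _
  rw [← card_pairs, card_filter, Nat.cast_sum, Fintype.sum_prod_type]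
  apply sum_congr rfl
  intro e _
  apply sum_congr rfl
  intro c3 _
  simp

theorem sum_XX (a : ℕ) (r : ℝ) :
    ∑ c1 ∈ Fintype.piFinset (fun _ : Fin a => VI), r ^ (XX c1).card = (8 + r) ^ a := by
  have h := Finset.prod_univ_sum (fun _ : Fin a => VI) (fun _ s => if (0 : Fin 4) ∉ s then r else 1)
  have h1 : ∑ s ∈ VI, (if (0 : Fin 4) ∉ s then r else 1) = 8 + r := by
    rw [sum_ite, sum_const, sum_const]
    have e1 : (VI.filter (fun s => (0 : Fin 4) ∉ s)).card = 1 := by decide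
    have e2 : (VI.filter (fun s => ¬ (0 : Fin 4) ∉ s)).card = 8 := by decide
    rw [e1, e2]
    simp; ring
  rw [h1, prod_const, card_univ, Fintype.card_fin] at h
  rw [h]
  apply sum_congr rfl
  intro c _
  rw [prod_ite, prod_const, prod_const, one_pow, mul_one]
  rfl

theorem sum_YY (a : ℕ) (r : ℝ) :
    ∑ c1 ∈ Fintype.piFinset (fun _ : Fin a => VII), r ^ (YY c1).card = (8 + r) ^ a := by
  have h := Finset.prod_univ_sum (fun _ : Fin a => VII)
    (fun _ s => if ((0 : Fin 4) ∉ s ∧ (1 : Fin 4) ∉ s) then r else 1)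
  have h1 : ∑ s ∈ VII, (if ((0 : Fin 4) ∉ s ∧ (1 : Fin 4) ∉ s) then r else 1) = 8 + r := by
    rw [sum_ite, sum_const, sum_const]
    have e1 : (VII.filter (fun s => ((0 : Fin 4) ∉ s ∧ (1 : Fin 4) ∉ s))).card = 1 := by decide
    have e2 : (VII.filter (fun s => ¬ ((0 : Fin 4) ∉ s ∧ (1 : Fin 4) ∉ s))).card = 8 := by decide
    rw [e1, e2]
    simp; ring
  rw [h1, prod_const, card_univ, Fintype.card_fin] at h
  rw [h]
  apply sum_congr rfl
  intro c _
  rw [prod_ite, prod_const, prod_const, one_pow, mul_one]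
  rfl

theorem pointwise (κ : ℝ) (hκ : 0 ≤ κ) (t x y : ℕ) :
    Real.exp (-(κ * x * y)) ≤ Real.exp (-(κ * t)) ^ y + Real.exp (-(κ * t)) ^ x +
      (1 / 4) ^ x * (1 / 4) ^ y * 16 ^ t := by
  have p1 : 0 ≤ Real.exp (-(κ * t)) ^ y := by positivity
  have p2 : 0 ≤ Real.exp (-(κ * t)) ^ x := by positivity
  have p3 : (0 : ℝ) ≤ (1 / 4) ^ x * (1 / 4) ^ y * 16 ^ t := by positivity
  rcases Nat.lt_or_ge x t with hx | hx
  · rcases Nat.lt_or_ge y t with hy | hy
    · have h1 : Real.exp (-(κ * x * y)) ≤ 1 := by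
        rw [Real.exp_le_one_iff]
        have : 0 ≤ κ * x * y := by positivity
        linarith
      have h2 : (1 : ℝ) ≤ (1 / 4) ^ x * (1 / 4) ^ y * 16 ^ t := by
        have e1 : (1 / 4 : ℝ) ^ t ≤ (1 / 4) ^ x :=
          pow_le_pow_of_le_one (by norm_num) (by norm_num) hx.le
        have e2 : (1 / 4 : ℝ) ^ t ≤ (1 / 4) ^ y :=
          pow_le_pow_of_le_one (by norm_num) (by norm_num) hy.le
        calc (1 : ℝ) = (1 / 4) ^ t * (1 / 4) ^ t * 16 ^ t := by
              rw [← mul_pow, ← mul_pow]; norm_num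
          _ ≤ _ := by gcongr
      linarith
    · have h1 : Real.exp (-(κ * x * y)) ≤ Real.exp (-(κ * t)) ^ x := by
        rw [← Real.exp_nat_mul]
        apply Real.exp_le_exp.2
        have : (t : ℝ) ≤ y := by exact_mod_cast hy
        have h2 : κ * x * t ≤ κ * x * y := by gcongr
        linarith
      linarith
  · have h1 : Real.exp (-(κ * x * y)) ≤ Real.exp (-(κ * t)) ^ y := by
      rw [← Real.exp_nat_mul]
      apply Real.exp_le_exp.2
      have : (t : ℝ) ≤ x := by exact_mod_cast hx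
      have h2 : κ * t * y ≤ κ * x * y := by gcongr
      linarith
    linarith

theorem exists_e (a M t : ℕ) (ha : 0 < a) :
    ∃ e : Fin M → Fin a × Fin a, ((univ.filter (Dm e)).card : ℝ) ≤
      2 ^ M * (2 * (9 ^ a * (8 + Real.exp (-(M / (2 * (a : ℝ) ^ 2) * t))) ^ a) +
        (8 + 1 / 4) ^ a * (8 + 1 / 4) ^ a * 16 ^ t) := by
  set κ : ℝ := M / (2 * (a : ℝ) ^ 2) with hκ
  set r : ℝ := Real.exp (-(κ * t)) with hr
  have haR : (0 : ℝ) < a := by exact_mod_cast ha
  have hκ0 : 0 ≤ κ := by positivity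
  by_contra hcon
  push Not at hcon
  set T : ℝ := 2 ^ M * (2 * (9 ^ a * (8 + r) ^ a) + (8 + 1 / 4) ^ a * (8 + 1 / 4) ^ a * 16 ^ t)
    with hT
  have hcard : (univ : Finset (Fin M → Fin a × Fin a)).card = (a * a) ^ M := by
    rw [card_univ, Fintype.card_fun, Fintype.card_prod, Fintype.card_fin, Fintype.card_fin]
  have hne : (univ : Finset (Fin M → Fin a × Fin a)).Nonempty := by
    rw [← card_pos, hcard]; positivity
  have h1 : ((a * a) ^ M : ℝ) * T < ∑ e : Fin M → Fin a × Fin a, ((univ.filter (Dm e)).card : ℝ) := by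
    calc ((a * a) ^ M : ℝ) * T = ∑ e : Fin M → Fin a × Fin a, T := by
          rw [sum_const, hcard, nsmul_eq_mul]; push_cast; ring
      _ < _ := sum_lt_sum_of_nonempty hne (fun e _ => hcon e)
  rw [sum_card] at h1
  have h2 : ∀ c1 ∈ Fintype.piFinset (fun _ : Fin a => VI),
      ∀ c2 ∈ Fintype.piFinset (fun _ : Fin a => VII),
      (2 * (a : ℝ) ^ 2 - (XX c1).card * (YY c2).card) ^ M ≤ (2 * (a : ℝ) ^ 2) ^ M *
        (r ^ (YY c2).card + r ^ (XX c1).card +
          (1 / 4) ^ (XX c1).card * (1 / 4) ^ (YY c2).card * 16 ^ t) := by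
    intro c1 _ c2 _
    set x := (XX c1).card with hx
    set y := (YY c2).card with hy
    have hxa : x ≤ a := by
      rw [hx]; refine (card_le_univ _).trans ?_; rw [Fintype.card_fin]
    have hya : y ≤ a := by
      rw [hy]; refine (card_le_univ _).trans ?_; rw [Fintype.card_fin]
    have e1 : 2 * (a : ℝ) ^ 2 - x * y = 2 * (a : ℝ) ^ 2 * (1 - x * y / (2 * (a : ℝ) ^ 2)) := by
      field_simp
    have e2 : (0 : ℝ) ≤ 1 - x * y / (2 * (a : ℝ) ^ 2) := by
      rw [sub_nonneg, div_le_one (by positivity)]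
      have : (x : ℝ) * y ≤ a * a := by
        have h1 : (x : ℝ) ≤ a := by exact_mod_cast hxa
        have h2 : (y : ℝ) ≤ a := by exact_mod_cast hya
        gcongr
      nlinarith
    have e3 : (1 - x * y / (2 * (a : ℝ) ^ 2)) ^ M ≤ Real.exp (-(κ * x * y)) := by
      calc (1 - x * y / (2 * (a : ℝ) ^ 2)) ^ M ≤
          (Real.exp (-(x * y / (2 * (a : ℝ) ^ 2)))) ^ M := by
            apply pow_le_pow_left₀ e2
            exact Real.one_sub_le_exp_neg _
        _ = Real.exp (-(κ * x * y)) := by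
            rw [← Real.exp_nat_mul]
            congr 1
            rw [hκ]; ring
    rw [e1, mul_pow]
    exact mul_le_mul_of_nonneg_left (e3.trans (pointwise κ hκ0 t x y)) (by positivity)
  have h3 : ∑ c1 ∈ Fintype.piFinset (fun _ : Fin a => VI),
      ∑ c2 ∈ Fintype.piFinset (fun _ : Fin a => VII),
      (2 * (a : ℝ) ^ 2 - (XX c1).card * (YY c2).card) ^ M ≤ (2 * (a : ℝ) ^ 2) ^ M *
      (2 * (9 ^ a * (8 + r) ^ a) + (8 + 1 / 4) ^ a * (8 + 1 / 4) ^ a * 16 ^ t) := by
    refine (sum_le_sum (fun c1 h1 => sum_le_sum (fun c2 h2' => h2 c1 h1 c2 h2'))).trans ?_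
    apply le_of_eq
    simp_rw [← mul_sum, sum_add_distrib]
    congr 1
    have f1 : ∑ c1 ∈ Fintype.piFinset (fun _ : Fin a => VI),
        ∑ c2 ∈ Fintype.piFinset (fun _ : Fin a => VII), r ^ (YY c2).card = 9 ^ a * (8 + r) ^ a := by
      rw [sum_YY, sum_const, Fintype.card_piFinset, prod_const, card_univ, Fintype.card_fin]
      have : VI.card = 9 := by decide
      rw [this, nsmul_eq_mul]; push_cast; ring
    have f2 : ∑ c1 ∈ Fintype.piFinset (fun _ : Fin a => VI),
        ∑ c2 ∈ Fintype.piFinset (fun _ : Fin a => VII), r ^ (XX c1).card = 9 ^ a * (8 + r) ^ a := by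
      simp_rw [sum_const]
      rw [← smul_sum, sum_XX, Fintype.card_piFinset, prod_const, card_univ, Fintype.card_fin]
      have : VII.card = 9 := by decide
      rw [this, nsmul_eq_mul]; push_cast; ring
    have f3 : ∑ c1 ∈ Fintype.piFinset (fun _ : Fin a => VI),
        ∑ c2 ∈ Fintype.piFinset (fun _ : Fin a => VII),
          ((1 / 4 : ℝ) ^ (XX c1).card * (1 / 4) ^ (YY c2).card * 16 ^ t) =
          (8 + 1 / 4) ^ a * (8 + 1 / 4) ^ a * 16 ^ t := by
      calc _ = (∑ c1 ∈ Fintype.piFinset (fun _ : Fin a => VI), (1 / 4 : ℝ) ^ (XX c1).card) *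
            (∑ c2 ∈ Fintype.piFinset (fun _ : Fin a => VII), (1 / 4 : ℝ) ^ (YY c2).card) *
              16 ^ t := by
            rw [sum_mul_sum, sum_mul]
            simp_rw [sum_mul]
        _ = _ := by rw [sum_XX, sum_YY]
    rw [f1, f2, f3]
    ring
  have h4 : (2 * (a : ℝ) ^ 2) ^ M *
      (2 * (9 ^ a * (8 + r) ^ a) + (8 + 1 / 4) ^ a * (8 + 1 / 4) ^ a * 16 ^ t) =
      ((a * a) ^ M : ℝ) * T := by
    rw [hT, mul_pow, ← sq]; ring
  linarith

end Pool.Agent.H224R3.Dom
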