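import Pool.Agent.H224R3.Dom3

set_option autoImplicit false

namespace Pool.Agent.H224R3.Dom

open Finset

theorem bimodal (f : ℕ → ℕ) (p2 p1 w : ℕ) (B T : ℝ) (hsep : p2 + 5 * w ≤ p1)
    (h2 : B ≤ ∑ k ∈ Ico p2 (p2 + w), (f k : ℝ)) (h1 : B ≤ ∑ k ∈ Ico p1 (p1 + w), (f k : ℝ))
    (htot : ∑ k ∈ Ico p2 (p1 + w), (f k : ℝ) ≤ T) (hBT : T < 4 * B) :
    ¬ ∃ k : ℕ, (∀ i j : ℕ, i ≤ j → j ≤ k → f i ≤ f j) ∧ (∀ i j : ℕ, k ≤ i → i ≤ j → f j ≤ f i) := by
  rintro ⟨k0, hinc, hdec⟩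
  have shift : ∀ p c : ℕ, ∑ k ∈ Ico (p + c) (p + w + c), (f k : ℝ) =
      ∑ k ∈ Ico p (p + w), (f (k + c) : ℝ) := by
    intro p c
    rw [sum_Ico_add' (fun k => (f k : ℝ)) p (p + w) c]
  have nonneg : ∀ p q : ℕ, 0 ≤ ∑ k ∈ Ico p q, (f k : ℝ) := fun p q =>
    sum_nonneg (fun _ _ => Nat.cast_nonneg _)
  rcases Nat.lt_or_ge k0 (p2 + 3 * w) with hk | hk
  · -- decreasing on the right part
    have e0 : p1 - 2 * w + 2 * w = p1 := by omega
    have s1 : ∑ k ∈ Ico (p1 - 2 * w) (p1 - 2 * w + w), (f k : ℝ) ≥ B := by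
      refine h1.trans ?_
      have := shift (p1 - 2 * w) (2 * w)
      rw [e0, show p1 - 2 * w + w + 2 * w = p1 + w by omega] at this
      rw [this]
      apply sum_le_sum
      intro k hk'
      rw [mem_Ico] at hk'
      exact_mod_cast hdec k (k + 2 * w) (by omega) (by omega)
    have s2 : ∑ k ∈ Ico (p1 - 2 * w + w) (p1 - 2 * w + w + w), (f k : ℝ) ≥ B := by
      refine h1.trans ?_
      have := shift (p1 - 2 * w + w) w
      rw [show p1 - 2 * w + w + w = p1 by omega] at this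
      rw [this, show p1 - 2 * w + w + w = p1 by omega]
      apply sum_le_sum
      intro k hk'
      rw [mem_Ico] at hk'
      exact_mod_cast hdec k (k + w) (by omega) (by omega)
    have c1 := sum_Ico_consecutive (fun k => (f k : ℝ)) (show p2 ≤ p2 + w by omega)
      (show p2 + w ≤ p1 + w by omega)
    have c2 := sum_Ico_consecutive (fun k => (f k : ℝ)) (show p2 + w ≤ p1 - 2 * w by omega)
      (show p1 - 2 * w ≤ p1 + w by omega)
    have c3 := sum_Ico_consecutive (fun k => (f k : ℝ)) (show p1 - 2 * w ≤ p1 - 2 * w + w by omega)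
      (show p1 - 2 * w + w ≤ p1 + w by omega)
    have c4 := sum_Ico_consecutive (fun k => (f k : ℝ))
      (show p1 - 2 * w + w ≤ p1 - 2 * w + w + w by omega)
      (show p1 - 2 * w + w + w ≤ p1 + w by omega)
    rw [show p1 - 2 * w + w + w = p1 by omega] at c4 s2
    have n1 := nonneg (p2 + w) (p1 - 2 * w)
    linarith
  · have s1 : ∑ k ∈ Ico (p2 + w) (p2 + w + w), (f k : ℝ) ≥ B := by
      refine h2.trans ?_
      rw [shift p2 w]
      apply sum_le_sum
      intro k hk'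
      rw [mem_Ico] at hk'
      exact_mod_cast hinc k (k + w) (by omega) (by omega)
    have s2 : ∑ k ∈ Ico (p2 + w + w) (p2 + w + w + w), (f k : ℝ) ≥ B := by
      refine h2.trans ?_
      have := shift p2 (w + w)
      rw [show p2 + (w + w) = p2 + w + w by omega,
        show p2 + w + (w + w) = p2 + w + w + w by omega] at this
      rw [this]
      apply sum_le_sum
      intro k hk'
      rw [mem_Ico] at hk'
      exact_mod_cast hinc k (k + (w + w)) (by omega) (by omega)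
    have c1 := sum_Ico_consecutive (fun k => (f k : ℝ)) (show p2 ≤ p2 + w by omega)
      (show p2 + w ≤ p1 + w by omega)
    have c2 := sum_Ico_consecutive (fun k => (f k : ℝ)) (show p2 + w ≤ p2 + w + w by omega)
      (show p2 + w + w ≤ p1 + w by omega)
    have c3 := sum_Ico_consecutive (fun k => (f k : ℝ)) (show p2 + w + w ≤ p2 + w + w + w by omega)
      (show p2 + w + w + w ≤ p1 + w by omega)
    have c4 := sum_Ico_consecutive (fun k => (f k : ℝ))
      (show p2 + w + w + w ≤ p1 by omega)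
      (show p1 ≤ p1 + w by omega)
    have n1 := nonneg (p2 + w + w + w) p1
    linarith

theorem sum_dk {a M : ℕ} (e : Fin M → Fin a × Fin a) (p q : ℕ) :
    ∑ k ∈ Ico p q, (dk e k : ℝ) =
      (((univ.filter (Dm e)).filter (fun c => sz c ∈ Ico p q)).card : ℝ) := by
  rw [← Nat.cast_sum]
  congr 1
  unfold dk
  rw [← card_biUnion]
  · congr 1
    ext c
    simp only [mem_biUnion, mem_filter, mem_univ, true_and]
    constructor
    · rintro ⟨k, hk, h1, h2⟩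
      exact ⟨h1, h2 ▸ hk⟩
    · rintro ⟨h1, h2⟩
      exact ⟨sz c, h2, h1, rfl⟩
  · intro k _ k' _ hkk
    rw [Function.onFun, disjoint_left]
    intro c hc hc'
    rw [mem_filter] at hc hc'
    exact hkk (hc.2.symm.trans hc'.2)

theorem window {a M : ℕ} (e : Fin M → Fin a × Fin a) (D : Finset (C a M))
    (hD : ∀ c ∈ D, Dm e c) {N m v : ℝ} (hmom : Mom (gp D sz) N m v) (hN : 0 ≤ N)
    (p L : ℕ) (hL : 0 < L) (hp : (p : ℝ) + L = m) (hv : v * 4 ≤ (L : ℝ) ^ 2) :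
    3 / 4 * N ≤ ∑ k ∈ Ico p (p + 2 * L), (dk e k : ℝ) := by
  have hLR : (0 : ℝ) < L := by exact_mod_cast hL
  have hch := cheb hmom L hLR
  rw [sum_dk]
  have hsub : ((D.filter (fun x => |((sz x : ℕ) : ℝ) - m| < L)).card : ℝ) ≤
      (((univ.filter (Dm e)).filter (fun c => sz c ∈ Ico p (p + 2 * L))).card : ℝ) := by
    have : (D.filter (fun x => |((sz x : ℕ) : ℝ) - m| < L)) ⊆
        ((univ.filter (Dm e)).filter (fun c => sz c ∈ Ico p (p + 2 * L))) := by
      intro c hc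
      rw [mem_filter] at hc
      rw [mem_filter, mem_filter]
      refine ⟨⟨mem_univ _, hD c hc.1⟩, ?_⟩
      rw [mem_Ico]
      have habs := abs_lt.1 hc.2
      constructor
      · have : (p : ℝ) < sz c := by linarith [habs.1]
        have : p < sz c := by exact_mod_cast this
        omega
      · have : (sz c : ℝ) < ((p + 2 * L : ℕ) : ℝ) := by push_cast; linarith [habs.2]
        exact_mod_cast this
    exact_mod_cast card_le_card this
  refine le_trans ?_ hsub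
  have h2 : 3 / 4 * N * (L : ℝ) ^ 2 ≤
      ((D.filter (fun x => |((sz x : ℕ) : ℝ) - m| < L)).card : ℝ) * (L : ℝ) ^ 2 := by
    refine le_trans ?_ hch
    nlinarith
  exact le_of_mul_le_mul_right h2 (by positivity)

theorem total_bound (a M t : ℕ) (hat : a = 100 * t) (ht : 2 ≤ t) (r : ℝ) (hr0 : 0 ≤ r)
    (hr : r * a ≤ 1 / 25) :
    2 ^ M * (2 * (9 ^ a * (8 + r) ^ a) + (8 + 1 / 4) ^ a * (8 + 1 / 4) ^ a * 16 ^ t) ≤
      (21 / 10) * ((9 : ℝ) ^ a * (8 ^ a * 2 ^ M)) := by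
  have h1 : (8 + r) ^ a ≤ (101 / 100) * 8 ^ a := by
    have e1 : (8 + r) ^ a = 8 ^ a * (1 + r / 8) ^ a := by
      rw [← mul_pow]; congr 1; ring
    have e2 : (1 + r / 8) ^ a ≤ 101 / 100 := by
      have f1 : (1 + r / 8) ^ a ≤ Real.exp (a * (r / 8)) := by
        rw [Real.exp_nat_mul]
        apply pow_le_pow_left₀ (by positivity)
        have := Real.add_one_le_exp (r / 8)
        linarith
      have f2 : (a : ℝ) * (r / 8) ≤ 1 / 200 := by nlinarith
      have f3 : Real.exp (a * (r / 8)) ≤ Real.exp (1 / 200) := Real.exp_le_exp.2 f2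
      have f4 : Real.exp (1 / 200 : ℝ) ≤ 101 / 100 := by
        have g1 := Real.add_one_le_exp (-(1 / 200) : ℝ)
        have g2 : Real.exp (1 / 200 : ℝ) * Real.exp (-(1 / 200) : ℝ) = 1 := by
          rw [← Real.exp_add]; simp
        have g3 := Real.exp_pos (1 / 200 : ℝ)
        nlinarith
      linarith
    rw [e1]
    nlinarith [show (0 : ℝ) < 8 ^ a by positivity]
  have h2 : (8 + 1 / 4 : ℝ) ^ a * (8 + 1 / 4) ^ a * 16 ^ t ≤ (1 / 100) * (9 ^ a * 8 ^ a) := by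
    have e0 : (8 + 1 / 4 : ℝ) = 33 / 4 := by norm_num
    have e1 : (8 + 1 / 4 : ℝ) ^ a * (8 + 1 / 4) ^ a * 16 ^ t = ((33 / 4) ^ 200 * 16) ^ t := by
      calc (8 + 1 / 4 : ℝ) ^ a * (8 + 1 / 4) ^ a * 16 ^ t = (33 / 4) ^ (200 * t) * 16 ^ t := by
            rw [← pow_add, hat, e0, show 100 * t + 100 * t = 200 * t by ring]
        _ = ((33 / 4) ^ 200) ^ t * 16 ^ t := by rw [pow_mul]
        _ = _ := (mul_pow _ _ _).symm
    have e2 : ((9 : ℝ) ^ a * 8 ^ a) = (72 ^ 100) ^ t := by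
      rw [← mul_pow, hat, pow_mul, show (9 : ℝ) * 8 = 72 by norm_num]
    have e3 : ((33 / 4 : ℝ) ^ 200 * 16) ≤ (1 / 10) * 72 ^ 100 := by norm_num
    rw [e1, e2]
    calc ((33 / 4 : ℝ) ^ 200 * 16) ^ t ≤ ((1 / 10) * 72 ^ 100) ^ t :=
          pow_le_pow_left₀ (by positivity) e3 t
      _ = (1 / 10) ^ t * (72 ^ 100) ^ t := mul_pow _ _ _
      _ ≤ (1 / 100) * (72 ^ 100) ^ t := by
          apply mul_le_mul_of_nonneg_right _ (by positivity)
          calc (1 / 10 : ℝ) ^ t ≤ (1 / 10) ^ 2 :=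
                pow_le_pow_of_le_one (by norm_num) (by norm_num) ht
            _ = 1 / 100 := by norm_num
  have p9 : (0 : ℝ) < 9 ^ a := by positivity
  have p2 : (0 : ℝ) < 2 ^ M := by positivity
  have p8 : (0 : ℝ) < 8 ^ a := by positivity
  have h3 : 2 * ((9 : ℝ) ^ a * (8 + r) ^ a) + (8 + 1 / 4) ^ a * (8 + 1 / 4) ^ a * 16 ^ t ≤
      (21 / 10) * (9 ^ a * 8 ^ a) := by
    have : (9 : ℝ) ^ a * (8 + r) ^ a ≤ 9 ^ a * ((101 / 100) * 8 ^ a) :=
      mul_le_mul_of_nonneg_left h1 p9.le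
    nlinarith [mul_pos p9 p8]
  calc (2 : ℝ) ^ M * (2 * (9 ^ a * (8 + r) ^ a) + (8 + 1 / 4) ^ a * (8 + 1 / 4) ^ a * 16 ^ t)
      ≤ 2 ^ M * ((21 / 10) * (9 ^ a * 8 ^ a)) := mul_le_mul_of_nonneg_left h3 p2.le
    _ = _ := by ring

theorem main_gen (s t M' L : ℕ) (h36 : 36 * s = 100 * t) (ht : 2 ≤ t) (hL : 0 < L)
    (hLs : 2 * L ≤ s) (hr : 100 ≤ ((2 * M' : ℕ) : ℝ) / (2 * ((36 * s : ℕ) : ℝ) ^ 2) * t)
    (hs : ((36 * s : ℕ) : ℝ) ≤ 2 ^ 90)
    (hv : ((72 * s : ℝ) + M' / 2) * 4 ≤ (L : ℝ) ^ 2) :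
    ∃ e : Fin (2 * M') → Fin (36 * s) × Fin (36 * s),
      ¬ ∃ k : ℕ, (∀ i j : ℕ, i ≤ j → j ≤ k → dk e i ≤ dk e j) ∧
        (∀ i j : ℕ, k ≤ i → i ≤ j → dk e j ≤ dk e i) := by
  obtain ⟨e, he⟩ := exists_e (36 * s) (2 * M') t (by omega)
  refine ⟨e, ?_⟩
  set Z : ℝ := 9 ^ (36 * s) * (8 ^ (36 * s) * 2 ^ (2 * M')) with hZ
  have hZ0 : 0 < Z := by positivity
  have hr' : Real.exp (-(((2 * M' : ℕ) : ℝ) / (2 * ((36 * s : ℕ) : ℝ) ^ 2) * t)) ≤ (1 / 2) ^ 100 := by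
    calc Real.exp (-(((2 * M' : ℕ) : ℝ) / (2 * ((36 * s : ℕ) : ℝ) ^ 2) * t)) ≤ Real.exp (-100) :=
          Real.exp_le_exp.2 (by linarith)
      _ = Real.exp (-1) ^ 100 := by rw [← Real.exp_nat_mul]; norm_num
      _ ≤ (1 / 2) ^ 100 := by
          apply pow_le_pow_left₀ (Real.exp_pos _).le
          rw [Real.exp_neg, one_div]
          apply inv_anti₀ (by norm_num)
          have := Real.add_one_le_exp (1 : ℝ)
          linarith
  have htb := total_bound (36 * s) (2 * M') t h36 ht _ (Real.exp_pos _).le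
    (show Real.exp (-(((2 * M' : ℕ) : ℝ) / (2 * ((36 * s : ℕ) : ℝ) ^ 2) * t)) *
      ((36 * s : ℕ) : ℝ) ≤ 1 / 25 by
      calc _ ≤ ((1 / 2 : ℝ) ^ 100) * 2 ^ 90 := by gcongr
        _ ≤ 1 / 25 := by norm_num)
  have hT : ((univ.filter (Dm e)).card : ℝ) ≤ (21 / 10) * Z := he.trans htb
  have w1 := window e (D1 (36 * s) (2 * M')) (fun c hc => D1_sub e hc) (mom1 (36 * s) (2 * M'))
    (by positivity) (191 * s + M' - L) L hL
    (by
      rw [Nat.cast_sub (by omega)]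
      push_cast
      ring)
    (by
      refine le_trans ?_ hv
      push_cast
      have : (0 : ℝ) ≤ s := Nat.cast_nonneg _
      linarith)
  have w2 := window e (D2 (36 * s) (2 * M')) (fun c hc => D2_sub e hc) (mom2 (36 * s) (2 * M'))
    (by positivity) (186 * s + M' - L) L hL
    (by
      rw [Nat.cast_sub (by omega)]
      push_cast
      ring)
    (by
      refine le_trans ?_ hv
      push_cast
      have : (0 : ℝ) ≤ s := Nat.cast_nonneg _
      linarith)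
  have hZ2 : (8 : ℝ) ^ (36 * s) * (9 ^ (36 * s) * 2 ^ (2 * M')) = Z := by rw [hZ]; ring
  rw [hZ2] at w2
  apply bimodal (dk e) (186 * s + M' - L) (191 * s + M' - L) (2 * L) (3 / 4 * Z) (21 / 10 * Z)
    (by omega) w2 w1
  · rw [sum_dk]
    refine le_trans ?_ hT
    exact_mod_cast card_le_card (filter_subset _ _)
  · linarith

theorem main : ∃ (a M : ℕ) (e : Fin M → Fin a × Fin a),
      ¬ ∃ k : ℕ, (∀ i j : ℕ, i ≤ j → j ≤ k → dk e i ≤ dk e j) ∧
        (∀ i j : ℕ, k ≤ i → i ≤ j → dk e j ≤ dk e i) := by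
  obtain ⟨e, he⟩ := main_gen (10 ^ 7) (36 * 10 ^ 5) (5 * 10 ^ 12) (4 * 10 ^ 6)
    (by norm_num) (by norm_num) (by norm_num) (by norm_num) (by push_cast; norm_num)
    (by push_cast; norm_num) (by push_cast; norm_num)
  exact ⟨_, _, e, he⟩

end Pool.Agent.H224R3.Dom
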