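import Mathlib

set_option autoImplicit false

namespace Pool.Agent.H224R3.Fu

open PowerSeries

/-- Catalan series over `ℚ`. -/
noncomputable def cat : ℚ⟦X⟧ := catalanSeries.map (Nat.castRingHom ℚ)

theorem cat_eq : cat ^ 2 * X + 1 = cat := by
  have h := congrArg (PowerSeries.map (Nat.castRingHom ℚ)) catalanSeries_sq_mul_X_add_one
  rw [map_add, map_mul, map_pow, map_X, map_one] at h
  exact h

/-- The square root of `1 - 4 X`. -/
noncomputable def sq : ℚ⟦X⟧ := 1 - 2 * X * cat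

theorem sq_sq : sq ^ 2 = 1 - 4 * X := by
  have h := cat_eq
  unfold sq
  linear_combination (4 * X) * h

/-- The series `Y` with `Y = X (1 + Y) ^ 2`. -/
noncomputable def yy : ℚ⟦X⟧ := cat - 1

theorem yy_eq : yy = X * (1 + yy) ^ 2 := by
  have h := cat_eq
  unfold yy
  linear_combination -h

/-- Power series in `ℚ(X, √(1 - 4X))`. -/
def IsRat (F : ℚ⟦X⟧) : Prop :=
  ∃ Q P₀ P₁ : Polynomial ℚ, Q ≠ 0 ∧ (Q : ℚ⟦X⟧) * F = (P₀ : ℚ⟦X⟧) + (P₁ : ℚ⟦X⟧) * sq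

theorem isRat_poly (P : Polynomial ℚ) : IsRat (P : ℚ⟦X⟧) :=
  ⟨1, P, 0, one_ne_zero, by simp⟩

theorem isRat_zero : IsRat 0 := ⟨1, 0, 0, one_ne_zero, by simp⟩

theorem isRat_one : IsRat 1 := ⟨1, 1, 0, one_ne_zero, by simp⟩

theorem isRat_X : IsRat X := ⟨1, Polynomial.X, 0, one_ne_zero, by simp⟩

theorem IsRat.add {F G : ℚ⟦X⟧} (hF : IsRat F) (hG : IsRat G) : IsRat (F + G) := by
  obtain ⟨Q, P₀, P₁, hQ, h⟩ := hF
  obtain ⟨Q', P₀', P₁', hQ', h'⟩ := hG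
  refine ⟨Q * Q', P₀ * Q' + P₀' * Q, P₁ * Q' + P₁' * Q, mul_ne_zero hQ hQ', ?_⟩
  push_cast
  linear_combination (Q' : ℚ⟦X⟧) * h + (Q : ℚ⟦X⟧) * h'

theorem IsRat.mul {F G : ℚ⟦X⟧} (hF : IsRat F) (hG : IsRat G) : IsRat (F * G) := by
  obtain ⟨Q, P₀, P₁, hQ, h⟩ := hF
  obtain ⟨Q', P₀', P₁', hQ', h'⟩ := hG
  refine ⟨Q * Q', P₀ * P₀' + P₁ * P₁' * (1 - 4 * Polynomial.X), P₀ * P₁' + P₁ * P₀',
    mul_ne_zero hQ hQ', ?_⟩
  have h4 : ((4 : Polynomial ℚ) : ℚ⟦X⟧) = 4 :=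
    map_ofNat (Polynomial.coeToPowerSeries.ringHom (R := ℚ)) 4
  rw [Polynomial.coe_mul, Polynomial.coe_add, Polynomial.coe_add, Polynomial.coe_mul,
    Polynomial.coe_mul, Polynomial.coe_mul, Polynomial.coe_mul, Polynomial.coe_mul,
    Polynomial.coe_sub, Polynomial.coe_mul, h4, Polynomial.coe_X, Polynomial.coe_one]
  linear_combination (Q' * G) * h + ((P₀ : ℚ⟦X⟧) + P₁ * sq) * h' + (P₁ : ℚ⟦X⟧) * P₁' * sq_sq

theorem IsRat.neg {F : ℚ⟦X⟧} (hF : IsRat F) : IsRat (-F) := by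
  obtain ⟨Q, P₀, P₁, hQ, h⟩ := hF
  refine ⟨Q, -P₀, -P₁, hQ, ?_⟩
  push_cast
  linear_combination -h

theorem norm_ne_zero {P₀ P₁ : Polynomial ℚ} (h : P₀ ≠ 0 ∨ P₁ ≠ 0) :
    P₀ ^ 2 - P₁ ^ 2 * (1 - 4 * Polynomial.X) ≠ 0 := by
  intro h0
  have h1 : P₀ ^ 2 = P₁ ^ 2 * (1 - 4 * Polynomial.X) := sub_eq_zero.1 h0
  have hlin : (1 - 4 * Polynomial.X : Polynomial ℚ) = Polynomial.C (-4) * Polynomial.X
      + Polynomial.C 1 := by
    simp only [map_neg, map_one]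
    rw [show (Polynomial.C 4 : Polynomial ℚ) = 4 from map_ofNat Polynomial.C 4]
    ring
  have hdeg : (1 - 4 * Polynomial.X : Polynomial ℚ).natDegree = 1 := by
    rw [hlin]
    exact Polynomial.natDegree_linear (by norm_num)
  have hne : (1 - 4 * Polynomial.X : Polynomial ℚ) ≠ 0 := by
    intro hz
    rw [hz] at hdeg
    simp at hdeg
  by_cases hP : P₁ = 0
  · rw [hP] at h1
    have h2 : P₀ = 0 := by simpa using h1
    rcases h with h | h
    · exact h h2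
    · exact h hP
  · have h2 := congrArg Polynomial.natDegree h1
    rw [Polynomial.natDegree_pow, Polynomial.natDegree_mul (pow_ne_zero 2 hP) hne,
      Polynomial.natDegree_pow, hdeg] at h2
    omega

theorem IsRat.inv {F G : ℚ⟦X⟧} (hF : IsRat F) (hFG : F * G = 1) : IsRat G := by
  obtain ⟨Q, P₀, P₁, hQ, h⟩ := hF
  have hne : P₀ ≠ 0 ∨ P₁ ≠ 0 := by
    by_contra hcon
    push Not at hcon
    rw [hcon.1, hcon.2] at h
    simp only [Polynomial.coe_zero, zero_mul, add_zero, mul_eq_zero] at h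
    rcases h with h | h
    · exact hQ (Polynomial.coe_eq_zero_iff.1 h)
    · rw [h, zero_mul] at hFG
      exact zero_ne_one hFG
  refine ⟨P₀ ^ 2 - P₁ ^ 2 * (1 - 4 * Polynomial.X), Q * P₀, -(Q * P₁), norm_ne_zero hne, ?_⟩
  have h4 : ((4 : Polynomial ℚ) : ℚ⟦X⟧) = 4 :=
    map_ofNat (Polynomial.coeToPowerSeries.ringHom (R := ℚ)) 4
  rw [Polynomial.coe_sub, Polynomial.coe_mul, Polynomial.coe_pow, Polynomial.coe_pow,
    Polynomial.coe_sub, Polynomial.coe_mul, h4, Polynomial.coe_X, Polynomial.coe_one,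
    Polynomial.coe_mul, Polynomial.coe_neg, Polynomial.coe_mul]
  linear_combination (-(P₀ : ℚ⟦X⟧) + P₁ * sq) * G * h + (Q * (P₀ - P₁ * sq) : ℚ⟦X⟧) * hFG
    + (P₁ : ℚ⟦X⟧) ^ 2 * G * sq_sq

/-- The subring of `ℚ⟦X⟧` of series rational in `X` and `√(1 - 4X)`. -/
def RR : Subring ℚ⟦X⟧ where
  carrier := {F | IsRat F}
  mul_mem' := fun ha hb => IsRat.mul ha hb
  one_mem' := isRat_one
  add_mem' := fun ha hb => IsRat.add ha hb
  zero_mem' := isRat_zero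
  neg_mem' := fun ha => IsRat.neg ha

theorem mem_RR {F : ℚ⟦X⟧} : F ∈ RR ↔ IsRat F := Iff.rfl

theorem isRat_sq : IsRat sq := ⟨1, 0, 1, one_ne_zero, by simp⟩

theorem isRat_C (a : ℚ) : IsRat (C a) := by
  have := isRat_poly (Polynomial.C a)
  rwa [Polynomial.coe_C] at this

theorem isRat_cat : IsRat cat := by
  refine ⟨2 * Polynomial.X, 1, -1, ?_, ?_⟩
  · exact mul_ne_zero two_ne_zero Polynomial.X_ne_zero
  · have h4 : ((2 : Polynomial ℚ) : ℚ⟦X⟧) = 2 :=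
      map_ofNat (Polynomial.coeToPowerSeries.ringHom (R := ℚ)) 2
    rw [Polynomial.coe_mul, h4, Polynomial.coe_X, Polynomial.coe_one, Polynomial.coe_neg,
      Polynomial.coe_one]
    unfold sq
    ring

theorem isRat_yy : IsRat yy := by
  have h := isRat_cat.add isRat_one.neg
  rwa [← sub_eq_add_neg] at h

/-- `X` as an element of `RR`. -/
noncomputable def xr : RR := ⟨X, isRat_X⟩

theorem xr_jacobson : xr ∈ Ideal.jacobson (⊥ : Ideal RR) := by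
  rw [Ideal.mem_jacobson_bot]
  intro y
  have hc : constantCoeff (X * (y : ℚ⟦X⟧) + 1) ≠ 0 := by simp
  have hinv : (X * (y : ℚ⟦X⟧) + 1) * (X * (y : ℚ⟦X⟧) + 1)⁻¹ = 1 := PowerSeries.mul_inv_cancel _ hc
  have hmem : IsRat (X * (y : ℚ⟦X⟧) + 1)⁻¹ :=
    IsRat.inv ((isRat_X.mul y.2).add isRat_one) hinv
  refine IsUnit.of_mul_eq_one (⟨(X * (y : ℚ⟦X⟧) + 1)⁻¹, hmem⟩ : RR) ?_
  apply Subtype.ext
  exact hinv

/-- Abstract rationality criterion. -/
theorem nakayama {ι : Type*} [Finite ι] (F : ι → ℚ⟦X⟧)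
    (h : ∀ i, ∃ r : ℚ⟦X⟧, IsRat r ∧ ∃ m ∈ Submodule.span RR (Set.range F), F i = r + X * m) :
    Submodule.span RR (Set.range F) ≤ Submodule.span RR {(1 : ℚ⟦X⟧)} := by
  set N' := Submodule.span RR (Set.range F) with hN'
  have hfg : N'.FG := Submodule.fg_span (Set.finite_range F)
  refine Submodule.le_of_le_smul_of_le_jacobson_bot (I := Ideal.span {xr}) hfg ?_ ?_
  · rw [Ideal.span_le]
    intro x hx
    rw [Set.mem_singleton_iff] at hx
    rw [hx]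
    exact xr_jacobson
  · rw [hN', Submodule.span_le]
    rintro _ ⟨i, rfl⟩
    obtain ⟨r, hr, m, hm, hF⟩ := h i
    rw [hF]
    refine Submodule.add_mem _ (Submodule.mem_sup_left ?_) (Submodule.mem_sup_right ?_)
    · rw [Submodule.mem_span_singleton]
      exact ⟨⟨r, hr⟩, by change r * 1 = r; rw [mul_one]⟩
    · exact Submodule.smul_mem_smul (Ideal.mem_span_singleton_self xr) hm

theorem isRat_of_mem {F : ℚ⟦X⟧} (h : F ∈ Submodule.span RR {(1 : ℚ⟦X⟧)}) : IsRat F := by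
  rw [Submodule.mem_span_singleton] at h
  obtain ⟨a, ha⟩ := h
  have : F = (a : ℚ⟦X⟧) := by rw [← ha]; change (a : ℚ⟦X⟧) * 1 = _; rw [mul_one]
  rw [this]
  exact a.2

end Pool.Agent.H224R3.Fu
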