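import Pool.Agent.H224R3.Fu1

set_option autoImplicit false

namespace Pool.Agent.H224R3.Fu

open Finset

/-- Entry of a list with default `0`. -/
abbrev gd (x : List ℕ) (q : ℕ) : ℕ := x.getD q 0

theorem gd_append (x : List ℕ) (q : ℕ) : gd (x ++ [0]) q = gd x q := by
  unfold gd
  rcases lt_or_ge q x.length with h | h
  · rw [List.getD_append _ _ _ _ h]
  · rw [List.getD_append_right _ _ _ _ h, List.getD_eq_default x 0 h]
    rcases Nat.eq_zero_or_pos (q - x.length) with h0 | h0
    · rw [h0]; rfl
    · rw [List.getD_eq_default]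
      rw [List.length_singleton]
      omega

theorem gd_eraseIdx (x : List ℕ) (i j : ℕ) :
    gd (x.eraseIdx i) j = if j < i then gd x j else gd x (j + 1) := by
  unfold gd
  rw [List.getD_eq_getElem?_getD, List.getElem?_eraseIdx, List.getD_eq_getElem?_getD,
    List.getD_eq_getElem?_getD]
  split_ifs <;> rfl

/-- Add one to all entries. -/
def inc (x : List ℕ) : List ℕ := x.map (· + 1)

theorem gd_inc (x : List ℕ) {q : ℕ} (h : q < x.length) : gd (inc x) q = gd x q + 1 := by
  unfold gd inc
  rw [List.getD_eq_getElem _ _ (by simpa using h), List.getElem_map, List.getD_eq_getElem _ _ h]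

theorem length_inc (x : List ℕ) : (inc x).length = x.length := by unfold inc; simp

theorem len_er {x : List ℕ} {q : ℕ} (h : q < x.length) : (x.eraseIdx q).length = x.length - 1 :=
  List.length_eraseIdx_of_lt h

theorem len_ap (x : List ℕ) : (x ++ [0]).length = x.length + 1 := by simp

/-- Match the new element with one of the pending ones. -/
def mt (g : List ℕ → ℕ → ℕ) (x : List ℕ) (c : ℕ) : ℕ :=
  ∑ q ∈ range x.length,
    if q * (gd x q + q) ≤ c then g (x.eraseIdx q) (c - q * (gd x q + q)) else 0

/-- Second half-step. -/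
def stB (f : List ℕ → List ℕ → ℕ → ℕ) (a b : List ℕ) (c : ℕ) : ℕ :=
  f (inc (a ++ [0])) (inc b) c + mt (fun b' c' => f (inc a) (inc b') c') b c

/-- First half-step. -/
def stA (g : List ℕ → List ℕ → ℕ → ℕ) (a b : List ℕ) (c : ℕ) : ℕ :=
  g a (b ++ [0]) c + mt (fun a' c' => g a' b c') a c

/-- Number of completions in `l` steps with budget `c`. -/
def R : ℕ → List ℕ → List ℕ → ℕ → ℕ
  | 0 => fun a b _ => if a = [] ∧ b = [] then 1 else 0
  | (l + 1) => stA (stB (R l))

/-- Lower bound for the entries. -/
def D (k : ℕ) (x : List ℕ) : Prop := ∀ q < x.length, x.length ≤ gd x q + q + k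

theorem D.mono {k k' : ℕ} {x : List ℕ} (h : D k x) (hk : k ≤ k') : D k' x := fun q hq => by
  have := h q hq; omega

theorem D.append {x : List ℕ} (h : D 0 x) : D 1 (x ++ [0]) := by
  intro q hq
  rw [len_ap] at hq ⊢
  rw [gd_append]
  rcases Nat.lt_or_ge q x.length with h1 | h1
  · have := h q h1; omega
  · omega

theorem D.erase {k : ℕ} {x : List ℕ} (h : D k x) {i : ℕ} (hi : i < x.length) :
    D k (x.eraseIdx i) := by
  intro q hq
  rw [len_er hi] at hq ⊢
  rw [gd_eraseIdx]
  split_ifs with h1
  · have := h q (by omega); omega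
  · have := h (q + 1) (by omega); omega

theorem D.inc {x : List ℕ} (h : D 1 x) : D 0 (inc x) := by
  intro q hq
  rw [length_inc] at hq ⊢
  rw [gd_inc _ hq]
  have := h q hq; omega

/-- Equivalence of lists of pending elements. -/
def Eqv (κ : ℕ) (x x' : List ℕ) : Prop := x.length = x'.length ∧
  ∀ q, 1 ≤ q → q < x.length → (gd x q = gd x' q ∨ (κ ≤ gd x q ∧ κ ≤ gd x' q))

theorem Eqv.append {κ : ℕ} {x x' : List ℕ} (h : Eqv κ x x') : Eqv κ (x ++ [0]) (x' ++ [0]) := by
  refine ⟨by rw [len_ap, len_ap, h.1], fun q h1 h2 => ?_⟩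
  rw [gd_append, gd_append]
  rw [len_ap] at h2
  rcases Nat.lt_or_ge q x.length with h3 | h3
  · exact h.2 q h1 h3
  · left
    unfold gd
    rw [List.getD_eq_default _ _ h3, List.getD_eq_default _ _ (h.1 ▸ h3)]

theorem Eqv.erase {κ : ℕ} {x x' : List ℕ} (h : Eqv κ x x') {i : ℕ} (hi : i < x.length) :
    Eqv κ (x.eraseIdx i) (x'.eraseIdx i) := by
  have hi' : i < x'.length := h.1 ▸ hi
  refine ⟨by rw [len_er hi, len_er hi', h.1], fun q h1 h2 => ?_⟩
  rw [len_er hi] at h2
  rw [gd_eraseIdx, gd_eraseIdx]
  split_ifs with h3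
  · exact h.2 q h1 (by omega)
  · exact h.2 (q + 1) (by omega) (by omega)

theorem Eqv.inc {κ κ' : ℕ} {x x' : List ℕ} (h : Eqv κ x x') (hκ : κ' ≤ κ + 1) :
    Eqv κ' (inc x) (inc x') := by
  refine ⟨by rw [length_inc, length_inc, h.1], fun q h1 h2 => ?_⟩
  rw [length_inc] at h2
  rw [gd_inc _ h2, gd_inc _ (h.1 ▸ h2)]
  rcases h.2 q h1 h2 with h3 | ⟨h3, h4⟩
  · left; omega
  · right; omega

/-- Pending elements that are too old cannot be matched out of order. -/
def Good (κ t : ℕ) (x : List ℕ) : Prop :=
  ∀ q, 1 ≤ q → q < x.length → κ ≤ gd x q → t < q * (gd x q + q)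

theorem good_of_large {κ t : ℕ} {x : List ℕ} (h : t + 1 ≤ κ) : Good κ t x := by
  intro q h1 _ h3
  have : 1 * (gd x q + q) ≤ q * (gd x q + q) := Nat.mul_le_mul_right _ h1
  omega

theorem good_of_D {κ t k : ℕ} {x : List ℕ} (h : D k x) (hl : t + 1 + k ≤ x.length) :
    Good κ t x := by
  intro q h1 h2 _
  have h3 := h q h2
  have : 1 * (gd x q + q) ≤ q * (gd x q + q) := Nat.mul_le_mul_right _ h1
  omega

theorem Good.erase_zero {κ t : ℕ} {x : List ℕ} (_h : Good κ t x) : True := trivial

theorem mt_congr {κ t : ℕ} {x x' : List ℕ} {g g' : List ℕ → ℕ → ℕ} {c : ℕ} (hc : c ≤ t)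
    (h : Eqv κ x x') (hx : Good κ t x) (hx' : Good κ t x')
    (hg : ∀ q < x.length, ∀ c' ≤ t, g (x.eraseIdx q) c' = g' (x'.eraseIdx q) c') :
    mt g x c = mt g' x' c := by
  unfold mt
  rw [← h.1]
  refine sum_congr rfl fun q hq => ?_
  rw [mem_range] at hq
  rcases Nat.eq_zero_or_pos q with h0 | h0
  · subst h0
    simp only [zero_mul, Nat.zero_le, if_true, Nat.sub_zero]
    exact hg 0 hq c hc
  · rcases h.2 q h0 hq with h1 | ⟨h1, h2⟩
    · rw [h1]
      split_ifs with h3
      · exact hg q hq _ (by omega)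
      · rfl
    · have h3 := hx q h0 hq h1
      have h4 := hx' q h0 (h.1 ▸ hq) h2
      rw [if_neg (by omega), if_neg (by omega)]

theorem R_congr (t : ℕ) : ∀ (l : ℕ) (a a' b b' : List ℕ) (c : ℕ), c ≤ t → a.length = b.length →
    D 0 a → D 0 a' → D 0 b → D 0 b' → Eqv (2 * t + 1 - a.length) a a' →
    Eqv (2 * t + 1 - a.length) b b' → R l a b c = R l a' b' c := by
  intro l
  induction l with
  | zero =>
    intro a a' b b' c _ _ _ _ _ _ h1 h2
    have e1 : a = [] ↔ a' = [] := by
      rw [← List.length_eq_zero_iff, ← List.length_eq_zero_iff, h1.1]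
    have e2 : b = [] ↔ b' = [] := by
      rw [← List.length_eq_zero_iff, ← List.length_eq_zero_iff, h2.1]
    change (if a = [] ∧ b = [] then 1 else 0) = (if a' = [] ∧ b' = [] then 1 else 0)
    rw [if_congr (and_congr e1 e2) rfl rfl]
  | succ l ih =>
    have hB : ∀ (κ : ℕ) (a a' b b' : List ℕ) (c : ℕ), c ≤ t → b.length = a.length + 1 →
        D 0 a → D 0 a' → D 1 b → D 1 b' → Eqv κ a a' → Eqv κ b b' → Good κ t b → Good κ t b' →
        2 * t + 1 - a.length ≤ κ + 1 → stB (R l) a b c = stB (R l) a' b' c := by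
      intro κ a a' b b' c hc hlen ha ha' hb hb' hea heb hgb hgb' hκ
      unfold stB
      congr 1
      · refine ih _ _ _ _ _ hc ?_ ha.append.inc ha'.append.inc hb.inc hb'.inc ?_ ?_
        · rw [length_inc, length_inc, len_ap, hlen]
        · refine hea.append.inc ?_
          rw [length_inc, len_ap]
          omega
        · refine heb.inc ?_
          rw [length_inc, len_ap]
          omega
      · refine mt_congr hc heb hgb hgb' fun q hq c' hc' => ?_
        refine ih _ _ _ _ _ hc' ?_ (ha.mono (by omega)).inc (ha'.mono (by omega)).inc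
          (hb.erase hq).inc (hb'.erase (heb.1 ▸ hq)).inc ?_ ?_
        · rw [length_inc, length_inc, len_er hq, hlen]
          omega
        · refine hea.inc ?_
          rw [length_inc]
          omega
        · refine (heb.erase hq).inc ?_
          rw [length_inc]
          omega
    intro a a' b b' c hc hlen ha ha' hb hb' hea heb
    change stA (stB (R l)) a b c = stA (stB (R l)) a' b' c
    unfold stA
    have hcase : a.length ≤ t ∨ t + 1 ≤ a.length := by omega
    congr 1
    · refine hB (2 * t + 1 - a.length) _ _ _ _ _ hc (by rw [len_ap, hlen]) ha ha' hb.append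
        hb'.append hea heb.append ?_ ?_ (by omega)
      · rcases hcase with h | h
        · exact good_of_large (by omega)
        · exact good_of_D hb.append (by rw [len_ap]; omega)
      · rcases hcase with h | h
        · exact good_of_large (by omega)
        · exact good_of_D hb'.append (by rw [len_ap, ← heb.1]; omega)
    · refine mt_congr hc hea ?_ ?_ fun q hq c' hc' => ?_
      · rcases hcase with h | h
        · exact good_of_large (by omega)
        · exact good_of_D ha (by omega)
      · rcases hcase with h | h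
        · exact good_of_large (by omega)
        · exact good_of_D ha' (by rw [← hea.1]; omega)
      · refine hB (2 * t + 1 - a.length) _ _ _ _ _ hc' ?_ (ha.erase hq)
          (ha'.erase (hea.1 ▸ hq)) (hb.mono (by omega)) (hb'.mono (by omega)) (hea.erase hq)
          heb ?_ ?_ ?_
        · rw [len_er hq]; omega
        · rcases hcase with h | h
          · exact good_of_large (by omega)
          · exact good_of_D hb (by omega)
        · rcases hcase with h | h
          · exact good_of_large (by omega)
          · exact good_of_D hb' (by rw [← heb.1]; omega)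
        · rw [len_er hq]; omega

end Pool.Agent.H224R3.Fu
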