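import Pool.Agent.H224R3.Fu2

set_option autoImplicit false

namespace Pool.Agent.H224R3.Fu

open Finset PowerSeries

/-- Generating function of completions. -/
noncomputable def PS (a b : List ℕ) (c : ℕ) : ℚ⟦X⟧ := PowerSeries.mk (fun l => (R l a b c : ℚ))

/-- The canonical list of length `h`. -/
def can (h : ℕ) : List ℕ := (List.range h).map (fun q => h - q)

theorem length_can (h : ℕ) : (can h).length = h := by unfold can; simp

theorem D_can (h : ℕ) : D 0 (can h) := by
  intro q hq
  have hq' : q < h := by rwa [length_can] at hq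
  have : gd (can h) q = h - q := by
    unfold gd can
    rw [List.getD_eq_getElem _ _ (by simpa using hq')]
    simp
  rw [length_can, this]
  omega

theorem eqv_of_high {t : ℕ} {x x' : List ℕ} (hl : x.length = x'.length) (h : 2 * t ≤ x.length)
    (hx : D 0 x) (hx' : D 0 x') : Eqv (2 * t + 1 - x.length) x x' := by
  refine ⟨hl, fun q h1 h2 => Or.inr ?_⟩
  have h3 := hx q h2
  have h4 := hx' q (hl ▸ h2)
  omega

theorem R_high {t : ℕ} (l : ℕ) {a b : List ℕ} {c : ℕ} (hc : c ≤ t) (hl : a.length = b.length)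
    (h : 2 * t ≤ a.length) (ha : D 0 a) (hb : D 0 b) :
    R l a b c = R l (can a.length) (can a.length) c := by
  refine R_congr t l _ _ _ _ c hc hl ha (D_can _) hb (D_can _) ?_ ?_
  · exact eqv_of_high (length_can _).symm h ha (D_can _)
  · rw [hl]
    exact eqv_of_high (length_can _).symm (hl ▸ h) hb (D_can _)

theorem mt_high {t : ℕ} {x : List ℕ} {g : List ℕ → ℕ → ℕ} {c : ℕ} (hc : c ≤ t) (hx : Good 0 t x)
    (h0 : 0 < x.length) : mt g x c = g (x.eraseIdx 0) c := by
  unfold mt
  rw [sum_eq_single 0]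
  · simp
  · intro q hq hq0
    rw [mem_range] at hq
    have := hx q (by omega) hq (Nat.zero_le _)
    rw [if_neg (by omega)]
  · intro h
    exact absurd (mem_range.2 h0) h

theorem R_succ_high {t : ℕ} (l : ℕ) {h c : ℕ} (hc : c ≤ t) (hh : 2 * t + 1 ≤ h) :
    R (l + 1) (can h) (can h) c = R l (can (h + 1)) (can (h + 1)) c +
      2 * R l (can h) (can h) c + R l (can (h - 1)) (can (h - 1)) c := by
  have hD := D_can h
  have hlen := length_can h
  change stA (stB (R l)) (can h) (can h) c = _
  unfold stA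
  rw [mt_high hc (good_of_D hD (by rw [hlen]; omega)) (by rw [hlen]; omega)]
  unfold stB
  rw [mt_high hc (good_of_D hD.append (by rw [len_ap, hlen]; omega)) (by rw [len_ap]; omega),
    mt_high hc (good_of_D hD (by rw [hlen]; omega)) (by rw [hlen]; omega)]
  have p0 : 0 < (can h).length := by rw [hlen]; omega
  have p1 : 0 < (can h ++ [0]).length := by rw [len_ap]; omega
  have l1 : (inc (can h ++ [0])).length = h + 1 := by rw [length_inc, len_ap, hlen]
  have l2 : (inc (can h)).length = h := by rw [length_inc, hlen]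
  have l3 : (inc ((can h ++ [0]).eraseIdx 0)).length = h := by
    rw [length_inc, len_er p1, len_ap, hlen]; rfl
  have l4 : (inc ((can h).eraseIdx 0 ++ [0])).length = h := by
    rw [length_inc, len_ap, len_er p0, hlen]; omega
  have l5 : (inc ((can h).eraseIdx 0)).length = h - 1 := by
    rw [length_inc, len_er p0, hlen]
  rw [R_high l hc rfl (by omega) hD.append.inc hD.append.inc, l1,
    R_high l hc (by rw [l2, l3]) (by omega) (hD.mono (by omega)).inc (hD.append.erase p1).inc, l2,
    R_high l hc (by rw [l4, l2]) (by omega) (hD.erase p0).append.inc (hD.mono (by omega)).inc, l4,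
    R_high l hc rfl (by omega) ((hD.erase p0).mono (by omega)).inc
      ((hD.erase p0).mono (by omega)).inc, l5]
  ring

theorem UU_eq {t h c : ℕ} (hc : c ≤ t) (hh : 2 * t + 1 ≤ h) :
    PS (can h) (can h) c = X * (PS (can (h + 1)) (can (h + 1)) c + 2 * PS (can h) (can h) c
      + PS (can (h - 1)) (can (h - 1)) c) := by
  ext l
  cases l with
  | zero =>
    rw [coeff_zero_X_mul]
    unfold PS
    rw [coeff_mk]
    have : ¬ (can h = [] ∧ can h = []) := by
      rintro ⟨h1, _⟩
      have := length_can h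
      rw [h1] at this
      simp at this
      omega
    change (((if can h = [] ∧ can h = [] then 1 else 0 : ℕ) : ℕ) : ℚ) = 0
    rw [if_neg this]
    simp
  | succ l =>
    rw [coeff_succ_X_mul, map_add, map_add]
    have h2 : (2 : ℚ⟦X⟧) = C 2 := by rw [map_ofNat]
    rw [h2, coeff_C_mul]
    unfold PS
    rw [coeff_mk, coeff_mk, coeff_mk, coeff_mk, R_succ_high l hc hh]
    push_cast
    ring

theorem UU_pow {t c : ℕ} (hc : c ≤ t) (k : ℕ) :
    PS (can (2 * t + k)) (can (2 * t + k)) c = yy ^ k * PS (can (2 * t)) (can (2 * t)) c := by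
  set U : ℕ → ℚ⟦X⟧ := fun k => PS (can (2 * t + k)) (can (2 * t + k)) c with hU
  have hrec : ∀ k, U (k + 1) = X * (U (k + 2) + 2 * U (k + 1) + U k) := by
    intro k
    have := UU_eq (t := t) (h := 2 * t + (k + 1)) hc (by omega)
    have e : 2 * t + (k + 1) - 1 = 2 * t + k := by omega
    rw [e] at this
    exact this
  have hy : ∀ k, yy ^ (k + 1) = X * (yy ^ (k + 2) + 2 * yy ^ (k + 1) + yy ^ k) := by
    intro k
    have h := yy_eq
    linear_combination (yy ^ k) * h
  have key : ∀ l k, coeff l (U k - yy ^ k * U 0) = 0 := by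
    intro l
    induction l with
    | zero =>
      intro k
      cases k with
      | zero => simp
      | succ k =>
        have : U (k + 1) - yy ^ (k + 1) * U 0 = X * ((U (k + 2) + 2 * U (k + 1) + U k) -
            (yy ^ (k + 2) + 2 * yy ^ (k + 1) + yy ^ k) * U 0) := by
          linear_combination hrec k - U 0 * hy k
        rw [this, coeff_zero_X_mul]
    | succ l ih =>
      intro k
      cases k with
      | zero => simp
      | succ k =>
        have : U (k + 1) - yy ^ (k + 1) * U 0 = X * ((U (k + 2) - yy ^ (k + 2) * U 0) +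
            C 2 * (U (k + 1) - yy ^ (k + 1) * U 0) + (U k - yy ^ k * U 0)) := by
          rw [map_ofNat]
          linear_combination hrec k - U 0 * hy k
        rw [this, coeff_succ_X_mul, map_add, map_add, coeff_C_mul, ih, ih, ih]
        ring
  have h1 : U k - yy ^ k * U 0 = 0 := by
    ext l
    rw [key l k, map_zero]
  have h2 := sub_eq_zero.1 h1
  exact h2

theorem mk_mt (g : ℕ → List ℕ → ℕ → ℕ) (x : List ℕ) (c : ℕ) :
    PowerSeries.mk (fun l => (mt (g l) x c : ℚ)) = ∑ q ∈ range x.length,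
      if q * (gd x q + q) ≤ c then
        PowerSeries.mk (fun l => (g l (x.eraseIdx q) (c - q * (gd x q + q)) : ℚ)) else 0 := by
  ext l
  rw [coeff_mk, map_sum]
  unfold mt
  push_cast
  refine sum_congr rfl fun q _ => ?_
  split_ifs
  · rw [coeff_mk]
  · simp

theorem mt_mem (N : Submodule RR ℚ⟦X⟧) (g : ℕ → List ℕ → ℕ → ℕ) (x : List ℕ) (c : ℕ)
    (h : ∀ q < x.length, ∀ c' ≤ c, PowerSeries.mk (fun l => (g l (x.eraseIdx q) c' : ℚ)) ∈ N) :
    PowerSeries.mk (fun l => (mt (g l) x c : ℚ)) ∈ N := by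
  rw [mk_mt]
  refine Submodule.sum_mem _ fun q hq => ?_
  split_ifs
  · exact h q (mem_range.1 hq) _ (Nat.sub_le _ _)
  · exact Submodule.zero_mem _

theorem stB_mem (N : Submodule RR ℚ⟦X⟧) {t : ℕ} (hN : ∀ a b c, a.length = b.length →
    a.length ≤ 2 * t + 1 → D 0 a → D 0 b → c ≤ t → PS a b c ∈ N) {a b : List ℕ} {c : ℕ}
    (hl : b.length = a.length + 1) (hle : a.length ≤ 2 * t) (ha : D 0 a) (hb : D 1 b)
    (hc : c ≤ t) : PowerSeries.mk (fun l => (stB (R l) a b c : ℚ)) ∈ N := by
  have : PowerSeries.mk (fun l => (stB (R l) a b c : ℚ)) = PS (inc (a ++ [0])) (inc b) c +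
      PowerSeries.mk (fun l => (mt (fun b' c' => R l (inc a) (inc b') c') b c : ℚ)) := by
    ext l
    rw [map_add, coeff_mk, coeff_mk]
    unfold PS stB
    rw [coeff_mk]
    push_cast
    rfl
  rw [this]
  refine Submodule.add_mem _ ?_ ?_
  · refine hN _ _ _ ?_ ?_ ha.append.inc hb.inc hc
    · rw [length_inc, length_inc, len_ap, hl]
    · rw [length_inc, len_ap]; omega
  · refine mt_mem N (fun l b' c' => R l (inc a) (inc b') c') b c fun q hq c' hc' => ?_
    refine hN _ _ _ ?_ ?_ (ha.mono (by omega)).inc (hb.erase hq).inc (by omega)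
    · rw [length_inc, length_inc, len_er hq, hl]; omega
    · rw [length_inc]; omega

theorem stA_mem (N : Submodule RR ℚ⟦X⟧) {t : ℕ} (hN : ∀ a b c, a.length = b.length →
    a.length ≤ 2 * t + 1 → D 0 a → D 0 b → c ≤ t → PS a b c ∈ N) {a b : List ℕ} {c : ℕ}
    (hl : a.length = b.length) (hle : a.length ≤ 2 * t) (ha : D 0 a) (hb : D 0 b)
    (hc : c ≤ t) : PowerSeries.mk (fun l => (stA (stB (R l)) a b c : ℚ)) ∈ N := by
  have : PowerSeries.mk (fun l => (stA (stB (R l)) a b c : ℚ)) =
      PowerSeries.mk (fun l => (stB (R l) a (b ++ [0]) c : ℚ)) +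
      PowerSeries.mk (fun l => (mt (fun a' c' => stB (R l) a' b c') a c : ℚ)) := by
    ext l
    rw [map_add, coeff_mk, coeff_mk, coeff_mk]
    unfold stA
    push_cast
    rfl
  rw [this]
  refine Submodule.add_mem _ ?_ ?_
  · exact stB_mem N hN (by rw [len_ap, hl]) hle ha hb.append hc
  · refine mt_mem N (fun l a' c' => stB (R l) a' b c') a c fun q hq c' hc' => ?_
    refine stB_mem N hN ?_ ?_ (ha.erase hq) (hb.mono (by omega)) (by omega)
    · rw [len_er hq]; omega
    · rw [len_er hq]; omega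

/-- Cap the entries. -/
def cp (K : ℕ) (x : List ℕ) : List ℕ := x.map (fun v => min v K)

theorem length_cp (K : ℕ) (x : List ℕ) : (cp K x).length = x.length := by unfold cp; simp

theorem gd_cp (K : ℕ) (x : List ℕ) (q : ℕ) : gd (cp K x) q = min (gd x q) K := by
  unfold gd cp
  have := List.getD_map (l := x) (d := 0) (n := q) (fun v => min v K)
  simpa using this

theorem eqv_cp {K κ : ℕ} (h : κ ≤ K) (x : List ℕ) : Eqv κ x (cp K x) := by
  refine ⟨(length_cp K x).symm, fun q _ _ => ?_⟩
  rw [gd_cp]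
  omega

theorem D_cp {K : ℕ} {x : List ℕ} (hx : D 0 x) (hl : x.length ≤ K) : D 0 (cp K x) := by
  intro q hq
  rw [length_cp] at hq ⊢
  rw [gd_cp]
  have := hx q hq
  omega

/-- The finite set of reduced states. -/
def GS (t : ℕ) : Set (List ℕ × List ℕ × ℕ) :=
  {p | p.1.length = p.2.1.length ∧ p.1.length ≤ 2 * t ∧ D 0 p.1 ∧ D 0 p.2.1 ∧ p.2.2 ≤ t ∧
    (∀ v ∈ p.1, v < 2 * t + 2) ∧ (∀ v ∈ p.2.1, v < 2 * t + 2)}

theorem finite_lists (m n : ℕ) : {x : List ℕ | x.length ≤ m ∧ ∀ v ∈ x, v < n}.Finite := by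
  have h1 : {x : List (Fin n) | x.length ≤ m}.Finite := List.finite_length_le (Fin n) m
  refine (h1.image (fun x => x.map Fin.val)).subset ?_
  rintro x ⟨hx1, hx2⟩
  refine ⟨x.attach.map (fun v => ⟨v.1, hx2 v.1 v.2⟩), ?_, ?_⟩
  · simpa using hx1
  · simp [List.map_map, Function.comp_def]

theorem GS_finite (t : ℕ) : (GS t).Finite := by
  have h1 := finite_lists (2 * t) (2 * t + 2)
  refine (h1.prod (h1.prod (Set.finite_Iic t))).subset ?_
  rintro ⟨a, b, c⟩ ⟨h1, h2, _, _, h5, h6, h7⟩
  simp only at h1 h2 h5 h6 h7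
  exact ⟨⟨h2, h6⟩, ⟨by change b.length ≤ _; omega, h7⟩, h5⟩

theorem isRat_main (t : ℕ) : IsRat (PS [] [] t) := by
  have : Finite (GS t) := (GS_finite t).to_subtype
  set F : GS t → ℚ⟦X⟧ := fun p => PS p.1.1 p.1.2.1 p.1.2.2 with hF
  set N := Submodule.span RR (Set.range F) with hN
  have low : ∀ a b c, a.length = b.length → a.length ≤ 2 * t → D 0 a → D 0 b → c ≤ t →
      PS a b c ∈ N := by
    intro a b c hl hle ha hb hc
    have hmem : (cp (2 * t + 1) a, cp (2 * t + 1) b, c) ∈ GS t := by
      refine ⟨?_, ?_, D_cp ha (by omega), D_cp hb (by omega), hc, ?_, ?_⟩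
      · simp only [length_cp, hl]
      · simp only [length_cp]; exact hle
      · intro v hv
        simp only [cp, List.mem_map] at hv
        obtain ⟨w, _, rfl⟩ := hv
        omega
      · intro v hv
        simp only [cp, List.mem_map] at hv
        obtain ⟨w, _, rfl⟩ := hv
        omega
    have heq : PS a b c = F ⟨_, hmem⟩ := by
      rw [hF]
      unfold PS
      ext l
      rw [coeff_mk, coeff_mk]
      rw [R_congr t l a (cp (2 * t + 1) a) b (cp (2 * t + 1) b) c hc hl ha
        (D_cp ha (by omega)) hb (D_cp hb (by omega)) (eqv_cp (by omega) a) (eqv_cp (by omega) b)]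
    rw [heq]
    exact Submodule.subset_span ⟨_, rfl⟩
  have all : ∀ a b c, a.length = b.length → a.length ≤ 2 * t + 1 → D 0 a → D 0 b → c ≤ t →
      PS a b c ∈ N := by
    intro a b c hl hle ha hb hc
    rcases Nat.lt_or_ge (2 * t) a.length with h | h
    · have h1 : a.length = 2 * t + 1 := by omega
      have h2 : PS a b c = yy ^ 1 * PS (can (2 * t)) (can (2 * t)) c := by
        rw [← UU_pow hc 1]
        unfold PS
        ext l
        rw [coeff_mk, coeff_mk, R_high l hc hl (by omega) ha hb, h1]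
      rw [h2, pow_one]
      have h3 := low (can (2 * t)) (can (2 * t)) c rfl (by rw [length_can]) (D_can _) (D_can _) hc
      exact Submodule.smul_mem N (⟨yy, isRat_yy⟩ : RR) h3
    · exact low a b c hl h ha hb hc
  have hnak : N ≤ Submodule.span RR {(1 : ℚ⟦X⟧)} := by
    refine nakayama F ?_
    rintro ⟨⟨a, b, c⟩, h1, h2, h3, h4, h5, _, _⟩
    simp only at h1 h2 h3 h4 h5
    refine ⟨C (R 0 a b c : ℚ), isRat_C _,
      PowerSeries.mk (fun l => (stA (stB (R l)) a b c : ℚ)), ?_, ?_⟩
    · exact stA_mem N all h1 h2 h3 h4 h5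
    · rw [hF]
      simp only
      ext l
      rw [map_add]
      cases l with
      | zero =>
        rw [coeff_zero_X_mul, coeff_zero_C, add_zero]
        unfold PS
        rw [coeff_mk]
      | succ l =>
        rw [coeff_succ_X_mul, coeff_succ_C, zero_add]
        unfold PS
        rw [coeff_mk, coeff_mk]
        rfl
  refine isRat_of_mem (hnak (all [] [] t rfl (by simp) ?_ ?_ le_rfl))
  · intro q hq; simp at hq
  · intro q hq; simp at hq

end Pool.Agent.H224R3.Fu
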