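import Pool.Agent.H224R3.Fu3

set_option autoImplicit false

namespace Pool.Agent.H224R3.Fu

open Finset

/-- Non-attacking placements. -/
def IsRook (M : Finset (ℕ × ℕ)) : Prop := ∀ p ∈ M, ∀ q ∈ M, (p.1 = q.1 ∨ p.2 = q.2) → p = q

open Classical in
/-- Rook placements on an `m × n` board. -/
noncomputable def Rk (m n : ℕ) : Finset (Finset (ℕ × ℕ)) :=
  ((range m ×ˢ range n).powerset).filter IsRook

theorem mem_Rk {m n : ℕ} {M : Finset (ℕ × ℕ)} :
    M ∈ Rk m n ↔ (∀ p ∈ M, p.1 < m ∧ p.2 < n) ∧ IsRook M := by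
  classical
  unfold Rk
  rw [mem_filter, mem_powerset]
  refine and_congr_left fun _ => ?_
  constructor
  · intro h p hp
    have := h hp
    rw [mem_product, mem_range, mem_range] at this
    exact this
  · intro h p hp
    rw [mem_product, mem_range, mem_range]
    exact h p hp

/-- Occupied positions. -/
def dm (M : Finset (ℕ × ℕ)) : Finset ℕ := M.image Prod.fst

/-- Occupied values. -/
def rg (M : Finset (ℕ × ℕ)) : Finset ℕ := M.image Prod.snd

theorem mem_dm {M : Finset (ℕ × ℕ)} {j : ℕ} : j ∈ dm M ↔ ∃ b, (j, b) ∈ M := by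
  unfold dm
  rw [mem_image]
  constructor
  · rintro ⟨⟨a, b⟩, h, rfl⟩
    exact ⟨b, h⟩
  · rintro ⟨b, h⟩
    exact ⟨(j, b), h, rfl⟩

theorem mem_rg {M : Finset (ℕ × ℕ)} {b : ℕ} : b ∈ rg M ↔ ∃ j, (j, b) ∈ M := by
  unfold rg
  rw [mem_image]
  constructor
  · rintro ⟨⟨a, b⟩, h, rfl⟩
    exact ⟨a, h⟩
  · rintro ⟨j, h⟩
    exact ⟨(j, b), h, rfl⟩

theorem dm_insert (j b : ℕ) (M : Finset (ℕ × ℕ)) : dm (insert (j, b) M) = insert j (dm M) := by
  unfold dm; rw [image_insert]

theorem rg_insert (j b : ℕ) (M : Finset (ℕ × ℕ)) : rg (insert (j, b) M) = insert b (rg M) := by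
  unfold rg; rw [image_insert]

/-- free positions -/
def fr (m : ℕ) (A : Finset ℕ) : Finset ℕ := (range m).filter (fun j => j ∉ A)

theorem mem_fr {m : ℕ} {A : Finset ℕ} {j : ℕ} : j ∈ fr m A ↔ j < m ∧ j ∉ A := by
  unfold fr; rw [mem_filter, mem_range]

theorem sum_col (m n : ℕ) (g : Finset (ℕ × ℕ) → ℕ) :
    ∑ M' ∈ Rk m (n + 1), g M' =
      ∑ M ∈ Rk m n, (g M + ∑ j ∈ fr m (dm M), g (insert (j, n) M)) := by
  classical
  rw [sum_add_distrib, ← sum_filter_add_sum_filter_not (Rk m (n + 1)) (fun M => n ∉ rg M)]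
  congr 1
  · refine sum_congr ?_ fun _ _ => rfl
    ext M
    rw [mem_filter, mem_Rk, mem_Rk]
    constructor
    · rintro ⟨⟨h1, h2⟩, h3⟩
      refine ⟨fun p hp => ?_, h2⟩
      have h4 := h1 p hp
      refine ⟨h4.1, ?_⟩
      have : p.2 ≠ n := by
        rintro rfl
        exact h3 (mem_rg.2 ⟨p.1, hp⟩)
      omega
    · rintro ⟨h1, h2⟩
      refine ⟨⟨fun p hp => ?_, h2⟩, fun h3 => ?_⟩
      · have := h1 p hp
        omega
      · obtain ⟨j, hj⟩ := mem_rg.1 h3
        have := (h1 _ hj).2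
        simp at this
  · rw [sum_sigma']
    symm
    refine sum_bij (fun x _ => insert (x.2, n) x.1) ?_ ?_ ?_ (fun _ _ => rfl)
    · rintro ⟨M, j⟩ hx
      rw [mem_sigma, mem_Rk, mem_fr] at hx
      obtain ⟨⟨h1, h2⟩, h3, h4⟩ := hx
      simp only at h1 h2 h3 h4
      rw [mem_filter, mem_Rk]
      refine ⟨⟨?_, ?_⟩, ?_⟩
      · intro p hp
        rw [mem_insert] at hp
        rcases hp with rfl | hp
        · exact ⟨h3, by simp⟩
        · have := h1 p hp; omega
      · intro p hp q hq hpq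
        rw [mem_insert] at hp hq
        rcases hp with rfl | hp <;> rcases hq with rfl | hq
        · rfl
        · exfalso
          rcases hpq with h | h
          · have h' : j = q.1 := h
            exact h4 (mem_dm.2 ⟨q.2, by rw [h']; exact hq⟩)
          · have := (h1 q hq).2
            simp only at h
            omega
        · exfalso
          rcases hpq with h | h
          · have h' : p.1 = j := h
            exact h4 (mem_dm.2 ⟨p.2, by rw [← h']; exact hp⟩)
          · have := (h1 p hp).2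
            simp only at h
            omega
        · exact h2 p hp q hq hpq
      · rw [not_not, rg_insert]
        exact mem_insert_self _ _
    · rintro ⟨M, j⟩ hx ⟨M', j'⟩ hx' heq
      rw [mem_sigma, mem_Rk, mem_fr] at hx hx'
      obtain ⟨⟨h1, _⟩, _, _⟩ := hx
      obtain ⟨⟨h1', _⟩, _, _⟩ := hx'
      simp only at h1 h1' heq
      have hM : M = M' := by
        ext p
        constructor
        · intro hp
          have : p ∈ insert (j', n) M' := by rw [← heq]; exact mem_insert_of_mem hp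
          rcases mem_insert.1 this with h | h
          · have h5 := (h1 p hp).2
            rw [h] at h5
            simp at h5
          · exact h
        · intro hp
          have : p ∈ insert (j, n) M := by rw [heq]; exact mem_insert_of_mem hp
          rcases mem_insert.1 this with h | h
          · have h5 := (h1' p hp).2
            rw [h] at h5
            simp at h5
          · exact h
      have hj : j = j' := by
        have : (j, n) ∈ insert (j', n) M' := by rw [← heq]; exact mem_insert_self _ _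
        rcases mem_insert.1 this with h | h
        · exact (Prod.mk.inj h).1
        · have h5 := (h1' _ h).2
          simp at h5
      rw [hM, hj]
    · intro M' hM'
      rw [mem_filter, mem_Rk, not_not] at hM'
      obtain ⟨⟨h1, h2⟩, h3⟩ := hM'
      obtain ⟨j, hj⟩ := mem_rg.1 h3
      refine ⟨⟨M'.erase (j, n), j⟩, ?_, insert_erase hj⟩
      rw [mem_sigma, mem_Rk, mem_fr]
      refine ⟨⟨?_, ?_⟩, (h1 _ hj).1, ?_⟩
      · intro p hp
        rw [mem_erase] at hp
        have h4 := h1 p hp.2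
        refine ⟨h4.1, ?_⟩
        have : p.2 ≠ n := by
          intro h
          exact hp.1 (h2 p hp.2 (j, n) hj (Or.inr h))
        omega
      · intro p hp q hq hpq
        exact h2 p (mem_of_mem_erase hp) q (mem_of_mem_erase hq) hpq
      · intro h4
        obtain ⟨b, hb⟩ := mem_dm.1 h4
        rw [mem_erase] at hb
        exact hb.1 (h2 _ hb.2 _ hj (Or.inl rfl))

/-- Transposition. -/
def sw (M : Finset (ℕ × ℕ)) : Finset (ℕ × ℕ) := M.image Prod.swap

theorem mem_sw {M : Finset (ℕ × ℕ)} {a b : ℕ} : (a, b) ∈ sw M ↔ (b, a) ∈ M := by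
  unfold sw
  rw [mem_image]
  constructor
  · rintro ⟨⟨c, d⟩, h, h'⟩
    simp only [Prod.swap_prod_mk, Prod.mk.injEq] at h'
    rw [← h'.1, ← h'.2]
    exact h
  · intro h
    exact ⟨(b, a), h, rfl⟩

theorem sw_sw (M : Finset (ℕ × ℕ)) : sw (sw M) = M := by
  ext ⟨a, b⟩
  rw [mem_sw, mem_sw]

theorem dm_sw (M : Finset (ℕ × ℕ)) : dm (sw M) = rg M := by
  ext j
  rw [mem_dm, mem_rg]
  simp only [mem_sw]

theorem rg_sw (M : Finset (ℕ × ℕ)) : rg (sw M) = dm M := by
  ext j
  rw [mem_dm, mem_rg]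
  simp only [mem_sw]

theorem sw_insert (a b : ℕ) (M : Finset (ℕ × ℕ)) : sw (insert (a, b) M) = insert (b, a) (sw M) := by
  unfold sw
  rw [image_insert]
  rfl

theorem sw_mem_Rk {m n : ℕ} {M : Finset (ℕ × ℕ)} (h : M ∈ Rk m n) : sw M ∈ Rk n m := by
  rw [mem_Rk] at h ⊢
  obtain ⟨h1, h2⟩ := h
  constructor
  · rintro ⟨a, b⟩ hp
    have := h1 _ (mem_sw.1 hp)
    exact ⟨this.2, this.1⟩
  · rintro ⟨a, b⟩ hp ⟨c, d⟩ hq hpq
    have := h2 _ (mem_sw.1 hp) _ (mem_sw.1 hq) hpq.symm
    rw [Prod.mk.injEq] at this ⊢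
    exact ⟨this.2, this.1⟩

theorem sum_sw (m n : ℕ) (g : Finset (ℕ × ℕ) → ℕ) :
    ∑ M ∈ Rk m n, g (sw M) = ∑ M ∈ Rk n m, g M := by
  refine sum_nbij' sw sw (fun M hM => sw_mem_Rk hM) (fun M hM => sw_mem_Rk hM)
    (fun M _ => sw_sw M) (fun M _ => sw_sw M) (fun M _ => rfl)

theorem sum_row (m n : ℕ) (g : Finset (ℕ × ℕ) → ℕ) :
    ∑ M' ∈ Rk (m + 1) n, g M' =
      ∑ M ∈ Rk m n, (g M + ∑ b ∈ fr n (rg M), g (insert (m, b) M)) := by
  rw [← sum_sw n (m + 1) g, sum_col n m (fun M => g (sw M)), ← sum_sw n m]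
  refine sum_congr rfl fun M _ => ?_
  rw [rg_sw]
  congr 1
  refine sum_congr rfl fun j _ => ?_
  rw [sw_insert]

/-- Number of rooks south-west of `p`. -/
def ws (M : Finset (ℕ × ℕ)) (p : ℕ × ℕ) : ℕ := (M.filter (fun q => q.1 < p.1 ∧ q.2 < p.2)).card

/-- The weight of a placement. -/
def cost (M : Finset (ℕ × ℕ)) : ℕ := ∑ p ∈ M, (p.1 - ws M p) * (p.2 - ws M p)

theorem ws_sw (M : Finset (ℕ × ℕ)) (p : ℕ × ℕ) : ws (sw M) p.swap = ws M p := by
  unfold ws
  have h : (sw M).filter (fun q => q.1 < p.swap.1 ∧ q.2 < p.swap.2) =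
      sw (M.filter (fun q => q.1 < p.1 ∧ q.2 < p.2)) := by
    ext ⟨a, b⟩
    rw [mem_filter, mem_sw, mem_sw, mem_filter]
    simp only [Prod.fst_swap, Prod.snd_swap]
    tauto
  rw [h]
  exact card_image_of_injective _ Prod.swap_injective

theorem cost_sw (M : Finset (ℕ × ℕ)) : cost (sw M) = cost M := by
  unfold cost
  rw [show (sw M) = M.image Prod.swap from rfl, sum_image (fun a _ b _ h => Prod.swap_injective h)]
  refine sum_congr rfl fun p _ => ?_
  have := ws_sw M p
  unfold sw at this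
  rw [this, Prod.fst_swap, Prod.snd_swap, mul_comm]

theorem cost_col {m n j : ℕ} {M : Finset (ℕ × ℕ)} (hM : M ∈ Rk m n) (hj : j ∈ fr m (dm M))
    (hjn : j ≤ n) :
    cost (insert (j, n) M) = cost M + (fr j (dm M)).card * (n - j + (fr j (dm M)).card) := by
  rw [mem_Rk] at hM
  obtain ⟨h1, h2⟩ := hM
  rw [mem_fr] at hj
  have hnot : (j, n) ∉ M := fun h => by
    have := (h1 _ h).2
    simp at this
  have hws : ∀ p ∈ M, ws (insert (j, n) M) p = ws M p := by
    intro p hp
    unfold ws
    rw [filter_insert, if_neg]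
    have := (h1 p hp).2
    simp only
    omega
  have hnew : ws (insert (j, n) M) (j, n) = j - (fr j (dm M)).card := by
    unfold ws
    rw [filter_insert, if_neg (by simp)]
    have e1 : M.filter (fun q => q.1 < (j, n).1 ∧ q.2 < (j, n).2) =
        M.filter (fun q => q.1 < j) := by
      refine filter_congr fun q hq => ?_
      have := (h1 q hq).2
      simp only
      tauto
    rw [e1]
    have e2 : (M.filter (fun q => q.1 < j)).card = ((range j).filter (fun i => i ∈ dm M)).card := by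
      rw [← card_image_of_injOn (f := Prod.fst) (s := M.filter (fun q => q.1 < j))]
      · congr 1
        ext i
        rw [mem_image, mem_filter, mem_range, mem_dm]
        constructor
        · rintro ⟨⟨a, b⟩, hab, rfl⟩
          rw [mem_filter] at hab
          exact ⟨hab.2, b, hab.1⟩
        · rintro ⟨h3, b, hb⟩
          exact ⟨(i, b), mem_filter.2 ⟨hb, h3⟩, rfl⟩
      · intro p hp q hq hpq
        exact h2 p (mem_filter.1 hp).1 q (mem_filter.1 hq).1 (Or.inl hpq)
    rw [e2]
    have e3 := card_filter_add_card_filter_not (s := range j) (fun i => i ∈ dm M)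
    rw [card_range] at e3
    unfold fr
    omega
  have hle : (fr j (dm M)).card ≤ j := by
    unfold fr
    exact (card_filter_le _ _).trans (card_range j).le
  unfold cost
  rw [sum_insert hnot, add_comm]
  congr 1
  · refine sum_congr rfl fun p hp => ?_
    rw [hws p hp]
  · rw [hnew]
    simp only
    congr 1 <;> omega

theorem cost_row {m n b : ℕ} {M : Finset (ℕ × ℕ)} (hM : M ∈ Rk m n) (hb : b ∈ fr n (rg M))
    (hbm : b ≤ m) :
    cost (insert (m, b) M) = cost M + (fr b (rg M)).card * (m - b + (fr b (rg M)).card) := by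
  have h := cost_col (sw_mem_Rk hM) (j := b) (by rw [dm_sw]; exact hb) hbm
  rw [dm_sw, cost_sw, ← cost_sw (insert (b, m) (sw M)), sw_insert, sw_sw] at h
  exact h

end Pool.Agent.H224R3.Fu
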