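import Pool.Agent.H224R3.Fu4

set_option autoImplicit false

namespace Pool.Agent.H224R3.Fu

open Finset

/-- The list of free elements below `m`. -/
def pend (m : ℕ) (A : Finset ℕ) : List ℕ := (List.range m).filter (fun j => decide (j ∉ A))

theorem pend_succ_of_notMem {m : ℕ} {A : Finset ℕ} (h : m ∉ A) :
    pend (m + 1) A = pend m A ++ [m] := by
  unfold pend
  rw [List.range_succ, List.filter_append]
  congr 1
  simp [h]

theorem pend_succ_of_mem {m : ℕ} {A : Finset ℕ} (h : m ∈ A) : pend (m + 1) A = pend m A := by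
  unfold pend
  rw [List.range_succ, List.filter_append]
  simp [h]

theorem mem_pend {m : ℕ} {A : Finset ℕ} {j : ℕ} : j ∈ pend m A ↔ j < m ∧ j ∉ A := by
  unfold pend
  rw [List.mem_filter, List.mem_range, decide_eq_true_eq]

theorem pend_insert_ge {m b : ℕ} {A : Finset ℕ} (h : m ≤ b) : pend m (insert b A) = pend m A := by
  unfold pend
  refine List.filter_congr fun j hj => ?_
  rw [List.mem_range] at hj
  rw [decide_eq_decide, mem_insert]
  have : j ≠ b := by omega
  tauto

theorem length_pend (m : ℕ) (A : Finset ℕ) : (pend m A).length = (fr m A).card := by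
  induction m with
  | zero => rfl
  | succ m ih =>
    by_cases h : m ∈ A
    · rw [pend_succ_of_mem h, ih]
      unfold fr
      rw [range_add_one, filter_insert, if_neg (by simpa using h)]
    · rw [pend_succ_of_notMem h, List.length_append, ih]
      unfold fr
      rw [range_add_one, filter_insert, if_pos h, card_insert_of_notMem (by simp)]
      rfl

theorem pend_getD (m : ℕ) (A : Finset ℕ) : ∀ q < (pend m A).length,
    gd (pend m A) q ∈ fr m A ∧ (fr (gd (pend m A) q) A).card = q ∧
      (pend m A).eraseIdx q = pend m (insert (gd (pend m A) q) A) := by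
  induction m with
  | zero =>
    intro q hq
    exact absurd hq (by simp [pend])
  | succ m ih =>
    intro q hq
    by_cases h : m ∈ A
    · rw [pend_succ_of_mem h] at hq ⊢
      obtain ⟨h1, h2, h3⟩ := ih q hq
      refine ⟨?_, h2, ?_⟩
      · rw [mem_fr] at h1 ⊢
        exact ⟨by omega, h1.2⟩
      · rw [h3, pend_succ_of_mem (mem_insert_of_mem h)]
    · rw [pend_succ_of_notMem h] at hq ⊢
      rw [List.length_append, List.length_singleton] at hq
      rcases Nat.lt_or_ge q (pend m A).length with h4 | h4
      · obtain ⟨h1, h2, h3⟩ := ih q h4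
        have e : gd (pend m A ++ [m]) q = gd (pend m A) q := by
          unfold gd
          rw [List.getD_append _ _ _ _ h4]
        rw [e]
        refine ⟨?_, h2, ?_⟩
        · rw [mem_fr] at h1 ⊢
          exact ⟨by omega, h1.2⟩
        · rw [List.eraseIdx_append_of_lt_length h4, h3, pend_succ_of_notMem]
          rw [mem_insert]
          rw [mem_fr] at h1
          rintro (h5 | h5)
          · omega
          · exact h h5
      · have h5 : q = (pend m A).length := by omega
        have e : gd (pend m A ++ [m]) q = m := by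
          unfold gd
          rw [List.getD_append_right _ _ _ _ h4, h5, Nat.sub_self]
          rfl
        rw [e]
        refine ⟨?_, ?_, ?_⟩
        · rw [mem_fr]
          exact ⟨by omega, h⟩
        · rw [← length_pend, h5]
        · rw [List.eraseIdx_append_of_length_le h4, h5, Nat.sub_self,
            pend_succ_of_mem (mem_insert_self _ _), pend_insert_ge le_rfl]
          simp

/-- Elapsed times of pending elements. -/
def E (s k : ℕ) (A : Finset ℕ) : List ℕ := (pend k A).map (fun j => s - j)

theorem length_E (s k : ℕ) (A : Finset ℕ) : (E s k A).length = (pend k A).length := by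
  unfold E; rw [List.length_map]

theorem gd_E {s k : ℕ} {A : Finset ℕ} {q : ℕ} (h : q < (pend k A).length) :
    gd (E s k A) q = s - gd (pend k A) q := by
  unfold gd E
  rw [List.getD_eq_getElem _ _ (by simpa using h), List.getElem_map, List.getD_eq_getElem _ _ h]

theorem E_erase {s k : ℕ} {A : Finset ℕ} {q : ℕ} (h : q < (pend k A).length) :
    (E s k A).eraseIdx q = E s k (insert (gd (pend k A) q) A) := by
  unfold E
  rw [← (pend_getD k A q h).2.2, List.eraseIdx_map]

theorem E_succ_of_notMem {s : ℕ} {A : Finset ℕ} (h : s ∉ A) : E s (s + 1) A = E s s A ++ [0] := by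
  unfold E
  rw [pend_succ_of_notMem h, List.map_append]
  simp

theorem E_succ_insert {s : ℕ} (A : Finset ℕ) : E s (s + 1) (insert s A) = E s s A := by
  unfold E
  rw [pend_succ_of_mem (mem_insert_self _ _), pend_insert_ge le_rfl]

theorem E_inc {s k : ℕ} (A : Finset ℕ) (h : k ≤ s + 1) : E (s + 1) k A = inc (E s k A) := by
  unfold E inc
  rw [List.map_map]
  refine List.map_congr_left fun j hj => ?_
  rw [mem_pend] at hj
  simp only [Function.comp]
  omega

theorem mt_sum (g : List ℕ → ℕ → ℕ) (s k : ℕ) (A : Finset ℕ) (c : ℕ) :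
    mt g (E s k A) c = ∑ j ∈ fr k A,
      if (fr j A).card * (s - j + (fr j A).card) ≤ c then
        g (E s k (insert j A)) (c - (fr j A).card * (s - j + (fr j A).card)) else 0 := by
  unfold mt
  rw [length_E]
  refine sum_bij (fun q _ => gd (pend k A) q) ?_ ?_ ?_ ?_
  · intro q hq
    rw [mem_range] at hq
    exact (pend_getD k A q hq).1
  · intro q hq q' hq' heq
    rw [mem_range] at hq hq'
    have h1 := (pend_getD k A q hq).2.1
    have h2 := (pend_getD k A q' hq').2.1
    rw [heq] at h1
    omega
  · intro j hj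
    rw [mem_fr, ← mem_pend] at hj
    obtain ⟨q, hq, h⟩ := List.getElem_of_mem hj
    refine ⟨q, mem_range.2 hq, ?_⟩
    unfold gd
    rw [List.getD_eq_getElem _ _ hq, h]
  · intro q hq
    rw [mem_range] at hq
    rw [(pend_getD k A q hq).2.1, gd_E hq, E_erase hq]

theorem mt_sum' (g : List ℕ → ℕ → ℕ) (s k : ℕ) (A : Finset ℕ) (C t : ℕ) :
    (if C ≤ t then mt g (E s k A) (t - C) else 0) = ∑ j ∈ fr k A,
      if C + (fr j A).card * (s - j + (fr j A).card) ≤ t then
        g (E s k (insert j A)) (t - (C + (fr j A).card * (s - j + (fr j A).card))) else 0 := by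
  split_ifs with h
  · rw [mt_sum]
    refine sum_congr rfl fun j _ => ?_
    have e : t - (C + (fr j A).card * (s - j + (fr j A).card)) =
        t - C - (fr j A).card * (s - j + (fr j A).card) := by omega
    rw [e]
    refine if_congr ?_ rfl rfl
    omega
  · symm
    refine sum_eq_zero fun j _ => ?_
    rw [if_neg]
    omega

theorem notMem_dm {m n : ℕ} {M : Finset (ℕ × ℕ)} (h : M ∈ Rk m n) : m ∉ dm M := by
  intro h1
  obtain ⟨b, hb⟩ := mem_dm.1 h1
  have := ((mem_Rk.1 h).1 _ hb).1
  simp at this

theorem notMem_rg {m n : ℕ} {M : Finset (ℕ × ℕ)} (h : M ∈ Rk m n) : n ∉ rg M := by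
  intro h1
  obtain ⟨b, hb⟩ := mem_rg.1 h1
  have := ((mem_Rk.1 h).1 _ hb).2
  simp at this

theorem stageA (G : List ℕ → List ℕ → ℕ → ℕ) (s t : ℕ) :
    ∑ M ∈ Rk s s, (if cost M ≤ t then stA G (E s s (dm M)) (E s s (rg M)) (t - cost M) else 0) =
      ∑ M ∈ Rk s (s + 1),
        (if cost M ≤ t then G (E s s (dm M)) (E s (s + 1) (rg M)) (t - cost M) else 0) := by
  rw [sum_col]
  refine sum_congr rfl fun M hM => ?_
  have h1 : (if cost M ≤ t then stA G (E s s (dm M)) (E s s (rg M)) (t - cost M) else 0) =
      (if cost M ≤ t then G (E s s (dm M)) (E s (s + 1) (rg M)) (t - cost M) else 0) +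
      (if cost M ≤ t then mt (fun a' c' => G a' (E s s (rg M)) c') (E s s (dm M)) (t - cost M)
        else 0) := by
    split_ifs with h
    · unfold stA
      rw [E_succ_of_notMem (notMem_rg hM)]
    · rfl
  rw [h1, mt_sum']
  congr 1
  refine sum_congr rfl fun j hj => ?_
  have hjs : j ≤ s := (mem_fr.1 hj).1.le
  rw [cost_col hM hj hjs, dm_insert, rg_insert, E_succ_insert]

theorem stageB (F : List ℕ → List ℕ → ℕ → ℕ) (s t : ℕ) :
    ∑ M ∈ Rk s (s + 1),
        (if cost M ≤ t then stB F (E s s (dm M)) (E s (s + 1) (rg M)) (t - cost M) else 0) =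
      ∑ M ∈ Rk (s + 1) (s + 1),
        (if cost M ≤ t then F (E (s + 1) (s + 1) (dm M)) (E (s + 1) (s + 1) (rg M)) (t - cost M)
          else 0) := by
  rw [sum_row]
  refine sum_congr rfl fun M hM => ?_
  have h1 : (if cost M ≤ t then stB F (E s s (dm M)) (E s (s + 1) (rg M)) (t - cost M) else 0) =
      (if cost M ≤ t then F (E (s + 1) (s + 1) (dm M)) (E (s + 1) (s + 1) (rg M)) (t - cost M)
        else 0) +
      (if cost M ≤ t then mt (fun b' c' => F (inc (E s s (dm M))) (inc b') c')
        (E s (s + 1) (rg M)) (t - cost M) else 0) := by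
    split_ifs with h
    · unfold stB
      rw [E_inc _ le_rfl, E_inc _ le_rfl, E_succ_of_notMem (notMem_dm hM)]
    · rfl
  rw [h1, mt_sum']
  congr 1
  refine sum_congr rfl fun j hj => ?_
  have hjs : j ≤ s := by have := (mem_fr.1 hj).1; omega
  rw [cost_row hM hj hjs, dm_insert, rg_insert, E_inc _ le_rfl, E_inc _ le_rfl, E_succ_insert]

/-- The invariant of the scan. -/
noncomputable def Phi (t s l : ℕ) : ℕ :=
  ∑ M ∈ Rk s s, (if cost M ≤ t then R l (E s s (dm M)) (E s s (rg M)) (t - cost M) else 0)

theorem Phi_succ (t s l : ℕ) : Phi t s (l + 1) = Phi t (s + 1) l := by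
  unfold Phi
  change ∑ M ∈ Rk s s, (if cost M ≤ t then
    stA (stB (R l)) (E s s (dm M)) (E s s (rg M)) (t - cost M) else 0) = _
  rw [stageA, stageB]

theorem Phi_const (t l s : ℕ) : Phi t s l = Phi t (s + l) 0 := by
  induction l generalizing s with
  | zero => rfl
  | succ l ih => rw [Phi_succ, ih, show s + 1 + l = s + (l + 1) by omega]

theorem Phi_zero (t l : ℕ) : Phi t 0 l = R l [] [] t := by
  unfold Phi
  have h : Rk 0 0 = {∅} := by
    ext M
    rw [mem_Rk, mem_singleton]
    constructor
    · rintro ⟨h1, _⟩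
      by_contra hne
      obtain ⟨p, hp⟩ := nonempty_iff_ne_empty.2 hne
      have := h1 p hp
      omega
    · rintro rfl
      exact ⟨fun p hp => absurd hp (notMem_empty _), fun p hp => absurd hp (notMem_empty _)⟩
  rw [h, sum_singleton]
  have hc : cost ∅ = 0 := rfl
  rw [hc, if_pos (Nat.zero_le _)]
  rfl

theorem E_eq_nil {s k : ℕ} {A : Finset ℕ} : E s k A = [] ↔ fr k A = ∅ := by
  rw [← card_eq_zero, ← length_pend, List.length_eq_zero_iff]
  unfold E
  rw [List.map_eq_nil_iff]

theorem R_eq (t n : ℕ) : R n [] [] t =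
    ((Rk n n).filter (fun M => cost M ≤ t ∧ fr n (dm M) = ∅ ∧ fr n (rg M) = ∅)).card := by
  rw [← Phi_zero, Phi_const, zero_add, card_filter]
  unfold Phi
  refine sum_congr rfl fun M _ => ?_
  change (if cost M ≤ t then (if E n n (dm M) = [] ∧ E n n (rg M) = [] then 1 else 0) else 0) = _
  rw [← ite_and]
  refine if_congr ?_ rfl rfl
  rw [E_eq_nil, E_eq_nil]

end Pool.Agent.H224R3.Fu
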