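import Pool.Agent.H224R3.Fu5

set_option autoImplicit false

namespace Pool.Agent.H224R3.Fu

open Finset

/-- Graph of a permutation. -/
def gr {n : ℕ} (σ : Equiv.Perm (Fin n)) : Finset (ℕ × ℕ) :=
  (univ : Finset (Fin n)).image (fun i => (i.val, (σ i).val))

theorem gr_inj {n : ℕ} (σ : Equiv.Perm (Fin n)) :
    Function.Injective (fun i : Fin n => (i.val, (σ i).val)) := by
  intro i j h
  exact Fin.ext (Prod.mk.inj h).1

theorem mem_gr {n : ℕ} {σ : Equiv.Perm (Fin n)} {p : ℕ × ℕ} :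
    p ∈ gr σ ↔ ∃ i : Fin n, i.val = p.1 ∧ (σ i).val = p.2 := by
  unfold gr
  rw [mem_image]
  constructor
  · rintro ⟨i, _, rfl⟩
    exact ⟨i, rfl, rfl⟩
  · rintro ⟨i, h1, h2⟩
    exact ⟨i, mem_univ _, Prod.ext h1 h2⟩

theorem gr_mem_Rk {n : ℕ} (σ : Equiv.Perm (Fin n)) : gr σ ∈ Rk n n := by
  rw [mem_Rk]
  constructor
  · intro p hp
    obtain ⟨i, h1, h2⟩ := mem_gr.1 hp
    rw [← h1, ← h2]
    exact ⟨i.isLt, (σ i).isLt⟩
  · intro p hp q hq hpq
    obtain ⟨i, h1, h2⟩ := mem_gr.1 hp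
    obtain ⟨j, h3, h4⟩ := mem_gr.1 hq
    have hij : i = j := by
      rcases hpq with h | h
      · exact Fin.ext (by rw [h1, h3, h])
      · exact σ.injective (Fin.ext (by rw [h2, h4, h]))
    subst hij
    exact Prod.ext (by rw [← h1, ← h3]) (by rw [← h2, ← h4])

theorem fr_dm_gr {n : ℕ} (σ : Equiv.Perm (Fin n)) : fr n (dm (gr σ)) = ∅ := by
  rw [eq_empty_iff_forall_notMem]
  intro j hj
  rw [mem_fr] at hj
  exact hj.2 (mem_dm.2 ⟨σ ⟨j, hj.1⟩, mem_gr.2 ⟨⟨j, hj.1⟩, rfl, rfl⟩⟩)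

theorem fr_rg_gr {n : ℕ} (σ : Equiv.Perm (Fin n)) : fr n (rg (gr σ)) = ∅ := by
  rw [eq_empty_iff_forall_notMem]
  intro j hj
  rw [mem_fr] at hj
  refine hj.2 (mem_rg.2 ⟨σ.symm ⟨j, hj.1⟩, mem_gr.2 ⟨σ.symm ⟨j, hj.1⟩, rfl, ?_⟩⟩)
  rw [Equiv.apply_symm_apply]

/-- Number of `321` copies. -/
def cnt {n : ℕ} (σ : Equiv.Perm (Fin n)) : ℕ :=
  ((Finset.univ : Finset (Fin n × Fin n × Fin n)).filter (fun p : Fin n × Fin n × Fin n =>
    p.1 < p.2.1 ∧ p.2.1 < p.2.2 ∧ σ p.2.2 < σ p.2.1 ∧ σ p.2.1 < σ p.1)).card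

theorem ws_gr {n : ℕ} (σ : Equiv.Perm (Fin n)) (i : Fin n) :
    ws (gr σ) (i.val, (σ i).val) =
      ((univ : Finset (Fin n)).filter (fun j => j < i ∧ σ j < σ i)).card := by
  unfold ws gr
  rw [filter_image, card_image_of_injective _ (gr_inj σ)]
  rfl

theorem card_lt {n : ℕ} (i : Fin n) :
    ((univ : Finset (Fin n)).filter (fun j => j < i)).card = i.val := by
  rw [← Fin.card_Iio i]
  congr 1
  ext j
  rw [mem_filter, mem_Iio]
  exact and_iff_right (mem_univ _)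

theorem left_card {n : ℕ} (σ : Equiv.Perm (Fin n)) (i : Fin n) :
    i.val - ws (gr σ) (i.val, (σ i).val) =
      ((univ : Finset (Fin n)).filter (fun j => j < i ∧ σ i < σ j)).card := by
  rw [ws_gr]
  have h := card_filter_add_card_filter_not
    (s := (univ : Finset (Fin n)).filter (fun j => j < i)) (fun j => σ j < σ i)
  rw [card_lt, filter_filter, filter_filter] at h
  have e : (univ : Finset (Fin n)).filter (fun j => j < i ∧ ¬ σ j < σ i) =
      (univ : Finset (Fin n)).filter (fun j => j < i ∧ σ i < σ j) := by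
    refine filter_congr fun j _ => ?_
    refine and_congr_right fun hj => ?_
    rw [not_lt]
    constructor
    · intro h1
      refine lt_of_le_of_ne h1 fun h2 => ?_
      have := σ.injective h2
      omega
    · exact le_of_lt
  rw [e] at h
  omega

theorem right_card {n : ℕ} (σ : Equiv.Perm (Fin n)) (i : Fin n) :
    (σ i).val - ws (gr σ) (i.val, (σ i).val) =
      ((univ : Finset (Fin n)).filter (fun j => i < j ∧ σ j < σ i)).card := by
  rw [ws_gr]
  have h := card_filter_add_card_filter_not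
    (s := (univ : Finset (Fin n)).filter (fun j => σ j < σ i)) (fun j => j < i)
  rw [filter_filter, filter_filter] at h
  have e0 : ((univ : Finset (Fin n)).filter (fun j => σ j < σ i)).card = (σ i).val := by
    rw [← card_lt (σ i), ← card_image_of_injective _ σ.injective]
    congr 1
    ext k
    rw [mem_image, mem_filter]
    constructor
    · rintro ⟨j, hj, rfl⟩
      rw [mem_filter] at hj
      exact ⟨mem_univ _, hj.2⟩
    · rintro ⟨_, hk⟩
      refine ⟨σ.symm k, mem_filter.2 ⟨mem_univ _, ?_⟩, by rw [Equiv.apply_symm_apply]⟩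
      rw [Equiv.apply_symm_apply]
      exact hk
  have e : (univ : Finset (Fin n)).filter (fun j => σ j < σ i ∧ ¬ j < i) =
      (univ : Finset (Fin n)).filter (fun j => i < j ∧ σ j < σ i) := by
    refine filter_congr fun j _ => ?_
    rw [and_comm]
    refine and_congr_left fun hj => ?_
    rw [not_lt]
    constructor
    · intro h1
      refine lt_of_le_of_ne h1 fun h2 => ?_
      subst h2
      exact lt_irrefl _ hj
    · exact le_of_lt
  have e1 : (univ : Finset (Fin n)).filter (fun j => σ j < σ i ∧ j < i) =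
      (univ : Finset (Fin n)).filter (fun j => j < i ∧ σ j < σ i) := by
    refine filter_congr fun j _ => ?_
    rw [and_comm]
  rw [e, e1, e0] at h
  omega

theorem cost_gr {n : ℕ} (σ : Equiv.Perm (Fin n)) : cost (gr σ) = cnt σ := by
  have h1 : cost (gr σ) = ∑ i : Fin n,
      (i.val - ws (gr σ) (i.val, (σ i).val)) * ((σ i).val - ws (gr σ) (i.val, (σ i).val)) := by
    unfold cost
    conv_lhs => rw [show gr σ = (univ : Finset (Fin n)).image (fun i => (i.val, (σ i).val))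
      from rfl]
    rw [sum_image (fun a _ b _ h => gr_inj σ h)]
    rfl
  rw [h1]
  unfold cnt
  have h2 : ((Finset.univ : Finset (Fin n × Fin n × Fin n)).filter (fun p =>
      p.1 < p.2.1 ∧ p.2.1 < p.2.2 ∧ σ p.2.2 < σ p.2.1 ∧ σ p.2.1 < σ p.1)).card =
      ∑ i : Fin n, (((Finset.univ : Finset (Fin n × Fin n × Fin n)).filter (fun p =>
      p.1 < p.2.1 ∧ p.2.1 < p.2.2 ∧ σ p.2.2 < σ p.2.1 ∧ σ p.2.1 < σ p.1)).filter
        (fun p => p.2.1 = i)).card := by
    exact card_eq_sum_card_fiberwise (fun p _ => mem_univ p.2.1)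
  rw [h2]
  refine sum_congr rfl fun i _ => ?_
  rw [left_card, right_card, ← card_product]
  refine card_bij (fun p _ => (p.1, i, p.2)) ?_ ?_ ?_
  · rintro ⟨a, c⟩ hp
    rw [mem_product, mem_filter, mem_filter] at hp
    rw [mem_filter, mem_filter]
    exact ⟨⟨mem_univ _, hp.1.2.1, hp.2.2.1, hp.2.2.2, hp.1.2.2⟩, rfl⟩
  · rintro ⟨a, c⟩ _ ⟨a', c'⟩ _ h
    simp only [Prod.mk.injEq, true_and] at h
    exact Prod.ext h.1 h.2
  · rintro ⟨a, b, c⟩ hp
    rw [mem_filter, mem_filter] at hp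
    obtain ⟨⟨_, h3, h4, h5, h6⟩, h7⟩ := hp
    simp only at h3 h4 h5 h6 h7
    subst h7
    refine ⟨(a, c), ?_, rfl⟩
    rw [mem_product, mem_filter, mem_filter]
    exact ⟨⟨mem_univ _, h3, h6⟩, ⟨mem_univ _, h4, h5⟩⟩

theorem gr_injective {n : ℕ} : Function.Injective (gr (n := n)) := by
  intro σ τ h
  ext i
  have h1 : (i.val, (σ i).val) ∈ gr τ := by
    rw [← h]
    exact mem_gr.2 ⟨i, rfl, rfl⟩
  obtain ⟨j, h2, h3⟩ := mem_gr.1 h1
  have : j = i := Fin.ext h2
  subst this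
  exact h3.symm

theorem gr_surj {n : ℕ} {M : Finset (ℕ × ℕ)} (hM : M ∈ Rk n n) (h1 : fr n (dm M) = ∅) :
    ∃ σ : Equiv.Perm (Fin n), gr σ = M := by
  rw [mem_Rk] at hM
  obtain ⟨hb, hr⟩ := hM
  have h2 : ∀ i : Fin n, ∃ b : Fin n, (i.val, b.val) ∈ M := by
    intro i
    have h3 : i.val ∈ dm M := by
      by_contra h4
      have : i.val ∈ fr n (dm M) := mem_fr.2 ⟨i.isLt, h4⟩
      rw [h1] at this
      exact absurd this (notMem_empty _)
    obtain ⟨b, hb'⟩ := mem_dm.1 h3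
    exact ⟨⟨b, (hb _ hb').2⟩, hb'⟩
  choose f hf using h2
  have hinj : Function.Injective f := by
    intro i j hij
    have := hr _ (hf i) _ (hf j) (Or.inr (by rw [hij]))
    exact Fin.ext (Prod.mk.inj this).1
  refine ⟨Equiv.ofBijective f (Finite.injective_iff_bijective.1 hinj), ?_⟩
  ext ⟨a, b⟩
  rw [mem_gr]
  constructor
  · rintro ⟨i, h3, h4⟩
    rw [Equiv.ofBijective_apply] at h4
    simp only at h3 h4
    rw [← h3, ← h4]
    exact hf i
  · intro hab
    refine ⟨⟨a, (hb _ hab).1⟩, rfl, ?_⟩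
    rw [Equiv.ofBijective_apply]
    have := hr _ hab _ (hf ⟨a, (hb _ hab).1⟩) (Or.inl rfl)
    exact (Prod.mk.inj this).2.symm

theorem count_eq (t n : ℕ) :
    ((Finset.univ : Finset (Equiv.Perm (Fin n))).filter (fun σ => cnt σ ≤ t)).card =
      R n [] [] t := by
  rw [R_eq]
  refine card_bij (fun σ _ => gr σ) ?_ ?_ ?_
  · intro σ hσ
    rw [mem_filter] at hσ ⊢
    exact ⟨gr_mem_Rk σ, by rw [cost_gr]; exact hσ.2, fr_dm_gr σ, fr_rg_gr σ⟩
  · intro σ _ τ _ h
    exact gr_injective h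
  · intro M hM
    rw [mem_filter] at hM
    obtain ⟨σ, hσ⟩ := gr_surj hM.1 hM.2.2.1
    refine ⟨σ, ?_, hσ⟩
    rw [mem_filter]
    refine ⟨mem_univ _, ?_⟩
    rw [← cost_gr, hσ]
    exact hM.2.1

end Pool.Agent.H224R3.Fu
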