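import Mathlib

set_option autoImplicit false

namespace Pool.Agent.H224R3.Kl

open Finset

variable {V : Type*} [DecidableEq V]

/-- Connectedness of a finite vertex set, in terms of cuts. -/
def Conn (G : SimpleGraph V) (S : Finset V) : Prop :=
  S.Nonempty ∧ ∀ X : Set V, (∀ x ∈ S, x ∈ X → ∀ y ∈ S, y ∉ X → ¬ G.Adj x y) →
    (∀ x ∈ S, x ∈ X) ∨ (∀ x ∈ S, x ∉ X)

theorem conn_iff (G : SimpleGraph V) (S : Finset V) :
    (G.induce (S : Set V)).Connected ↔ Conn G S := by
  classical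
  constructor
  · intro h
    obtain ⟨⟨s, hs⟩⟩ := h.nonempty
    refine ⟨⟨s, hs⟩, fun X hX => ?_⟩
    by_contra hcon
    push Not at hcon
    obtain ⟨⟨b, hb, hbX⟩, ⟨a, ha, haX⟩⟩ := hcon
    obtain ⟨w⟩ := h.preconnected ⟨a, ha⟩ ⟨b, hb⟩
    obtain ⟨d, _, hd1, hd2⟩ := w.exists_boundary_dart {x | (x : V) ∈ X} haX hbX
    exact hX d.fst.1 d.fst.2 hd1 d.snd.1 d.snd.2 hd2 d.adj
  · rintro ⟨⟨s, hs⟩, h⟩
    have : Nonempty (S : Set V) := ⟨⟨s, hs⟩⟩
    refine SimpleGraph.Connected.mk (fun u v => ?_)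
    have hcl : ∀ x ∈ S, x ∈ {x | ∃ hx : x ∈ (S : Set V),
        (G.induce (S : Set V)).Reachable u ⟨x, hx⟩} → ∀ y ∈ S, y ∉ {x | ∃ hx : x ∈ (S : Set V),
        (G.induce (S : Set V)).Reachable u ⟨x, hx⟩} → ¬ G.Adj x y := by
      rintro x hx ⟨hx', hr⟩ y hy hyn hadj
      apply hyn
      refine ⟨hy, hr.trans ?_⟩
      apply SimpleGraph.Adj.reachable
      exact hadj
    rcases h _ hcl with h1 | h1
    · obtain ⟨_, h2⟩ := h1 v.1 v.2
      exact h2
    · exact absurd ⟨u.2, SimpleGraph.Reachable.refl _⟩ (h1 u.1 u.2)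

variable {G : SimpleGraph V}

theorem conn_singleton (v : V) : Conn G {v} := by
  refine ⟨⟨v, mem_singleton_self v⟩, fun X _ => ?_⟩
  by_cases h : v ∈ X
  · left; intro x hx; rw [mem_singleton] at hx; rwa [hx]
  · right; intro x hx; rw [mem_singleton] at hx; rwa [hx]

theorem Conn.union {A B : Finset V} (hA : Conn G A) (hB : Conn G B) {a b : V} (ha : a ∈ A)
    (hb : b ∈ B) (hab : G.Adj a b) : Conn G (A ∪ B) := by
  refine ⟨hA.1.mono subset_union_left, fun X hX => ?_⟩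
  have h1 := hA.2 X (fun x hx hxX y hy hyX => hX x (mem_union_left _ hx) hxX y
    (mem_union_left _ hy) hyX)
  have h2 := hB.2 X (fun x hx hxX y hy hyX => hX x (mem_union_right _ hx) hxX y
    (mem_union_right _ hy) hyX)
  rcases h1 with h1 | h1 <;> rcases h2 with h2 | h2
  · left
    intro x hx
    rcases mem_union.1 hx with h | h
    · exact h1 x h
    · exact h2 x h
  · exact absurd hab (hX a (mem_union_left _ ha) (h1 a ha) b (mem_union_right _ hb) (h2 b hb))
  · exact absurd hab.symm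
      (hX b (mem_union_right _ hb) (h2 b hb) a (mem_union_left _ ha) (h1 a ha))
  · right
    intro x hx
    rcases mem_union.1 hx with h | h
    · exact h1 x h
    · exact h2 x h

theorem exists_comp (G : SimpleGraph V) (X : Finset V) (w : V) (hw : w ∈ X) :
    ∃ C ⊆ X, w ∈ C ∧ Conn G C ∧ ∀ c ∈ C, ∀ x ∈ X, x ∉ C → ¬ G.Adj c x := by
  classical
  obtain ⟨C, hC, hmax⟩ := exists_max_image
    (X.powerset.filter (fun C => w ∈ C ∧ Conn G C)) (fun C => C.card)
    ⟨{w}, by
      rw [mem_filter, mem_powerset]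
      exact ⟨singleton_subset_iff.2 hw, mem_singleton_self w, conn_singleton w⟩⟩
  rw [mem_filter, mem_powerset] at hC
  refine ⟨C, hC.1, hC.2.1, hC.2.2, fun c hc x hx hxC hadj => ?_⟩
  have h1 := hmax (C ∪ {x}) (by
    rw [mem_filter, mem_powerset]
    exact ⟨union_subset hC.1 (singleton_subset_iff.2 hx), mem_union_left _ hC.2.1,
      hC.2.2.union (conn_singleton x) hc (mem_singleton_self x) hadj⟩)
  have h2 : C.card < (C ∪ {x}).card := by
    apply card_lt_card
    rw [ssubset_iff_of_subset subset_union_left]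
    exact ⟨x, mem_union_right _ (mem_singleton_self x), hxC⟩
  omega

theorem conn_compl {S B C : Finset V} (hS : Conn G S) (hB : Conn G B) (hBS : B ⊆ S)
    (hBC : Disjoint B C) (hC : ∀ c ∈ C, ∀ x ∈ S, x ∉ B → x ∉ C → ¬ G.Adj c x) (hCS : C ⊆ S) :
    Conn G (S \ C) := by
  have hBSC : B ⊆ S \ C := fun x hx => mem_sdiff.2 ⟨hBS hx, Finset.disjoint_left.1 hBC hx⟩
  refine ⟨hB.1.mono hBSC, fun X hX => ?_⟩
  have key : ∀ Y : Set V, (∀ y ∈ Y, y ∈ S \ C) → (∀ y ∈ B, y ∉ Y) →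
      (∀ y ∈ Y, ∀ z ∈ S \ C, z ∉ Y → ¬ G.Adj y z) → ∀ y ∈ S, y ∉ Y := by
    intro Y hY1 hY2 hY3
    have hcl : ∀ x ∈ S, x ∈ Y → ∀ y ∈ S, y ∉ Y → ¬ G.Adj x y := by
      intro x hx hxY y hy hyY hadj
      by_cases hyC : y ∈ C
      · exact hC y hyC x hx (fun hxB => hY2 x hxB hxY) (mem_sdiff.1 (hY1 x hxY)).2 hadj.symm
      · exact hY3 x hxY y (mem_sdiff.2 ⟨hy, hyC⟩) hyY hadj
    rcases hS.2 Y hcl with h | h
    · obtain ⟨b, hb⟩ := hB.1
      exact absurd (h b (hBS hb)) (hY2 b hb)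
    · exact h
  rcases hB.2 X (fun x hx hxX y hy hyX => hX x (hBSC hx) hxX y (hBSC hy) hyX) with h | h
  · left
    have h1 := key {y | y ∈ S \ C ∧ y ∉ X} (fun y hy => hy.1) (fun y hy hy' => hy'.2 (h y hy))
      (by
        rintro y ⟨hy, hyX⟩ z hz hzn hadj
        have hzX : z ∈ X := by
          by_contra hzX
          exact hzn ⟨hz, hzX⟩
        exact hX z hz hzX y hy hyX hadj.symm)
    intro x hx
    by_contra hxX
    exact h1 x (mem_sdiff.1 hx).1 ⟨hx, hxX⟩
  · right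
    have h1 := key {y | y ∈ S \ C ∧ y ∈ X} (fun y hy => hy.1) (fun y hy hy' => h y hy hy'.2)
      (by
        rintro y ⟨hy, hyX⟩ z hz hzn hadj
        have hzX : z ∉ X := by
          intro hzX
          exact hzn ⟨hz, hzX⟩
        exact hX y hy hyX z hz hzX hadj)
    intro x hx hxX
    exact h1 x (mem_sdiff.1 hx).1 ⟨hx, hxX⟩

theorem improve (N : V → Finset V) (hN : ∀ v, (N v).card ≤ 4) (hadj : ∀ v w, G.Adj v w → w ∈ N v)
    {S A : Finset V} (hS : Conn G S) (hAS : A ⊆ S) (hA : Conn G A) (hB : Conn G (S \ A))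
    (hlt : 4 * A.card + 1 < S.card) :
    ∃ C ⊆ S, Conn G C ∧ Conn G (S \ C) ∧ A.card < C.card ∧ A.card < (S \ C).card := by
  classical
  obtain ⟨a, ha, b, hb, hab⟩ : ∃ a ∈ A, ∃ b ∈ S \ A, G.Adj a b := by
    by_contra hcon
    push Not at hcon
    rcases hS.2 (A : Set V) (fun x _ hxA y hy hyA => hcon x hxA y (mem_sdiff.2 ⟨hy, hyA⟩)) with h | h
    · obtain ⟨b, hb⟩ := hB.1
      exact (mem_sdiff.1 hb).2 (h b (mem_sdiff.1 hb).1)
    · obtain ⟨a, ha⟩ := hA.1
      exact h a (hAS ha) ha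
  have hbS := (mem_sdiff.1 hb).1
  have hbA := (mem_sdiff.1 hb).2
  set B' := (S \ A).erase b with hB'
  have hcard : B'.card + A.card + 1 = S.card := by
    have h1 : B'.card + 1 = (S \ A).card := card_erase_add_one hb
    have h2 := card_sdiff_add_card_eq_card hAS
    omega
  have hB'S : B' ⊆ S := (erase_subset _ _).trans sdiff_subset
  set M := (N b) ∩ B' with hM
  have hMcard : M.card ≤ 3 := by
    have h1 : M ⊆ (N b).erase a := by
      intro x hx
      rw [hM, mem_inter] at hx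
      refine mem_erase.2 ⟨?_, hx.1⟩
      rintro rfl
      exact (mem_sdiff.1 (mem_erase.1 hx.2).2).2 ha
    have h2 := card_le_card h1
    have h3 := card_erase_add_one (hadj b a hab.symm)
    have h4 := hN b
    omega
  choose! C hC1 hC2 hC3 hC4 using fun (w : V) (hw : w ∈ B') => exists_comp G B' w hw
  have hcover : B' ⊆ M.biUnion C := by
    intro x hx
    by_contra hxn
    have h0 : ∀ w ∈ M, w ∈ B' := fun w hw => (mem_inter.1 hw).2
    have hcl : ∀ u ∈ S \ A, u ∈ {y | y ∈ B' ∧ y ∉ M.biUnion C} → ∀ v ∈ S \ A,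
        v ∉ {y | y ∈ B' ∧ y ∉ M.biUnion C} → ¬ G.Adj u v := by
      rintro u hu ⟨huB, huC⟩ v hv hvn huv
      by_cases hvb : v = b
      · rw [hvb] at huv
        have huM : u ∈ M := mem_inter.2 ⟨hadj b u huv.symm, huB⟩
        exact huC (mem_biUnion.2 ⟨u, huM, hC2 u huB⟩)
      · have hvB : v ∈ B' := mem_erase.2 ⟨hvb, hv⟩
        have hvC : v ∈ M.biUnion C := by
          by_contra hvC
          exact hvn ⟨hvB, hvC⟩
        obtain ⟨w, hw, hvw⟩ := mem_biUnion.1 hvC
        refine hC4 w (h0 w hw) v hvw u huB ?_ huv.symm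
        intro huw
        exact huC (mem_biUnion.2 ⟨w, hw, huw⟩)
    rcases hB.2 _ hcl with h | h
    · exact absurd (h b hb).1 (by rw [hB']; simp)
    · exact h x (mem_erase.1 hx).2 ⟨hx, hxn⟩
  obtain ⟨w, hw, hw3⟩ : ∃ w ∈ M, B'.card ≤ 3 * (C w).card := by
    by_contra hcon
    push Not at hcon
    have h1 : B'.card ≤ ∑ w ∈ M, (C w).card := (card_le_card hcover).trans card_biUnion_le
    have h2 : ∑ w ∈ M, 3 * (C w).card ≤ ∑ w ∈ M, (B'.card - 1) :=
      sum_le_sum fun w hw => by have := hcon w hw; omega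
    rw [← mul_sum, sum_const, smul_eq_mul] at h2
    have h3 : M.card * (B'.card - 1) ≤ 3 * (B'.card - 1) := Nat.mul_le_mul_right _ hMcard
    have h4 : 0 < B'.card := by omega
    omega
  have hwB : w ∈ B' := (mem_inter.1 hw).2
  have hbA' : Conn G (A ∪ {b}) := hA.union (conn_singleton b) ha (mem_singleton_self b) hab
  have hdisj : Disjoint (A ∪ {b}) (C w) := by
    rw [Finset.disjoint_left]
    intro x hx hxC
    have hxB := hC1 w hwB hxC
    rcases mem_union.1 hx with h | h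
    · exact (mem_sdiff.1 (mem_erase.1 hxB).2).2 h
    · exact (mem_erase.1 hxB).1 (mem_singleton.1 h)
  have hsub : A ∪ {b} ⊆ S := union_subset hAS (singleton_subset_iff.2 hbS)
  refine ⟨C w, (hC1 w hwB).trans hB'S, hC3 w hwB, ?_, by omega, ?_⟩
  · refine conn_compl hS hbA' hsub hdisj ?_ ((hC1 w hwB).trans hB'S)
    intro c hc x hx hxA hxC
    refine hC4 w hwB c hc x ?_ hxC
    rw [mem_union, mem_singleton, not_or] at hxA
    exact mem_erase.2 ⟨hxA.2, mem_sdiff.2 ⟨hx, hxA.1⟩⟩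
  · have h1 : A ∪ {b} ⊆ S \ C w := fun x hx => mem_sdiff.2 ⟨hsub hx, Finset.disjoint_left.1 hdisj hx⟩
    have h2 := card_le_card h1
    have h3 : (A ∪ {b}).card = A.card + 1 := by
      rw [card_union_of_disjoint (by simpa using hbA), card_singleton]
    omega

theorem exists_split (N : V → Finset V) (hN : ∀ v, (N v).card ≤ 4)
    (hadj : ∀ v w, G.Adj v w → w ∈ N v) {S : Finset V} (hS : Conn G S) (h2 : 2 ≤ S.card) :
    ∃ A ⊆ S, Conn G A ∧ Conn G (S \ A) ∧ S.card ≤ 4 * A.card + 1 ∧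
      S.card ≤ 4 * (S \ A).card + 1 := by
  classical
  obtain ⟨s, hs⟩ := hS.1
  obtain ⟨w, hw⟩ : (S.erase s).Nonempty := by
    rw [← card_pos, card_erase_of_mem hs]; omega
  obtain ⟨C, hC1, hC2, hC3, hC4⟩ := exists_comp G (S.erase s) w hw
  have hstart : Conn G (S \ C) := by
    refine conn_compl hS (conn_singleton s) (singleton_subset_iff.2 hs) ?_ ?_
      (hC1.trans (erase_subset _ _))
    · rw [Finset.disjoint_singleton_left]
      intro h
      exact (mem_erase.1 (hC1 h)).1 rfl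
    · intro c hc x hx hxs hxC
      rw [mem_singleton] at hxs
      exact hC4 c hc x (mem_erase.2 ⟨hxs, hx⟩) hxC
  obtain ⟨A, hA, hmax⟩ := exists_max_image
    (S.powerset.filter (fun C => Conn G C ∧ Conn G (S \ C))) (fun C => min C.card (S \ C).card)
    ⟨C, by
      rw [mem_filter, mem_powerset]
      exact ⟨hC1.trans (erase_subset _ _), hC3, hstart⟩⟩
  rw [mem_filter, mem_powerset] at hA
  have h3 : S \ (S \ A) = A := by
    rw [sdiff_sdiff_right_self]
    exact inter_eq_right.2 hA.1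
  refine ⟨A, hA.1, hA.2.1, hA.2.2, ?_, ?_⟩
  · by_contra hcon
    push Not at hcon
    obtain ⟨D, hD1, hD2, hD3, hD4, hD5⟩ := improve N hN hadj hS hA.1 hA.2.1 hA.2.2 hcon
    have h1 := hmax D (by rw [mem_filter, mem_powerset]; exact ⟨hD1, hD2, hD3⟩)
    have h4 : A.card < min D.card (S \ D).card := lt_min hD4 hD5
    have h5 : min A.card (S \ A).card ≤ A.card := min_le_left _ _
    omega
  · by_contra hcon
    push Not at hcon
    obtain ⟨D, hD1, hD2, hD3, hD4, hD5⟩ := improve N hN hadj hS (sdiff_subset (s := S) (t := A))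
      hA.2.2 (by rw [h3]; exact hA.2.1) hcon
    have h1 := hmax D (by rw [mem_filter, mem_powerset]; exact ⟨hD1, hD2, hD3⟩)
    have h4 : (S \ A).card < min D.card (S \ D).card := lt_min hD4 hD5
    have h5 : min A.card (S \ A).card ≤ (S \ A).card := min_le_right _ _
    omega

end Pool.Agent.H224R3.Kl
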