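import Pool.Agent.H224R3.Kl1

set_option autoImplicit false

namespace Pool.Agent.H224R3.Kl

open Finset

/-- The square lattice: two cells (labelled by `ℤ × ℤ`) are adjacent when they share an edge. -/
def grid : SimpleGraph (ℤ × ℤ) where
  Adj p q := |p.1 - q.1| + |p.2 - q.2| = 1
  symm := ⟨fun p q h => by rw [abs_sub_comm q.1, abs_sub_comm q.2]; exact h⟩
  loopless := ⟨fun p h => by simp at h⟩

/-- An `n`-omino: a connected set of `n` cells. -/
def IsOmino (n : ℕ) (S : Finset (ℤ × ℤ)) : Prop :=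
  S.card = n ∧ (grid.induce (S : Set (ℤ × ℤ))).Connected

/-- The translate of a set of cells by the vector `v`. -/
def shift (v : ℤ × ℤ) (S : Finset (ℤ × ℤ)) : Finset (ℤ × ℤ) := S.image (fun p => p + v)

theorem mem_shift {v p : ℤ × ℤ} {S : Finset (ℤ × ℤ)} : p ∈ shift v S ↔ p - v ∈ S := by
  unfold shift
  rw [mem_image]
  constructor
  · rintro ⟨a, ha, rfl⟩
    simpa using ha
  · intro h
    exact ⟨p - v, h, by simp⟩

theorem shift_shift (v w : ℤ × ℤ) (S : Finset (ℤ × ℤ)) : shift w (shift v S) = shift (v + w) S := by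
  ext p
  rw [mem_shift, mem_shift, mem_shift, sub_sub, add_comm w v]

theorem shift_zero (S : Finset (ℤ × ℤ)) : shift 0 S = S := by
  ext p
  rw [mem_shift, sub_zero]

theorem shift_union (v : ℤ × ℤ) (S T : Finset (ℤ × ℤ)) :
    shift v (S ∪ T) = shift v S ∪ shift v T := by
  ext p
  simp only [mem_shift, mem_union]

theorem card_shift (v : ℤ × ℤ) (S : Finset (ℤ × ℤ)) : (shift v S).card = S.card :=
  card_image_of_injective _ (add_left_injective v)

/-- Translation equivalence of `n`-ominoes; its classes are the fixed `n`-ominoes. -/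
def translate (n : ℕ) : Setoid {S : Finset (ℤ × ℤ) // IsOmino n S} where
  r S T := ∃ v : ℤ × ℤ, T.1 = shift v S.1
  iseqv :=
    { refl := fun S => ⟨0, (shift_zero S.1).symm⟩
      symm := by
        rintro S T ⟨v, hv⟩
        refine ⟨-v, ?_⟩
        rw [hv, shift_shift, add_neg_cancel, shift_zero]
      trans := by
        rintro S T U ⟨v, hv⟩ ⟨w, hw⟩
        refine ⟨v + w, ?_⟩
        rw [hw, hv, shift_shift] }

/-- The number of fixed `n`-ominoes. -/
noncomputable def t (n : ℕ) : ℕ := Nat.card (Quotient (translate n))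

/-- The four unit vectors. -/
def dirs : Finset (ℤ × ℤ) := {(1, 0), (-1, 0), (0, 1), (0, -1)}

theorem adj_iff (p q : ℤ × ℤ) : grid.Adj p q ↔ q - p ∈ dirs := by
  obtain ⟨a, b⟩ := p
  obtain ⟨c, d⟩ := q
  change |a - c| + |b - d| = 1 ↔ _
  simp only [dirs, mem_insert, mem_singleton, Prod.mk_sub_mk, Prod.mk.injEq]
  rcases abs_cases (a - c) with ⟨h1, h2⟩ | ⟨h1, h2⟩ <;>
  rcases abs_cases (b - d) with ⟨h3, h4⟩ | ⟨h3, h4⟩ <;> rw [h1, h3] <;> omega

theorem adj_shift (p q v : ℤ × ℤ) : grid.Adj (p + v) (q + v) ↔ grid.Adj p q := by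
  rw [adj_iff, adj_iff]
  have : q + v - (p + v) = q - p := by abel
  rw [this]

theorem conn_shift {S : Finset (ℤ × ℤ)} (h : Conn grid S) (v : ℤ × ℤ) : Conn grid (shift v S) := by
  refine ⟨h.1.image _, fun X hX => ?_⟩
  have hcl : ∀ x ∈ S, x ∈ {p | p + v ∈ X} → ∀ y ∈ S, y ∉ {p | p + v ∈ X} → ¬ grid.Adj x y :=
    fun x hx hxX y hy hyX hadj => hX (x + v) (mem_shift.2 (by simpa using hx)) hxX (y + v)
      (mem_shift.2 (by simpa using hy)) hyX ((adj_shift x y v).2 hadj)
  rcases h.2 {p | p + v ∈ X} hcl with h1 | h1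
  · left
    intro x hx
    have := h1 (x - v) (mem_shift.1 hx)
    simpa using this
  · right
    intro x hx hxX
    refine h1 (x - v) (mem_shift.1 hx) ?_
    simpa using hxX

theorem isOmino_iff {n : ℕ} {S : Finset (ℤ × ℤ)} : IsOmino n S ↔ S.card = n ∧ Conn grid S := by
  unfold IsOmino
  rw [conn_iff]

theorem IsOmino.shift {n : ℕ} {S : Finset (ℤ × ℤ)} (h : IsOmino n S) (v : ℤ × ℤ) :
    IsOmino n (Kl.shift v S) := by
  rw [isOmino_iff] at h ⊢
  exact ⟨(card_shift v S).trans h.1, conn_shift h.2 v⟩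

/-- A Lipschitz function on a connected set containing a zero of it is less than the size. -/
theorem level_lt {S : Finset (ℤ × ℤ)} (hS : Conn grid S) (f : ℤ × ℤ → ℕ)
    (hf : ∀ p q, grid.Adj p q → f q ≤ f p + 1) {z : ℤ × ℤ} (hz : z ∈ S) (hfz : f z = 0)
    {p : ℤ × ℤ} (hp : p ∈ S) : f p < S.card := by
  have key : ∀ j ≤ f p, ∃ q ∈ S, f q = j := by
    intro j hj
    by_contra hcon
    push Not at hcon
    have h0 : j ≠ 0 := fun h => hcon z hz (hfz.trans h.symm)
    have hcl : ∀ x ∈ S, x ∈ {x | f x < j} → ∀ y ∈ S, y ∉ {x | f x < j} → ¬ grid.Adj x y := by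
      intro x hx hxX y hy hyX hadj
      simp only [Set.mem_ofPred_eq] at hxX hyX
      have h2 := hf x y hadj
      have h3 := hcon y hy
      omega
    rcases hS.2 {x | f x < j} hcl with h1 | h1
    · exact absurd (h1 p hp) (by simpa using hj)
    · exact h1 z hz (by simp only [Set.mem_ofPred_eq]; omega)
  have h1 : range (f p + 1) ⊆ S.image f := by
    intro j hj
    rw [mem_range] at hj
    obtain ⟨q, hq, hqj⟩ := key j (by omega)
    exact mem_image.2 ⟨q, hq, hqj⟩
  have h2 := card_le_card h1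
  have h3 := card_image_le (s := S) (f := f)
  rw [card_range] at h2
  omega

/-- The box `[-n, n]²`. -/
noncomputable def box (n : ℕ) : Finset (ℤ × ℤ) := Icc (-n : ℤ) n ×ˢ Icc (-n : ℤ) n

theorem sub_box {n : ℕ} {S : Finset (ℤ × ℤ)} (hS : IsOmino n S) (h0 : (0 : ℤ × ℤ) ∈ S) :
    S ⊆ box n := by
  rw [isOmino_iff] at hS
  intro p hp
  have h1 := level_lt hS.2 (fun p => p.1.natAbs) (by
    rintro ⟨a, b⟩ ⟨c, d⟩ h
    rw [adj_iff] at h
    simp only [dirs, mem_insert, mem_singleton, Prod.mk_sub_mk, Prod.mk.injEq] at h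
    simp only
    omega) h0 (by simp) hp
  have h2 := level_lt hS.2 (fun p => p.2.natAbs) (by
    rintro ⟨a, b⟩ ⟨c, d⟩ h
    rw [adj_iff] at h
    simp only [dirs, mem_insert, mem_singleton, Prod.mk_sub_mk, Prod.mk.injEq] at h
    simp only
    omega) h0 (by simp) hp
  unfold box
  rw [mem_product, mem_Icc, mem_Icc]
  rw [hS.1] at h1 h2
  omega

open Classical in
/-- The `n`-ominoes containing the origin. -/
noncomputable def RF (n : ℕ) : Finset (Finset (ℤ × ℤ)) :=
  (box n).powerset.filter (fun S => IsOmino n S ∧ (0 : ℤ × ℤ) ∈ S)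

theorem mem_RF {n : ℕ} {S : Finset (ℤ × ℤ)} : S ∈ RF n ↔ IsOmino n S ∧ (0 : ℤ × ℤ) ∈ S := by
  classical
  unfold RF
  rw [mem_filter, mem_powerset]
  exact ⟨fun h => h.2, fun h => ⟨sub_box h.1 h.2, h⟩⟩

theorem shift_mem_RF {n : ℕ} {S : Finset (ℤ × ℤ)} (hS : IsOmino n S) {s : ℤ × ℤ} (hs : s ∈ S) :
    shift (-s) S ∈ RF n := by
  rw [mem_RF]
  refine ⟨hS.shift _, mem_shift.2 ?_⟩
  simpa using hs

theorem shift_inj {S : Finset (ℤ × ℤ)} (hS : S.Nonempty) {v w : ℤ × ℤ}
    (h : shift v S = shift w S) : v = w := by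
  have key : ∀ v : ℤ × ℤ, ∑ p ∈ shift v S, p = ∑ p ∈ S, p + S.card • v := by
    intro v
    unfold shift
    rw [sum_image (fun a _ b _ hab => add_left_injective v hab), sum_add_distrib, sum_const]
  have h1 : S.card • v = S.card • w := by
    have h2 := key v
    rw [h, key w] at h2
    exact (add_left_cancel h2).symm
  have hc : (S.card : ℤ) ≠ 0 := by
    have := hS.card_pos
    omega
  obtain ⟨a, b⟩ := v
  obtain ⟨c, d⟩ := w
  have h3 := congrArg Prod.fst h1
  have h4 := congrArg Prod.snd h1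
  simp only [Prod.smul_mk, nsmul_eq_mul] at h3 h4
  rw [mul_right_inj' hc] at h3 h4
  rw [h3, h4]

/-- The class map from rooted to fixed `n`-ominoes. -/
def cls (n : ℕ) (S : {S // S ∈ RF n}) : Quotient (translate n) :=
  Quotient.mk (translate n) ⟨S.1, (mem_RF.1 S.2).1⟩

theorem cls_surj (n : ℕ) : Function.Surjective (cls n) := by
  intro q
  induction q using Quotient.inductionOn with
  | h S =>
    obtain ⟨s, hs⟩ := (isOmino_iff.1 S.2).2.1
    refine ⟨⟨shift (-s) S.1, shift_mem_RF S.2 hs⟩, ?_⟩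
    apply Quotient.sound
    refine ⟨s, ?_⟩
    change S.1 = shift s (shift (-s) S.1)
    rw [shift_shift, neg_add_cancel, shift_zero]

instance finiteQuot (n : ℕ) : Finite (Quotient (translate n)) :=
  Finite.of_surjective (cls n) (cls_surj n)

theorem card_fiber (n : ℕ) (q : Quotient (translate n)) : Nat.card {S // cls n S = q} = n := by
  induction q using Quotient.inductionOn with
  | h S =>
    have hne := (isOmino_iff.1 S.2).2.1
    let f : {s // s ∈ S.1} → {T // cls n T = Quotient.mk (translate n) S} := fun s =>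
      ⟨⟨shift (-s.1) S.1, shift_mem_RF S.2 s.2⟩, by
        apply Quotient.sound
        refine ⟨s.1, ?_⟩
        change S.1 = shift s (shift (-s.1) S.1)
        rw [shift_shift, neg_add_cancel, shift_zero]⟩
    have hf : Function.Bijective f := by
      constructor
      · intro a b hab
        have h1 : shift (-a.1) S.1 = shift (-b.1) S.1 := congrArg (fun x => x.1.1) hab
        have h2 := shift_inj hne h1
        exact Subtype.ext (neg_injective h2)
      · rintro ⟨⟨T, hT⟩, hTq⟩
        obtain ⟨v, hv⟩ := Quotient.exact hTq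
        change S.1 = shift v T at hv
        have h0 := (mem_RF.1 hT).2
        have hvS : v ∈ S.1 := by
          rw [hv, mem_shift, sub_self]
          exact h0
        refine ⟨⟨v, hvS⟩, ?_⟩
        apply Subtype.ext
        apply Subtype.ext
        change shift (-v) S.1 = T
        rw [hv, shift_shift, add_neg_cancel, shift_zero]
    rw [← Nat.card_eq_of_bijective f hf, Nat.card_eq_fintype_card, Fintype.card_coe,
      (isOmino_iff.1 S.2).1]

theorem card_RF (n : ℕ) : (RF n).card = n * t n := by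
  classical
  have := Fintype.ofFinite (Quotient (translate n))
  have h1 : Nat.card {S // S ∈ RF n} = (RF n).card := by
    rw [Nat.card_eq_fintype_card, Fintype.card_coe]
  rw [← h1, ← Nat.card_congr (Equiv.sigmaFiberEquiv (cls n)), Nat.card_sigma]
  simp only [card_fiber]
  rw [sum_const, smul_eq_mul, t, Nat.card_eq_fintype_card, mul_comm, card_univ]

/-- Admissible sizes of a part in a balanced splitting of an `n`-omino. -/
def window (n : ℕ) : Finset ℕ :=
  (range (n + 1)).filter (fun k => n ≤ 4 * k + 1 ∧ n ≤ 4 * (n - k) + 1)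

theorem nbr_card (v : ℤ × ℤ) : (dirs.image (fun d => v + d)).card ≤ 4 :=
  card_image_le.trans card_le_four

theorem nbr_mem (v w : ℤ × ℤ) (h : grid.Adj v w) : w ∈ dirs.image (fun d => v + d) := by
  rw [adj_iff] at h
  exact mem_image.2 ⟨w - v, h, by abel⟩

theorem t_le (n : ℕ) (hn : 2 ≤ n) :
    t n ≤ ∑ k ∈ window n, (RF k).card * (RF (n - k)).card * 4 := by
  classical
  set E : Finset (Finset (ℤ × ℤ)) := (window n).biUnion fun k =>
    ((RF k ×ˢ RF (n - k)) ×ˢ dirs).image (fun x => x.1.1 ∪ shift x.2 x.1.2) with hE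
  have hEcard : E.card ≤ ∑ k ∈ window n, (RF k).card * (RF (n - k)).card * 4 := by
    refine card_biUnion_le.trans (sum_le_sum fun k _ => card_image_le.trans ?_)
    rw [card_product, card_product]
    exact Nat.mul_le_mul_left _ card_le_four
  refine le_trans ?_ hEcard
  have key : ∀ q : Quotient (translate n), ∃ U ∈ E, ∃ h : IsOmino n U,
      q = Quotient.mk (translate n) ⟨U, h⟩ := by
    intro q
    induction q using Quotient.inductionOn with
    | h S =>
      obtain ⟨hcard, hconn⟩ := isOmino_iff.1 S.2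
      obtain ⟨A, hAS, hA, hB, hA4, hB4⟩ := exists_split (fun v => dirs.image (fun d => v + d))
        nbr_card nbr_mem hconn (by rw [hcard]; exact hn)
      obtain ⟨a, ha, b, hb, hab⟩ : ∃ a ∈ A, ∃ b ∈ S.1 \ A, grid.Adj a b := by
        by_contra hcon
        push Not at hcon
        rcases hconn.2 (A : Set (ℤ × ℤ))
          (fun x _ hxA y hy hyA => hcon x hxA y (mem_sdiff.2 ⟨hy, hyA⟩)) with h | h
        · obtain ⟨b, hb⟩ := hB.1
          exact (mem_sdiff.1 hb).2 (h b (mem_sdiff.1 hb).1)
        · obtain ⟨a, ha⟩ := hA.1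
          exact h a (hAS ha) ha
      have hAB := card_sdiff_add_card_eq_card hAS
      have hBk : (S.1 \ A).card = n - A.card := by omega
      refine ⟨shift (-a) S.1, ?_, S.2.shift (-a), ?_⟩
      · rw [hE, mem_biUnion]
        refine ⟨A.card, ?_, ?_⟩
        · unfold window
          rw [mem_filter, mem_range]
          omega
        · rw [mem_image]
          refine ⟨((shift (-a) A, shift (-b) (S.1 \ A)), b - a), ?_, ?_⟩
          · rw [mem_product, mem_product]
            refine ⟨⟨shift_mem_RF (isOmino_iff.2 ⟨rfl, hA⟩) ha,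
              shift_mem_RF (isOmino_iff.2 ⟨hBk, hB⟩) hb⟩, ?_⟩
            exact (adj_iff a b).1 hab
          · change shift (-a) A ∪ shift (b - a) (shift (-b) (S.1 \ A)) = shift (-a) S.1
            rw [shift_shift, show -b + (b - a) = -a by abel, ← shift_union,
              union_sdiff_of_subset hAS]
      · apply Quotient.sound
        exact ⟨-a, rfl⟩
  choose U hUE hU hq using key
  have hinj : Function.Injective (fun q : Quotient (translate n) => (⟨U q, hUE q⟩ : {U // U ∈ E})) := by
    intro q q' h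
    have h1 : U q = U q' := congrArg Subtype.val h
    rw [hq q, hq q']
    congr 1
    exact Subtype.ext h1
  have h1 := Nat.card_le_card_of_injective _ hinj
  rwa [Nat.card_eq_fintype_card (α := {U // U ∈ E}), Fintype.card_coe] at h1

end Pool.Agent.H224R3.Kl
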