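import Pool.Agent.H224R3.Kl2

set_option autoImplicit false

namespace Pool.Agent.H224R3.Kl

open Finset Filter Topology

/-- Lexicographic order on cells. -/
def lle (p q : ℤ × ℤ) : Prop := p.1 < q.1 ∨ (p.1 = q.1 ∧ p.2 ≤ q.2)

instance (p q : ℤ × ℤ) : Decidable (lle p q) := by unfold lle; infer_instance

theorem exists_lmax (S : Finset (ℤ × ℤ)) (hS : S.Nonempty) : ∃ p ∈ S, ∀ q ∈ S, lle q p := by
  obtain ⟨p, hp, hmax⟩ := exists_max_image S (fun p => toLex p) hS
  refine ⟨p, hp, fun q hq => ?_⟩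
  have h := hmax q hq
  rw [Prod.Lex.toLex_le_toLex] at h
  exact h

theorem exists_lmin (S : Finset (ℤ × ℤ)) (hS : S.Nonempty) : ∃ p ∈ S, ∀ q ∈ S, lle p q := by
  obtain ⟨p, hp, hmax⟩ := exists_min_image S (fun p => toLex p) hS
  refine ⟨p, hp, fun q hq => ?_⟩
  have h := hmax q hq
  rw [Prod.Lex.toLex_le_toLex] at h
  exact h

theorem exists_rep_max (n : ℕ) (q : Quotient (translate n)) : ∃ A, ∃ h : IsOmino n A,
    q = Quotient.mk (translate n) ⟨A, h⟩ ∧ (0, 0) ∈ A ∧ ∀ x ∈ A, lle x (0, 0) := by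
  induction q using Quotient.inductionOn with
  | h S =>
    obtain ⟨p, hp, hmax⟩ := exists_lmax S.1 (isOmino_iff.1 S.2).2.1
    refine ⟨shift (-p) S.1, S.2.shift _, ?_, ?_, ?_⟩
    · apply Quotient.sound
      exact ⟨-p, rfl⟩
    · rw [mem_shift]
      have : ((0, 0) : ℤ × ℤ) - -p = p := by ext <;> simp
      rwa [this]
    · intro x hx
      have h := hmax _ (mem_shift.1 hx)
      unfold lle at h ⊢
      simp only [Prod.fst_sub, Prod.snd_sub, Prod.fst_neg, Prod.snd_neg] at h
      omega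

theorem exists_rep_min (n : ℕ) (q : Quotient (translate n)) : ∃ A, ∃ h : IsOmino n A,
    q = Quotient.mk (translate n) ⟨A, h⟩ ∧ (0, 1) ∈ A ∧ ∀ x ∈ A, lle (0, 1) x := by
  induction q using Quotient.inductionOn with
  | h S =>
    obtain ⟨p, hp, hmax⟩ := exists_lmin S.1 (isOmino_iff.1 S.2).2.1
    refine ⟨shift ((0, 1) - p) S.1, S.2.shift _, ?_, ?_, ?_⟩
    · apply Quotient.sound
      exact ⟨(0, 1) - p, rfl⟩
    · rw [mem_shift]
      have : ((0, 1) : ℤ × ℤ) - ((0, 1) - p) = p := by ext <;> simp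
      rwa [this]
    · intro x hx
      have h := hmax _ (mem_shift.1 hx)
      unfold lle at h ⊢
      simp only [Prod.fst_sub, Prod.snd_sub] at h
      omega

theorem filter_union {A B : Finset (ℤ × ℤ)} (hA : ∀ x ∈ A, lle x (0, 0))
    (hB : ∀ x ∈ B, lle (0, 1) x) : (A ∪ B).filter (fun u => lle u (0, 0)) = A ∧
      (A ∪ B).filter (fun u => ¬ lle u (0, 0)) = B := by
  have hB' : ∀ x ∈ B, ¬ lle x (0, 0) := by
    intro x hx h
    have := hB x hx
    unfold lle at h this
    simp only at h this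
    omega
  constructor
  · ext x
    rw [mem_filter, mem_union]
    constructor
    · rintro ⟨h | h, h'⟩
      · exact h
      · exact absurd h' (hB' x h)
    · intro h
      exact ⟨Or.inl h, hA x h⟩
  · ext x
    rw [mem_filter, mem_union]
    constructor
    · rintro ⟨h | h, h'⟩
      · exact absurd (hA x h) h'
      · exact h
    · intro h
      exact ⟨Or.inr h, hB' x h⟩

theorem t_super (m n : ℕ) : t m * t n ≤ t (m + n) := by
  classical
  choose A hA hA1 hA2 hA3 using exists_rep_max m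
  choose B hB hB1 hB2 hB3 using exists_rep_min n
  have hdisj : ∀ q q', Disjoint (A q) (B q') := by
    intro q q'
    rw [Finset.disjoint_left]
    intro x hx hx'
    have h1 := hA3 q x hx
    have h2 := hB3 q' x hx'
    unfold lle at h1 h2
    simp only at h1 h2
    omega
  have hU : ∀ q q', IsOmino (m + n) (A q ∪ B q') := by
    intro q q'
    rw [isOmino_iff]
    refine ⟨?_, (isOmino_iff.1 (hA q)).2.union (isOmino_iff.1 (hB q')).2 (hA2 q) (hB2 q') ?_⟩
    · rw [card_union_of_disjoint (hdisj q q'), (isOmino_iff.1 (hA q)).1, (isOmino_iff.1 (hB q')).1]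
    · rw [adj_iff]
      decide
  have hinj : Function.Injective (fun x : Quotient (translate m) × Quotient (translate n) =>
      Quotient.mk (translate (m + n)) ⟨A x.1 ∪ B x.2, hU x.1 x.2⟩) := by
    rintro ⟨q1, q2⟩ ⟨q1', q2'⟩ h
    obtain ⟨v, hv⟩ := Quotient.exact h
    change A q1' ∪ B q2' = shift v (A q1 ∪ B q2) at hv
    obtain ⟨f1, f2⟩ := filter_union (hA3 q1) (hB3 q2)
    obtain ⟨f1', f2'⟩ := filter_union (hA3 q1') (hB3 q2')
    have hc1 : ((A q1 ∪ B q2).filter (fun u => lle u (0, 0))).card = m := by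
      rw [f1]; exact (isOmino_iff.1 (hA q1)).1
    have hc2 : ((A q1 ∪ B q2).filter (fun u => lle u (-v))).card = m := by
      have h1 : ((A q1' ∪ B q2').filter (fun u => lle u (0, 0))) =
          shift v ((A q1 ∪ B q2).filter (fun u => lle u (-v))) := by
        rw [hv]
        ext x
        rw [mem_filter, mem_shift, mem_shift, mem_filter]
        refine and_congr_right fun _ => ?_
        unfold lle
        simp only [Prod.fst_sub, Prod.snd_sub, Prod.fst_neg, Prod.snd_neg]
        omega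
      rw [← card_shift v, ← h1, f1']
      exact (isOmino_iff.1 (hA q1')).1
    have h0 : (0, 0) ∈ A q1 ∪ B q2 := mem_union_left _ (hA2 q1)
    have hv0 : -v ∈ A q1 ∪ B q2 := by
      have h1 : ((0, 0) : ℤ × ℤ) ∈ A q1' ∪ B q2' := mem_union_left _ (hA2 q1')
      rw [hv, mem_shift] at h1
      have : ((0, 0) : ℤ × ℤ) - v = -v := by ext <;> simp
      rwa [this] at h1
    have hveq : v = 0 := by
      by_cases hle : lle (-v) (0, 0)
      · have hsub : (A q1 ∪ B q2).filter (fun u => lle u (-v)) ⊆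
            (A q1 ∪ B q2).filter (fun u => lle u (0, 0)) := by
          intro x hx
          rw [mem_filter] at hx ⊢
          refine ⟨hx.1, ?_⟩
          have := hx.2
          unfold lle at this hle ⊢
          simp only [Prod.fst_neg, Prod.snd_neg] at this hle ⊢
          omega
        have heq := eq_of_subset_of_card_le hsub (by rw [hc1, hc2])
        have h1 : (0, 0) ∈ (A q1 ∪ B q2).filter (fun u => lle u (-v)) := by
          rw [heq, mem_filter]
          exact ⟨h0, by unfold lle; simp⟩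
        have h2 := (mem_filter.1 h1).2
        unfold lle at h2 hle
        simp only [Prod.fst_neg, Prod.snd_neg] at h2 hle
        ext
        · change v.1 = 0; omega
        · change v.2 = 0; omega
      · have hle' : lle (0, 0) (-v) := by
          unfold lle at hle ⊢
          simp only [Prod.fst_neg, Prod.snd_neg] at hle ⊢
          omega
        have hsub : (A q1 ∪ B q2).filter (fun u => lle u (0, 0)) ⊆
            (A q1 ∪ B q2).filter (fun u => lle u (-v)) := by
          intro x hx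
          rw [mem_filter] at hx ⊢
          refine ⟨hx.1, ?_⟩
          have := hx.2
          unfold lle at this hle' ⊢
          simp only [Prod.fst_neg, Prod.snd_neg] at this hle' ⊢
          omega
        have heq := eq_of_subset_of_card_le hsub (by rw [hc1, hc2])
        have h1 : -v ∈ (A q1 ∪ B q2).filter (fun u => lle u (0, 0)) := by
          rw [heq, mem_filter]
          exact ⟨hv0, by unfold lle; simp⟩
        exact absurd (mem_filter.1 h1).2 hle
    rw [hveq, shift_zero] at hv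
    have e1 : A q1' = A q1 := by rw [← f1', ← f1, hv]
    have e2 : B q2' = B q2 := by rw [← f2', ← f2, hv]
    have g1 : q1 = q1' := by
      rw [hA1 q1, hA1 q1']
      congr 1
      exact Subtype.ext e1.symm
    have g2 : q2 = q2' := by
      rw [hB1 q2, hB1 q2']
      congr 1
      exact Subtype.ext e2.symm
    rw [g1, g2]
  have h1 := Nat.card_le_card_of_injective _ hinj
  rwa [Nat.card_prod] at h1

theorem t_zero : t 0 = 0 := by
  unfold t
  have : IsEmpty (Quotient (translate 0)) := by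
    refine ⟨fun q => ?_⟩
    induction q using Quotient.inductionOn with
    | h S =>
      obtain ⟨h1, h2⟩ := isOmino_iff.1 S.2
      have := h2.1.card_pos
      omega
  exact Nat.card_of_isEmpty

theorem t_one_pos : 0 < t 1 := by
  unfold t
  rw [Nat.card_pos_iff]
  refine ⟨⟨Quotient.mk (translate 1) ⟨{0}, isOmino_iff.2 ⟨rfl, conn_singleton 0⟩⟩⟩, finiteQuot 1⟩

theorem t_pos (n : ℕ) (hn : 1 ≤ n) : 0 < t n := by
  induction n, hn using Nat.le_induction with
  | base => exact t_one_pos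
  | succ n _ ih => exact lt_of_lt_of_le (Nat.mul_pos ih t_one_pos) (t_super n 1)

/-- Key propagation lemma. -/
theorem propagate {M : ℕ} (hM : 18 ≤ M) {μ : ℝ} (hμ : 0 < μ)
    (h : ∀ k, M ≤ k → k ≤ 4 * M → (k : ℝ) ^ 5 * t k ≤ μ ^ k) :
    ∀ k, M ≤ k → (k : ℝ) ^ 5 * t k ≤ μ ^ k := by
  intro n
  induction n using Nat.strong_induction_on with
  | _ n ih =>
    intro hn
    by_cases hn4 : n ≤ 4 * M
    · exact h n hn hn4
    push Not at hn4
    have hnR : (73 : ℝ) ≤ n := by exact_mod_cast (by omega : 73 ≤ n)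
    have h1 : (t n : ℝ) ≤ ∑ k ∈ window n, ((RF k).card * (RF (n - k)).card * 4 : ℝ) := by
      exact_mod_cast t_le n (by omega)
    have h2 : ∀ k ∈ window n, ((RF k).card * (RF (n - k)).card * 4 : ℝ) * (n : ℝ) ^ 8 ≤
        5184 * μ ^ n := by
      intro k hk
      unfold window at hk
      rw [mem_filter, mem_range] at hk
      obtain ⟨hk0, hk1, hk2⟩ := hk
      have hkn : k < n := by omega
      have i1 := ih k hkn (by omega)
      have i2 := ih (n - k) (by omega) (by omega)
      rw [card_RF, card_RF]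
      push_cast
      obtain ⟨l, hl⟩ : ∃ l, n = k + l := ⟨n - k, by omega⟩
      have hl' : n - k = l := by omega
      rw [hl'] at i2 hk2 ⊢
      have hkR : (n : ℝ) ≤ 4 * k + 1 := by exact_mod_cast hk1
      have hlR : (n : ℝ) ≤ 4 * l + 1 := by exact_mod_cast hk2
      have hnkl : (n : ℝ) = k + l := by exact_mod_cast hl
      have hprod : (n : ℝ) ^ 2 ≤ 6 * (k * l) := by nlinarith
      have hkl : (0 : ℝ) ≤ k * l := by positivity
      have h8 : (n : ℝ) ^ 8 ≤ 1296 * (k * l : ℝ) ^ 4 := by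
        calc (n : ℝ) ^ 8 = ((n : ℝ) ^ 2) ^ 4 := by ring
          _ ≤ (6 * (k * l : ℝ)) ^ 4 := pow_le_pow_left₀ (by positivity) hprod 4
          _ = 1296 * (k * l : ℝ) ^ 4 := by ring
      have hmm : ((k : ℝ) ^ 5 * t k) * ((l : ℝ) ^ 5 * t l) ≤ μ ^ n := by
        rw [hl, pow_add]
        exact mul_le_mul i1 i2 (by positivity) (by positivity)
      calc ((k : ℝ) * t k) * (l * t l) * 4 * (n : ℝ) ^ 8
          ≤ ((k : ℝ) * t k) * (l * t l) * 4 * (1296 * (k * l : ℝ) ^ 4) :=
            mul_le_mul_of_nonneg_left h8 (by positivity)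
        _ = 5184 * (((k : ℝ) ^ 5 * t k) * ((l : ℝ) ^ 5 * t l)) := by ring
        _ ≤ 5184 * μ ^ n := by linarith
    have h3 : (t n : ℝ) * (n : ℝ) ^ 8 ≤ (n + 1) * (5184 * μ ^ n) := by
      calc (t n : ℝ) * (n : ℝ) ^ 8
          ≤ (∑ k ∈ window n, ((RF k).card * (RF (n - k)).card * 4 : ℝ)) * (n : ℝ) ^ 8 :=
            mul_le_mul_of_nonneg_right h1 (by positivity)
        _ = ∑ k ∈ window n, ((RF k).card * (RF (n - k)).card * 4 : ℝ) * (n : ℝ) ^ 8 := by
            rw [sum_mul]
        _ ≤ ∑ _k ∈ window n, 5184 * μ ^ n := sum_le_sum h2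
        _ = (window n).card * (5184 * μ ^ n) := by rw [sum_const, nsmul_eq_mul]
        _ ≤ (n + 1) * (5184 * μ ^ n) := by
            refine mul_le_mul_of_nonneg_right ?_ (by positivity)
            have : (window n).card ≤ n + 1 := by
              unfold window
              exact (card_filter_le _ _).trans (card_range _).le
            exact_mod_cast this
    have h4 : (n + 1 : ℝ) * 5184 ≤ (n : ℝ) ^ 3 := by nlinarith [mul_nonneg (sub_nonneg.2 hnR) (sub_nonneg.2 hnR), sq_nonneg ((n : ℝ) - 73)]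
    have h5 : (n : ℝ) ^ 3 * ((n : ℝ) ^ 5 * t n) ≤ (n : ℝ) ^ 3 * μ ^ n := by
      calc (n : ℝ) ^ 3 * ((n : ℝ) ^ 5 * t n) = (t n : ℝ) * (n : ℝ) ^ 8 := by ring
        _ ≤ (n + 1) * (5184 * μ ^ n) := h3
        _ = ((n + 1) * 5184) * μ ^ n := by ring
        _ ≤ (n : ℝ) ^ 3 * μ ^ n := mul_le_mul_of_nonneg_right h4 (by positivity)
    exact le_of_mul_le_mul_left h5 (by positivity)

theorem exp_bound : ∃ μ : ℝ, 1 ≤ μ ∧ ∀ n, (t n : ℝ) ≤ μ ^ n := by
  set μ : ℝ := 1 + ∑ k ∈ range 73, (k : ℝ) ^ 5 * t k with hμ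
  have hnn : ∀ k ∈ range 73, 0 ≤ (k : ℝ) ^ 5 * t k := fun k _ => by positivity
  have h1 : 1 ≤ μ := by
    have := sum_nonneg hnn
    linarith
  have h2 : ∀ k : ℕ, 1 ≤ k → k ≤ 72 → (k : ℝ) ^ 5 * t k ≤ μ ^ k := by
    intro k hk1 hk
    have h3 := single_le_sum hnn (mem_range.2 (by omega : k < 73))
    have h4 : μ ≤ μ ^ k := le_self_pow₀ h1 (by omega)

    linarith
  have h3 := propagate (M := 18) le_rfl (by linarith : (0 : ℝ) < μ)
    (fun k hk1 hk2 => h2 k (by omega) (by omega))
  refine ⟨μ, h1, fun n => ?_⟩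
  rcases Nat.eq_zero_or_pos n with hn | hn
  · rw [hn, t_zero]; simp
  have h5 : (n : ℝ) ^ 5 * t n ≤ μ ^ n := by
    by_cases h18 : 18 ≤ n
    · exact h3 n h18
    · exact h2 n hn (by omega)
  have h6 : (1 : ℝ) ≤ (n : ℝ) ^ 5 := one_le_pow₀ (by exact_mod_cast hn)
  have h7 : (0 : ℝ) ≤ t n := by positivity
  nlinarith

theorem subadd : Subadditive (fun n => -Real.log (t n)) := by
  intro m n
  simp only
  rcases Nat.eq_zero_or_pos m with hm | hm
  · rw [hm, t_zero]; simp
  rcases Nat.eq_zero_or_pos n with hn | hn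
  · rw [hn, t_zero]; simp
  have h1 : (0 : ℝ) < t m := by exact_mod_cast t_pos m hm
  have h2 : (0 : ℝ) < t n := by exact_mod_cast t_pos n hn
  have h3 : (t m : ℝ) * t n ≤ t (m + n) := by exact_mod_cast t_super m n
  have h4 := Real.log_le_log (by positivity) h3
  rw [Real.log_mul h1.ne' h2.ne'] at h4
  linarith

theorem bdd : BddBelow (Set.range fun n : ℕ => -Real.log (t n) / n) := by
  obtain ⟨μ, hμ, h⟩ := exp_bound
  refine ⟨-Real.log μ, ?_⟩
  rintro x ⟨n, rfl⟩
  simp only
  rcases Nat.eq_zero_or_pos n with hn | hn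
  · rw [hn]
    simp only [CharP.cast_eq_zero, div_zero, Left.neg_nonpos_iff]
    exact Real.log_nonneg hμ
  have h1 : (0 : ℝ) < t n := by exact_mod_cast t_pos n hn
  have hn' : (0 : ℝ) < n := by exact_mod_cast hn
  have h2 := Real.log_le_log h1 (h n)
  rw [Real.log_pow] at h2
  rw [le_div_iff₀ hn']
  linarith

/-- Klarner's constant. -/
noncomputable def klarner : ℝ := Real.exp (-subadd.lim)

theorem rpow_eq {n : ℕ} (hn : 1 ≤ n) :
    (t n : ℝ) ^ (1 / (n : ℝ)) = Real.exp (-(-Real.log (t n) / n)) := by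
  have h1 : (0 : ℝ) < t n := by exact_mod_cast t_pos n hn
  rw [Real.rpow_def_of_pos h1]
  congr 1
  ring

theorem tendsto_klarner :
    Tendsto (fun n : ℕ => (t n : ℝ) ^ (1 / (n : ℝ))) atTop (𝓝 klarner) := by
  have h1 := (subadd.tendsto_lim bdd).neg.rexp
  refine h1.congr' ?_
  filter_upwards [eventually_ge_atTop 1] with n hn
  rw [rpow_eq hn]

theorem klarner_pos : 0 < klarner := Real.exp_pos _

theorem t_le_klarner (n : ℕ) (hn : 1 ≤ n) : (t n : ℝ) ≤ klarner ^ n := by
  have h1 := subadd.lim_le_div bdd (n := n) (by omega)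
  have h2 : (0 : ℝ) < t n := by exact_mod_cast t_pos n hn
  have hn' : (0 : ℝ) < n := by exact_mod_cast hn
  rw [le_div_iff₀ hn'] at h1
  rw [← Real.log_le_log_iff h2 (pow_pos klarner_pos n), Real.log_pow, klarner, Real.log_exp]
  linarith

theorem klarner_le {M : ℕ} (hM : 18 ≤ M) {μ : ℝ} (hμ : 0 < μ)
    (h : ∀ k, M ≤ k → k ≤ 4 * M → (k : ℝ) ^ 5 * t k ≤ μ ^ k) : klarner ≤ μ := by
  have h1 := propagate hM hμ h
  refine le_of_tendsto tendsto_klarner ?_
  filter_upwards [eventually_ge_atTop M] with n hn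
  have hn1 : 1 ≤ n := by omega
  have h2 := h1 n hn
  have h6 : (1 : ℝ) ≤ (n : ℝ) ^ 5 := one_le_pow₀ (by exact_mod_cast hn1)
  have h7 : (0 : ℝ) ≤ t n := by positivity
  have h8 : (t n : ℝ) ≤ μ ^ n := by nlinarith
  have hn' : (n : ℝ) ≠ 0 := by positivity
  calc (t n : ℝ) ^ (1 / (n : ℝ)) ≤ (μ ^ n) ^ (1 / (n : ℝ)) :=
        Real.rpow_le_rpow h7 h8 (by positivity)
    _ = μ := by
        rw [← Real.rpow_natCast, ← Real.rpow_mul hμ.le, mul_one_div_cancel hn', Real.rpow_one]

end Pool.Agent.H224R3.Kl
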