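import Pool.Agent.H224R3.Kl3

set_option autoImplicit false

namespace Pool.Agent.H224R3.Kl

open Finset

section prim

variable {α : Type*} [Primcodable α]

theorem pforall {f : α → ℕ} {R : α → ℕ → Prop} (hf : Primrec f) (hR : PrimrecRel R) :
    PrimrecPred (fun a => ∀ x < f a, R a x) :=
  (hR.swap.forall_mem_list.comp (Primrec.list_range.comp hf) Primrec.id).of_eq (by simp)

theorem pimp {p q : α → Prop} (hp : PrimrecPred p) (hq : PrimrecPred q) :
    PrimrecPred (fun a => p a → q a) :=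
  (hp.not.or hq).of_eq (fun a => by tauto)

theorem ppow {f g : α → ℕ} (hf : Primrec f) (hg : Primrec g) : Primrec (fun a => f a ^ g a) :=
  (Primrec₂.unpaired'.1 Nat.Primrec.pow).comp hf hg

theorem psum {f : α → ℕ} {g : α → ℕ → ℕ} (hf : Primrec f) (hg : Primrec₂ g) :
    Primrec (fun a => ∑ k ∈ range (f a), g a k) := by
  have h : Primrec (fun a => (Nat.rec 0 (fun k ih => ih + g a k) (f a) : ℕ)) := by
    refine Primrec.nat_rec' (f := f) (g := fun _ => 0) (h := fun a (p : ℕ × ℕ) => p.2 + g a p.1)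
      hf (Primrec.const 0) ?_
    exact Primrec.nat_add.comp (Primrec.snd.comp Primrec.snd)
      (hg.comp Primrec.fst (Primrec.fst.comp Primrec.snd))
  refine h.of_eq fun a => ?_
  induction f a with
  | zero => simp
  | succ n ih => rw [sum_range_succ, ← ih]

open Classical in
theorem pcount {f : α → ℕ} {R : α → ℕ → Prop} (hf : Primrec f) (hR : PrimrecRel R) :
    Primrec (fun a => ((range (f a)).filter (R a)).card) := by
  have h1 : Primrec₂ (fun a k => if R a k then 1 else 0) :=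
    Primrec.ite hR (Primrec.const 1) (Primrec.const 0)
  refine (psum hf h1).of_eq fun a => ?_
  rw [card_filter]

end prim

/-- bit `i` of `c` is one -/
def bt (c i : ℕ) : Prop := c / 2 ^ i % 2 = 1

instance (c i : ℕ) : Decidable (bt c i) := by unfold bt; infer_instance

theorem bt_iff (c i : ℕ) : bt c i ↔ c.testBit i = true := by
  unfold bt
  rw [Nat.testBit_eq_decide_div_mod_eq]
  simp

/-- adjacency of indices in a grid of width `w` -/
def adjN (w i j : ℕ) : Prop :=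
  (i / w = j / w ∧ (i % w = j % w + 1 ∨ j % w = i % w + 1)) ∨
    (i % w = j % w ∧ (i / w = j / w + 1 ∨ j / w = i / w + 1))

/-- The decidable predicate: the code `c` describes an `n`-omino containing the origin. -/
def P (n c : ℕ) : Prop :=
  ((range ((2 * n + 1) * (2 * n + 1))).filter (fun i => bt c i)).card = n ∧
  bt c (n * (2 * n + 1) + n) ∧
  ∀ x < 2 ^ ((2 * n + 1) * (2 * n + 1)),
    (∀ i < (2 * n + 1) * (2 * n + 1), ∀ j < (2 * n + 1) * (2 * n + 1),
      bt c i → bt x i → bt c j → ¬ bt x j → ¬ adjN (2 * n + 1) i j) →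
    (∀ i < (2 * n + 1) * (2 * n + 1), bt c i → bt x i) ∨
    (∀ i < (2 * n + 1) * (2 * n + 1), bt c i → ¬ bt x i)

section prim2

variable {α : Type*} [Primcodable α]

theorem bt_prim {f g : α → ℕ} (hf : Primrec f) (hg : Primrec g) :
    PrimrecPred (fun a => bt (f a) (g a)) := by
  unfold bt
  exact Primrec.eq.comp (Primrec.nat_mod.comp (Primrec.nat_div.comp hf (ppow (Primrec.const 2) hg))
    (Primrec.const 2)) (Primrec.const 1)

theorem adjN_prim {f g h : α → ℕ} (hf : Primrec f) (hg : Primrec g) (hh : Primrec h) :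
    PrimrecPred (fun a => adjN (f a) (g a) (h a)) := by
  unfold adjN
  have d1 := Primrec.nat_div.comp hg hf
  have d2 := Primrec.nat_div.comp hh hf
  have m1 := Primrec.nat_mod.comp hg hf
  have m2 := Primrec.nat_mod.comp hh hf
  exact ((Primrec.eq.comp d1 d2).and ((Primrec.eq.comp m1 (Primrec.succ.comp m2)).or
    (Primrec.eq.comp m2 (Primrec.succ.comp m1)))).or
    ((Primrec.eq.comp m1 m2).and ((Primrec.eq.comp d1 (Primrec.succ.comp d2)).or
    (Primrec.eq.comp d2 (Primrec.succ.comp d1))))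

theorem w_prim {f : α → ℕ} (hf : Primrec f) : Primrec (fun a => 2 * f a + 1) :=
  Primrec.succ.comp (Primrec.nat_mul.comp (Primrec.const 2) hf)

theorem ww_prim {f : α → ℕ} (hf : Primrec f) :
    Primrec (fun a => (2 * f a + 1) * (2 * f a + 1)) :=
  Primrec.nat_mul.comp (w_prim hf) (w_prim hf)

end prim2

theorem P_prim : PrimrecRel P := by
  classical
  have f1 : Primrec (fun a : ℕ × ℕ => a.1) := Primrec.fst
  have f2 : Primrec (fun a : ℕ × ℕ => a.2) := Primrec.snd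
  have g1 : Primrec (fun a : (ℕ × ℕ) × ℕ => a.1.1) := f1.comp Primrec.fst
  have g2 : Primrec (fun a : (ℕ × ℕ) × ℕ => a.1.2) := f2.comp Primrec.fst
  have g3 : Primrec (fun a : (ℕ × ℕ) × ℕ => a.2) := Primrec.snd
  have h1 : Primrec (fun a : ((ℕ × ℕ) × ℕ) × ℕ => a.1.1.1) := g1.comp Primrec.fst
  have h2 : Primrec (fun a : ((ℕ × ℕ) × ℕ) × ℕ => a.1.1.2) := g2.comp Primrec.fst
  have h3 : Primrec (fun a : ((ℕ × ℕ) × ℕ) × ℕ => a.1.2) := g3.comp Primrec.fst
  have h4 : Primrec (fun a : ((ℕ × ℕ) × ℕ) × ℕ => a.2) := Primrec.snd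
  have k1 : Primrec (fun a : (((ℕ × ℕ) × ℕ) × ℕ) × ℕ => a.1.1.1.1) := h1.comp Primrec.fst
  have k2 : Primrec (fun a : (((ℕ × ℕ) × ℕ) × ℕ) × ℕ => a.1.1.1.2) := h2.comp Primrec.fst
  have k3 : Primrec (fun a : (((ℕ × ℕ) × ℕ) × ℕ) × ℕ => a.1.1.2) := h3.comp Primrec.fst
  have k4 : Primrec (fun a : (((ℕ × ℕ) × ℕ) × ℕ) × ℕ => a.1.2) := h4.comp Primrec.fst
  have k5 : Primrec (fun a : (((ℕ × ℕ) × ℕ) × ℕ) × ℕ => a.2) := Primrec.snd
  have q1 : PrimrecPred (fun a : (((ℕ × ℕ) × ℕ) × ℕ) × ℕ =>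
      bt a.1.1.1.2 a.1.2 → bt a.1.1.2 a.1.2 → bt a.1.1.1.2 a.2 → ¬ bt a.1.1.2 a.2 →
      ¬ adjN (2 * a.1.1.1.1 + 1) a.1.2 a.2) :=
    pimp (bt_prim k2 k4) (pimp (bt_prim k3 k4) (pimp (bt_prim k2 k5)
      (pimp (bt_prim k3 k5).not (adjN_prim (w_prim k1) k4 k5).not)))
  have q2 : PrimrecPred (fun a : ((ℕ × ℕ) × ℕ) × ℕ =>
      ∀ j < (2 * a.1.1.1 + 1) * (2 * a.1.1.1 + 1),
      bt a.1.1.2 a.2 → bt a.1.2 a.2 → bt a.1.1.2 j → ¬ bt a.1.2 j →
      ¬ adjN (2 * a.1.1.1 + 1) a.2 j) := pforall (ww_prim h1) q1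
  have q3 : PrimrecPred (fun a : (ℕ × ℕ) × ℕ =>
      ∀ i < (2 * a.1.1 + 1) * (2 * a.1.1 + 1), ∀ j < (2 * a.1.1 + 1) * (2 * a.1.1 + 1),
      bt a.1.2 i → bt a.2 i → bt a.1.2 j → ¬ bt a.2 j →
      ¬ adjN (2 * a.1.1 + 1) i j) := pforall (ww_prim g1) q2
  have q4 : PrimrecPred (fun a : (ℕ × ℕ) × ℕ =>
      ∀ i < (2 * a.1.1 + 1) * (2 * a.1.1 + 1), bt a.1.2 i → bt a.2 i) :=
    pforall (R := fun (a : (ℕ × ℕ) × ℕ) i => bt a.1.2 i → bt a.2 i) (ww_prim g1)
      (pimp (bt_prim h2 h4) (bt_prim h3 h4))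
  have q5 : PrimrecPred (fun a : (ℕ × ℕ) × ℕ =>
      ∀ i < (2 * a.1.1 + 1) * (2 * a.1.1 + 1), bt a.1.2 i → ¬ bt a.2 i) :=
    pforall (R := fun (a : (ℕ × ℕ) × ℕ) i => bt a.1.2 i → ¬ bt a.2 i) (ww_prim g1)
      (pimp (bt_prim h2 h4) (bt_prim h3 h4).not)
  have q6 := pforall (ppow (Primrec.const 2) (ww_prim f1)) (pimp q3 (q4.or q5)).primrecRel
  have q7 : PrimrecPred (fun a : ℕ × ℕ => bt a.2 (a.1 * (2 * a.1 + 1) + a.1)) :=
    bt_prim f2 (Primrec.nat_add.comp (Primrec.nat_mul.comp f1 (w_prim f1)) f1)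
  have q8 : PrimrecPred (fun a : ℕ × ℕ =>
      ((range ((2 * a.1 + 1) * (2 * a.1 + 1))).filter (fun i => bt a.2 i)).card = a.1) := by
    refine Primrec.eq.comp ?_ f1
    refine (pcount (R := fun (a : ℕ × ℕ) i => bt a.2 i) (ww_prim f1) (bt_prim g2 g3)).of_eq
      fun a => ?_
    congr 1
    ext x
    simp
  exact q8.and (q7.and q6)

/-- The cell with a given index. -/
def cell (n i : ℕ) : ℤ × ℤ := ((i / (2 * n + 1) : ℕ) - (n : ℤ), (i % (2 * n + 1) : ℕ) - (n : ℤ))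

theorem cell_inj (n : ℕ) : Function.Injective (cell n) := by
  intro i j h
  unfold cell at h
  rw [Prod.mk.injEq] at h
  have h1 : i / (2 * n + 1) = j / (2 * n + 1) := by omega
  have h2 : i % (2 * n + 1) = j % (2 * n + 1) := by omega
  rw [← Nat.div_add_mod i (2 * n + 1), ← Nat.div_add_mod j (2 * n + 1), h1, h2]

theorem cell_adj (n i j : ℕ) : grid.Adj (cell n i) (cell n j) ↔ adjN (2 * n + 1) i j := by
  rw [adj_iff]
  unfold cell adjN
  simp only [dirs, mem_insert, mem_singleton, Prod.mk_sub_mk, Prod.mk.injEq]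
  omega

theorem cell_origin (n : ℕ) : cell n (n * (2 * n + 1) + n) = 0 := by
  unfold cell
  have h1 : (n * (2 * n + 1) + n) / (2 * n + 1) = n := by
    rw [Nat.add_div_of_dvd_right (Dvd.intro_left _ rfl), Nat.mul_div_cancel _ (by omega),
      Nat.div_eq_of_lt (by omega), add_zero]
  have h2 : (n * (2 * n + 1) + n) % (2 * n + 1) = n := by
    rw [Nat.mul_add_mod', Nat.mod_eq_of_lt (by omega)]
  rw [h1, h2]
  simp

theorem exists_index {n : ℕ} {p : ℤ × ℤ} (hp : p ∈ box n) :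
    ∃ i < (2 * n + 1) * (2 * n + 1), cell n i = p := by
  unfold box at hp
  rw [mem_product, mem_Icc, mem_Icc] at hp
  obtain ⟨a, b⟩ := p
  obtain ⟨⟨h1, h2⟩, h3, h4⟩ := hp
  simp only at h1 h2 h3 h4
  obtain ⟨u, hu⟩ : ∃ u : ℕ, a = u - n := ⟨(a + n).toNat, by omega⟩
  obtain ⟨v, hv⟩ : ∃ v : ℕ, b = v - n := ⟨(b + n).toNat, by omega⟩
  have hu' : u < 2 * n + 1 := by omega
  have hv' : v < 2 * n + 1 := by omega
  refine ⟨u * (2 * n + 1) + v, ?_, ?_⟩
  · calc u * (2 * n + 1) + v < u * (2 * n + 1) + (2 * n + 1) := by omega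
      _ = (u + 1) * (2 * n + 1) := by ring
      _ ≤ (2 * n + 1) * (2 * n + 1) := Nat.mul_le_mul_right _ (by omega)
  · unfold cell
    have h1 : (u * (2 * n + 1) + v) / (2 * n + 1) = u := by
      rw [Nat.add_div_of_dvd_right (Dvd.intro_left _ rfl), Nat.mul_div_cancel _ (by omega),
        Nat.div_eq_of_lt hv', add_zero]
    have h2 : (u * (2 * n + 1) + v) % (2 * n + 1) = v := by
      rw [Nat.mul_add_mod', Nat.mod_eq_of_lt hv']
    rw [h1, h2, hu, hv]

/-- The set of cells with code `c`. -/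
def dec (n c : ℕ) : Finset (ℤ × ℤ) :=
  ((range ((2 * n + 1) * (2 * n + 1))).filter (fun i => bt c i)).image (cell n)

theorem cell_mem_dec {n c i : ℕ} (hi : i < (2 * n + 1) * (2 * n + 1)) :
    cell n i ∈ dec n c ↔ bt c i := by
  unfold dec
  rw [mem_image]
  constructor
  · rintro ⟨j, hj, hji⟩
    rw [← cell_inj n hji]
    exact (mem_filter.1 hj).2
  · intro h
    exact ⟨i, mem_filter.2 ⟨mem_range.2 hi, h⟩, rfl⟩

/-- The code of a set of cells. -/
noncomputable def enc (n : ℕ) (X : Set (ℤ × ℤ)) : ℕ :=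
  open Classical in
  Nat.ofBits (fun i : Fin ((2 * n + 1) * (2 * n + 1)) => decide (cell n i ∈ X))

theorem enc_lt (n : ℕ) (X : Set (ℤ × ℤ)) : enc n X < 2 ^ ((2 * n + 1) * (2 * n + 1)) :=
  Nat.ofBits_lt_two_pow _

theorem bt_enc {n : ℕ} (X : Set (ℤ × ℤ)) {i : ℕ} (hi : i < (2 * n + 1) * (2 * n + 1)) :
    bt (enc n X) i ↔ cell n i ∈ X := by
  rw [bt_iff, enc, Nat.testBit_ofBits_lt _ _ hi]
  simp

theorem P_iff (n c : ℕ) : P n c ↔ dec n c ∈ RF n := by
  have hw : n * (2 * n + 1) + n < (2 * n + 1) * (2 * n + 1) := by nlinarith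
  have horig : (0 : ℤ × ℤ) ∈ dec n c ↔ bt c (n * (2 * n + 1) + n) := by
    rw [← cell_origin n, cell_mem_dec hw]
  have hcard : (dec n c).card =
      ((range ((2 * n + 1) * (2 * n + 1))).filter (fun i => bt c i)).card :=
    card_image_of_injective _ (cell_inj n)
  have hmem : ∀ p ∈ dec n c, ∃ i < (2 * n + 1) * (2 * n + 1), bt c i ∧ cell n i = p := by
    intro p hp
    obtain ⟨i, hi, hip⟩ := mem_image.1 hp
    rw [mem_filter, mem_range] at hi
    exact ⟨i, hi.1, hi.2, hip⟩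
  rw [mem_RF, isOmino_iff, horig, hcard]
  unfold P
  constructor
  · rintro ⟨h1, h2, h3⟩
    refine ⟨⟨h1, ⟨0, horig.2 h2⟩, fun X hX => ?_⟩, h2⟩
    rcases h3 (enc n X) (enc_lt n X) (fun i hi j hj hci hxi hcj hxj hadj => hX (cell n i)
      ((cell_mem_dec hi).2 hci) ((bt_enc X hi).1 hxi) (cell n j) ((cell_mem_dec hj).2 hcj)
      (fun h => hxj ((bt_enc X hj).2 h)) ((cell_adj n i j).2 hadj)) with h | h
    · left
      intro p hp
      obtain ⟨i, hi, hci, rfl⟩ := hmem p hp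
      exact (bt_enc X hi).1 (h i hi hci)
    · right
      intro p hp hpX
      obtain ⟨i, hi, hci, rfl⟩ := hmem p hp
      exact h i hi hci ((bt_enc X hi).2 hpX)
  · rintro ⟨⟨h1, _, h3⟩, h2⟩
    refine ⟨h1, h2, fun x _ hx => ?_⟩
    rcases h3 {p | ∃ i < (2 * n + 1) * (2 * n + 1), bt x i ∧ cell n i = p} (by
      rintro p hp ⟨i, hi, hxi, rfl⟩ q hq hqn hadj
      obtain ⟨j, hj, hcj, rfl⟩ := hmem q hq
      exact hx i hi j hj ((cell_mem_dec hi).1 hp) hxi hcj (fun h => hqn ⟨j, hj, h, rfl⟩)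
        ((cell_adj n i j).1 hadj)) with h | h
    · left
      intro i hi hci
      obtain ⟨j, _, hxj, hji⟩ := h (cell n i) ((cell_mem_dec hi).2 hci)
      rwa [← cell_inj n hji]
    · right
      intro i hi hci hxi
      exact h (cell n i) ((cell_mem_dec hi).2 hci) ⟨i, hi, hxi, rfl⟩

open Classical in
theorem count_eq (n : ℕ) :
    ((range (2 ^ ((2 * n + 1) * (2 * n + 1)))).filter (fun c => P n c)).card = (RF n).card := by
  refine card_nbij (dec n) ?_ ?_ ?_
  · intro c hc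
    exact (P_iff n c).1 (mem_filter.1 hc).2
  · intro c hc d hd hcd
    have hc' := mem_range.1 (mem_filter.1 hc).1
    have hd' := mem_range.1 (mem_filter.1 hd).1
    apply Nat.eq_of_testBit_eq
    intro i
    by_cases hi : i < (2 * n + 1) * (2 * n + 1)
    · have h1 := cell_mem_dec (c := c) hi
      rw [hcd, cell_mem_dec hi, bt_iff, bt_iff] at h1
      rw [Bool.eq_iff_iff]
      exact h1.symm
    · push Not at hi
      rw [Nat.testBit_lt_two_pow (lt_of_lt_of_le hc' (Nat.pow_le_pow_right (by norm_num) hi)),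
        Nat.testBit_lt_two_pow (lt_of_lt_of_le hd' (Nat.pow_le_pow_right (by norm_num) hi))]
  · intro S hS
    have hS' : S ∈ RF n := hS
    have hdec : dec n (enc n (S : Set (ℤ × ℤ))) = S := by
      ext p
      constructor
      · intro hp
        obtain ⟨i, hi, rfl⟩ := mem_image.1 hp
        rw [mem_filter, mem_range] at hi
        exact (bt_enc _ hi.1).1 hi.2
      · intro hp
        obtain ⟨i, hi, rfl⟩ := exists_index (sub_box (mem_RF.1 hS').1 (mem_RF.1 hS').2 hp)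
        exact (cell_mem_dec hi).2 ((bt_enc _ hi).2 hp)
    refine ⟨enc n (S : Set (ℤ × ℤ)), ?_, hdec⟩
    simp only [coe_filter, mem_range]
    refine ⟨enc_lt n _, (P_iff n _).2 ?_⟩
    rw [hdec]
    exact hS'

theorem t_prim : Primrec t := by
  classical
  have h1 : Primrec (fun n => (RF n).card) :=
    (pcount (ppow (Primrec.const 2) (ww_prim Primrec.id)) P_prim).of_eq fun n => count_eq n
  refine (Primrec.nat_div.comp h1 Primrec.id).of_eq fun n => ?_
  simp only [id]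
  rw [card_RF]
  rcases Nat.eq_zero_or_pos n with hn | hn
  · rw [hn, t_zero]
  · exact Nat.mul_div_cancel_left _ hn

end Pool.Agent.H224R3.Kl
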