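import Pool.Agent.H224R3.Kl4

set_option autoImplicit false

namespace Pool.Agent.H224R3.Kl

open Finset Filter Topology

/-- `p / 2 ^ m` passes the test of level `m`: for every `k` in `[m + 18, 4 (m + 18)]` one has
`k ^ 5 * t(k) ≤ (p / 2 ^ m) ^ k`. -/
def Good (m p : ℕ) : Prop :=
  ∀ k, m + 18 ≤ k → k ≤ 4 * (m + 18) → k ^ 5 * t k * 2 ^ (m * k) ≤ p ^ k

/-- The least `p` such that `p / 2 ^ m` passes the test of level `m`. -/
noncomputable def pp (m : ℕ) : ℕ := sInf {p | Good m p}

/-- `nn m / 2 ^ m` is the minimum of `pp j / 2 ^ j` over `j ≤ m`. -/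
noncomputable def nn : ℕ → ℕ
  | 0 => pp 0
  | (m + 1) => min (2 * nn m) (pp (m + 1))

/-- The sequence of upper approximations. -/
noncomputable def beta (m : ℕ) : ℚ := (nn m : ℚ) / 2 ^ m + 1 / (m + 1)

/-- An a priori upper bound for `pp`. -/
noncomputable def bb (m : ℕ) : ℕ := ∑ k ∈ range (4 * (m + 18) + 1), k ^ 5 * t k * 2 ^ (m * k)

theorem good_bb (m : ℕ) : Good m (bb m) := by
  intro k hk1 hk2
  have h1 : k ^ 5 * t k * 2 ^ (m * k) ≤ bb m :=
    single_le_sum (f := fun k => k ^ 5 * t k * 2 ^ (m * k)) (fun _ _ => Nat.zero_le _)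
      (mem_range.2 (by omega))
  exact h1.trans (Nat.le_self_pow (by omega) _)

theorem good_pp (m : ℕ) : Good m (pp m) := Nat.sInf_mem (s := {p | Good m p}) ⟨_, good_bb m⟩

theorem pp_le {m p : ℕ} (h : Good m p) : pp m ≤ p := Nat.sInf_le h

theorem good_mono {m p q : ℕ} (h : Good m p) (hpq : p ≤ q) : Good m q := fun k h1 h2 =>
  (h k h1 h2).trans (Nat.pow_le_pow_left hpq k)

theorem good_prim : PrimrecRel Good := by
  have f1 : Primrec (fun a : ℕ × ℕ => a.1) := Primrec.fst
  have g1 : Primrec (fun a : (ℕ × ℕ) × ℕ => a.1.1) := f1.comp Primrec.fst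
  have g2 : Primrec (fun a : (ℕ × ℕ) × ℕ => a.1.2) := Primrec.snd.comp Primrec.fst
  have g3 : Primrec (fun a : (ℕ × ℕ) × ℕ => a.2) := Primrec.snd
  have hf : Primrec (fun a : ℕ × ℕ => 4 * (a.1 + 18) + 1) :=
    Primrec.succ.comp (Primrec.nat_mul.comp (Primrec.const 4)
      (Primrec.nat_add.comp f1 (Primrec.const 18)))
  have hR : PrimrecPred (fun a : (ℕ × ℕ) × ℕ =>
      a.1.1 + 18 ≤ a.2 → a.2 ^ 5 * t a.2 * 2 ^ (a.1.1 * a.2) ≤ a.1.2 ^ a.2) :=
    pimp (Primrec.nat_le.comp (Primrec.nat_add.comp g1 (Primrec.const 18)) g3)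
      (Primrec.nat_le.comp (Primrec.nat_mul.comp (Primrec.nat_mul.comp (ppow g3 (Primrec.const 5))
        (t_prim.comp g3)) (ppow (Primrec.const 2) (Primrec.nat_mul.comp g1 g3))) (ppow g2 g3))
  refine (pforall hf hR.primrecRel).of_eq fun a => ?_
  constructor
  · intro h k h1 h2
    exact h k (by omega) h1
  · intro h k h1 h2
    exact h k h2 (by omega)

theorem bb_prim : Primrec bb := by
  have g1 : Primrec (fun a : ℕ × ℕ => a.1) := Primrec.fst
  have g3 : Primrec (fun a : ℕ × ℕ => a.2) := Primrec.snd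
  refine psum (g := fun m k => k ^ 5 * t k * 2 ^ (m * k)) ?_ ?_
  · exact Primrec.succ.comp (Primrec.nat_mul.comp (Primrec.const 4)
      (Primrec.nat_add.comp Primrec.id (Primrec.const 18)))
  · exact Primrec.nat_mul.comp (Primrec.nat_mul.comp (ppow g3 (Primrec.const 5))
        (t_prim.comp g3)) (ppow (Primrec.const 2) (Primrec.nat_mul.comp g1 g3))

theorem pp_prim : Primrec pp := by
  refine Primrec.of_graph ⟨bb, bb_prim, fun m => pp_le (good_bb m)⟩ ?_
  have h1 : PrimrecPred (fun a : (ℕ × ℕ) × ℕ => ¬ Good a.1.1 a.2) :=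
    (good_prim.comp (Primrec.fst.comp Primrec.fst) Primrec.snd).not
  have h2 : PrimrecPred (fun a : ℕ × ℕ => ∀ q < a.2, ¬ Good a.1 q) :=
    pforall Primrec.snd h1.primrecRel
  refine (good_prim.and h2).of_eq fun a => ?_
  constructor
  · rintro ⟨h3, h4⟩
    refine le_antisymm (pp_le h3) ?_
    by_contra hcon
    push Not at hcon
    exact h4 _ hcon (good_pp a.1)
  · intro h
    rw [← h]
    exact ⟨good_pp a.1, fun q hq hg => absurd (pp_le hg) (not_le.2 hq)⟩

theorem nn_prim : Primrec nn := by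
  have h : Primrec (Nat.rec (pp 0) (fun m x => min (2 * x) (pp (m + 1))) : ℕ → ℕ) := by
    refine Primrec.nat_rec₁ _ ?_
    exact Primrec.nat_min.comp (Primrec.nat_mul.comp (Primrec.const 2) Primrec.snd)
      (pp_prim.comp (Primrec.succ.comp Primrec.fst))
  refine h.of_eq fun m => ?_
  induction m with
  | zero => rfl
  | succ n ih =>
    change min (2 * _) _ = min (2 * _) _
    rw [ih]

theorem pp_pos (m : ℕ) : 0 < pp m := by
  rcases Nat.eq_zero_or_pos (pp m) with h | h
  · exfalso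
    have h1 := good_pp m (m + 18) le_rfl (by omega)
    rw [h, zero_pow (by omega), Nat.le_zero, mul_eq_zero, mul_eq_zero] at h1
    have h2 := t_pos (m + 18) (by omega)
    rcases h1 with (h1 | h1) | h1
    · have := pow_pos (by omega : 0 < m + 18) 5
      omega
    · omega
    · have : 0 < 2 ^ (m * (m + 18)) := by positivity
      omega
  · exact h

theorem klarner_le_pp (m : ℕ) : klarner ≤ (pp m : ℝ) / 2 ^ m := by
  have h0 : (0 : ℝ) < pp m := by exact_mod_cast pp_pos m
  refine klarner_le (M := m + 18) (by omega) (by positivity) fun k hk1 hk2 => ?_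
  have h1 := good_pp m k hk1 hk2
  have h2 : (k : ℝ) ^ 5 * t k * 2 ^ (m * k) ≤ (pp m : ℝ) ^ k := by exact_mod_cast h1
  rw [div_pow, ← pow_mul, le_div_iff₀ (by positivity)]
  exact h2

theorem klarner_le_nn (m : ℕ) : klarner ≤ (nn m : ℝ) / 2 ^ m := by
  induction m with
  | zero => exact klarner_le_pp 0
  | succ m ih =>
    change klarner ≤ ((min (2 * nn m) (pp (m + 1)) : ℕ) : ℝ) / 2 ^ (m + 1)
    rcases min_choice (2 * nn m) (pp (m + 1)) with h | h <;> rw [h]
    · refine ih.trans (le_of_eq ?_)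
      push_cast
      rw [pow_succ]
      field_simp
    · exact klarner_le_pp (m + 1)

theorem nn_le_pp (m : ℕ) : nn m ≤ pp m := by
  cases m with
  | zero => exact le_rfl
  | succ m => exact min_le_right _ _

theorem nn_step (m : ℕ) : ((nn (m + 1) : ℕ) : ℚ) / 2 ^ (m + 1) ≤ (nn m : ℚ) / 2 ^ m := by
  have h1 : nn (m + 1) ≤ 2 * nn m := min_le_left _ _
  have h2 : ((nn (m + 1) : ℕ) : ℚ) ≤ 2 * nn m := by exact_mod_cast h1
  rw [div_le_div_iff₀ (by positivity) (by positivity), pow_succ]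
  have h3 : (0 : ℚ) < 2 ^ m := by positivity
  nlinarith

theorem beta_anti : StrictAnti beta := by
  refine strictAnti_nat_of_succ_lt fun m => ?_
  unfold beta
  have h1 := nn_step m
  have h2 : (1 : ℚ) / ((m + 1 : ℕ) + 1) < 1 / (m + 1) := by
    apply one_div_lt_one_div_of_lt (by positivity)
    push_cast
    linarith
  exact add_lt_add_of_le_of_lt h1 h2

theorem pp_upper (m : ℕ) : (pp m : ℝ) / 2 ^ m ≤
    klarner * Real.exp (5 * (Real.log (m + 18) / (m + 18))) + 1 / 2 ^ m := by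
  set ρ : ℝ := klarner * Real.exp (5 * (Real.log (m + 18) / (m + 18))) with hρ
  have hρ0 : 0 < ρ := mul_pos klarner_pos (Real.exp_pos _)
  have hgood : Good m ⌈2 ^ m * ρ⌉₊ := by
    intro k hk1 hk2
    have hkR : ((m : ℝ) + 18) ≤ k := by exact_mod_cast hk1
    have hk0 : (0 : ℝ) < k := by
      have : (0 : ℝ) ≤ m := by positivity
      linarith
    have h1 : (k : ℝ) ^ 5 ≤ Real.exp (5 * (Real.log (m + 18) / (m + 18))) ^ k := by
      rw [← Real.exp_nat_mul]
      have h2 : Real.log k / k ≤ Real.log (m + 18) / (m + 18) := by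
        have he : Real.exp 1 ≤ (m : ℝ) + 18 := by
          have := Real.exp_one_lt_d9
          have : (0 : ℝ) ≤ m := by positivity
          linarith
        exact Real.log_div_self_antitoneOn he (he.trans hkR) hkR
      have h3 : 5 * Real.log k ≤ k * (5 * (Real.log (m + 18) / (m + 18))) := by
        have h4 : Real.log k = k * (Real.log k / k) := by field_simp
        have h5 : k * (Real.log k / k) ≤ k * (Real.log (m + 18) / (m + 18)) :=
          mul_le_mul_of_nonneg_left h2 hk0.le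
        linarith
      calc (k : ℝ) ^ 5 = Real.exp (5 * Real.log k) := by
            rw [show (5 : ℝ) * Real.log k = ((5 : ℕ) : ℝ) * Real.log k by norm_num,
              Real.exp_nat_mul, Real.exp_log hk0]
        _ ≤ _ := Real.exp_le_exp.2 h3
    have h2 : (t k : ℝ) ≤ klarner ^ k := t_le_klarner k (by omega)
    have h3 : (k : ℝ) ^ 5 * t k * 2 ^ (m * k) ≤ (2 ^ m * ρ) ^ k := by
      rw [mul_pow, hρ, mul_pow, ← pow_mul]
      have h4 : (k : ℝ) ^ 5 * t k ≤
          klarner ^ k * Real.exp (5 * (Real.log (m + 18) / (m + 18))) ^ k := by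
        rw [mul_comm]
        exact mul_le_mul h2 h1 (by positivity) (pow_nonneg klarner_pos.le k)
      have h5 : (0 : ℝ) ≤ 2 ^ (m * k) := by positivity
      nlinarith
    have h4 : (2 ^ m * ρ) ^ k ≤ ((⌈2 ^ m * ρ⌉₊ : ℕ) : ℝ) ^ k :=
      pow_le_pow_left₀ (by positivity) (Nat.le_ceil _) k
    exact_mod_cast h3.trans h4
  have h1 : (pp m : ℝ) ≤ ⌈2 ^ m * ρ⌉₊ := by exact_mod_cast pp_le hgood
  have h2 : ((⌈2 ^ m * ρ⌉₊ : ℕ) : ℝ) < 2 ^ m * ρ + 1 := Nat.ceil_lt_add_one (by positivity)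
  rw [div_le_iff₀ (by positivity)]
  have h3 : (ρ + 1 / 2 ^ m) * 2 ^ m = 2 ^ m * ρ + 1 := by field_simp
  rw [h3]
  linarith

theorem beta_cast (m : ℕ) : (beta m : ℝ) = (nn m : ℝ) / 2 ^ m + 1 / (m + 1) := by
  unfold beta
  push_cast
  ring

theorem klarner_lt_beta (m : ℕ) : klarner < beta m := by
  rw [beta_cast]
  have h1 := klarner_le_nn m
  have h2 : (0 : ℝ) < 1 / (m + 1) := by positivity
  linarith

theorem beta_le (m : ℕ) : (beta m : ℝ) ≤
    klarner * Real.exp (5 * (Real.log (m + 18) / (m + 18))) + 1 / 2 ^ m + 1 / (m + 1) := by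
  rw [beta_cast]
  have h1 := pp_upper m
  have h2 : (nn m : ℝ) / 2 ^ m ≤ (pp m : ℝ) / 2 ^ m := by
    apply div_le_div_of_nonneg_right _ (by positivity)
    exact_mod_cast nn_le_pp m
  linarith

theorem beta_rate (m : ℕ) : (beta m : ℝ) - klarner ≤
    40 * klarner * (Real.log (m + 18) / (m + 18)) + 1 / 2 ^ m + 1 / (m + 1) := by
  have h1 := beta_le m
  set x : ℝ := 5 * (Real.log (m + 18) / (m + 18)) with hx
  have hm : (0 : ℝ) ≤ m := by positivity
  have hx0 : 0 ≤ x := by
    have : 0 ≤ Real.log ((m : ℝ) + 18) := Real.log_nonneg (by linarith)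
    positivity
  have hx2 : x ≤ 2 := by
    have h2 : Real.log ((m : ℝ) + 18) / (m + 18) ≤ Real.log (Real.exp 1) / Real.exp 1 := by
      have he : Real.exp 1 ≤ (m : ℝ) + 18 := by
        have := Real.exp_one_lt_d9
        linarith
      exact Real.log_div_self_antitoneOn (Set.mem_ofPred_eq ▸ le_rfl) he he
    rw [Real.log_exp] at h2
    have h3 : 1 / Real.exp 1 ≤ 2 / 5 := by
      rw [div_le_div_iff₀ (Real.exp_pos 1) (by norm_num)]
      have := Real.exp_one_gt_d9
      linarith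
    linarith
  have h4 : Real.exp x - 1 ≤ x * Real.exp x := by
    have h5 := Real.add_one_le_exp (-x)
    have h6 : Real.exp (-x) * Real.exp x = 1 := by rw [← Real.exp_add]; simp
    have h7 := Real.exp_pos x
    nlinarith
  have h5 : Real.exp x ≤ 8 := by
    have h6 : Real.exp x ≤ Real.exp 2 := Real.exp_le_exp.2 hx2
    have h7 : Real.exp 2 = Real.exp 1 * Real.exp 1 := by rw [← Real.exp_add]; norm_num
    have h8 := Real.exp_one_lt_d9
    have h9 := Real.exp_pos 1
    nlinarith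
  have h6 : x * Real.exp x ≤ x * 8 := mul_le_mul_of_nonneg_left h5 hx0
  have h7 : klarner * (Real.exp x - 1) ≤ klarner * (x * 8) :=
    mul_le_mul_of_nonneg_left (h4.trans h6) klarner_pos.le
  have h8 : klarner * (x * 8) = 40 * klarner * (Real.log (m + 18) / (m + 18)) := by
    rw [hx]; ring
  linarith

theorem beta_tendsto : Tendsto (fun m => (beta m : ℝ)) atTop (𝓝 klarner) := by
  have h1 : Tendsto (fun m : ℕ => Real.log ((m : ℝ) + 18) / ((m : ℝ) + 18)) atTop (𝓝 0) := by
    have h2 := Real.isLittleO_log_id_atTop.tendsto_div_nhds_zero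
    exact h2.comp (tendsto_atTop_add_const_right atTop (18 : ℝ) tendsto_natCast_atTop_atTop)
  have h2 : Tendsto (fun m : ℕ => klarner * Real.exp (5 * (Real.log ((m : ℝ) + 18) / ((m : ℝ) + 18)))
      + 1 / 2 ^ m + 1 / ((m : ℝ) + 1)) atTop
      (𝓝 (klarner * Real.exp (5 * 0) + 0 + 0)) := by
    refine ((((h1.const_mul 5).rexp).const_mul klarner).add ?_).add ?_
    · have h3 := tendsto_pow_atTop_nhds_zero_of_lt_one (r := (1 / 2 : ℝ)) (by norm_num)
        (by norm_num)
      refine h3.congr fun m => ?_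
      rw [one_div_pow]
    · exact tendsto_one_div_add_atTop_nhds_zero_nat
  rw [mul_zero, Real.exp_zero, mul_one, add_zero, add_zero] at h2
  exact tendsto_of_tendsto_of_tendsto_of_le_of_le tendsto_const_nhds h2
    (fun m => (klarner_lt_beta m).le) beta_le

end Pool.Agent.H224R3.Kl
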