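import Pool.Agent.H862R3.Prim.Stmts2

set_option autoImplicit false

/-! Task T (transfer) of project PRIMVAR. -/

namespace Pool.Agent.H224R3.PV

open Pool.Agent.H862R3.Prim

theorem taskT : TaskT := by
  intro G _ _ Q q hq hcomm _ hcop z hz hzc hzk
  obtain ⟨k, hk⟩ := hzk
  let _ : CommGroup Q :=
    { (inferInstance : Group Q) with
      mul_comm := fun a b => Subtype.ext (hcomm a a.2 b b.2) }
  have hcen : ∀ g : G, g * z = z * g := fun g => (Subgroup.mem_center_iff.1 hz g)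
  have key : ∀ (k : ℕ) (g₀ : G), g₀⁻¹ * z ^ k * g₀ ∈ Q → g₀⁻¹ * z ^ k * g₀ = z ^ k := by
    intro k g₀ _
    have h1 : Commute g₀ z := hcen g₀
    have h2 : Commute g₀ (z ^ k) := h1.pow_right k
    rw [mul_assoc, ← h2.eq, inv_mul_cancel_left]
  have h1 := MonoidHom.transfer_eq_pow (MonoidHom.id Q) z key
  have h2 : MonoidHom.transfer (MonoidHom.id Q) z = 1 :=
    MonoidHom.mem_ker.1 (Abelianization.commutator_subset_ker _ hzc)
  rw [h2] at h1
  have h3 : z ^ Q.index = 1 := by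
    have := congrArg (fun x : Q => (x : G)) h1
    exact this.symm
  have h4 : orderOf z ∣ Q.index := orderOf_dvd_of_pow_eq_one h3
  have h5 : orderOf z ∣ q ^ k := orderOf_dvd_of_pow_eq_one hk
  have h6 : Nat.Coprime (q ^ k) Q.index := Nat.Coprime.pow_left k hcop
  have h7 : orderOf z ∣ 1 := by
    rw [← Nat.Coprime.gcd_eq_one h6]
    exact Nat.dvd_gcd h5 h4
  exact orderOf_eq_one_iff.1 (Nat.dvd_one.1 h7)

end Pool.Agent.H224R3.PV
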