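import Mathlib

set_option autoImplicit false

namespace Pool.Agent.H224R3.Vis

/-- the plane -/
abbrev Pt := ℝ × ℝ

/-- The closed polygonal curve through the points v 0, ..., v (n-1) (and back to v 0). -/
def curve {n : ℕ} (v : Fin n → Pt) : Set Pt := ⋃ i, segment ℝ (v i) (v (finRotate n i))

/-- v 0, ..., v (n-1) are, in cyclic order, the vertices of a simple polygon: there are at least
three, they are distinct, two different edges meet only if they are consecutive, and then only in
their common vertex, and three consecutive vertices are never collinear. -/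
structure IsSimplePolygon {n : ℕ} (v : Fin n → Pt) : Prop where
  three_le : 3 ≤ n
  injective : Function.Injective v
  simple : ∀ i j, i ≠ j → ∀ x, x ∈ segment ℝ (v i) (v (finRotate n i)) →
    x ∈ segment ℝ (v j) (v (finRotate n j)) →
    (j = finRotate n i ∧ x = v j) ∨ (i = finRotate n j ∧ x = v i)
  corner : ∀ i, ¬ Collinear ℝ {v i, v (finRotate n i), v (finRotate n (finRotate n i))}

/-- The exterior of the polygon: the points off the curve lying in an unbounded connected component
of the complement of the curve. -/
def exterior {n : ℕ} (v : Fin n → Pt) : Set Pt :=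
  {x | x ∉ curve v ∧ ¬ Bornology.IsBounded (connectedComponentIn (curve v)ᶜ x)}

/-- The closed polygonal region (curve included). -/
def region {n : ℕ} (v : Fin n → Pt) : Set Pt := (exterior v)ᶜ

/-- The visibility graph of the polygon. -/
def visGraph {n : ℕ} (v : Fin n → Pt) : SimpleGraph (Fin n) where
  Adj i j := i ≠ j ∧ segment ℝ (v i) (v j) ⊆ region v
  symm := ⟨fun i j h => ⟨h.1.symm, by rw [segment_symm]; exact h.2⟩⟩
  loopless := ⟨fun i h => h.1 rfl⟩

/-- isomorphism of graphs on Fin n -/
def isoSetoid (n : ℕ) : Setoid (SimpleGraph (Fin n)) where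
  r G H := Nonempty (G ≃g H)
  iseqv := ⟨fun _ => ⟨SimpleGraph.Iso.refl⟩, fun ⟨f⟩ => ⟨f.symm⟩, fun ⟨f⟩ ⟨g⟩ => ⟨f.trans g⟩⟩

/-- N(n): the number of isomorphism classes of visibility graphs of simple polygons with n
vertices. -/
noncomputable def numVis (n : ℕ) : ℕ :=
  Set.ncard {c : Quotient (isoSetoid n) |
    ∃ v : Fin n → Pt, IsSimplePolygon v ∧ Quotient.mk (isoSetoid n) (visGraph v) = c}

theorem region_eq {n : ℕ} (v : Fin n → Pt) (K U : Set Pt) (hK : IsClosed K) (hU : IsOpen U)
    (hUK : U ⊆ K) (hcK : curve v ⊆ K) (hKU : K \ U ⊆ curve v)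
    (hb : Bornology.IsBounded K)
    (hout : ∀ x, x ∉ K → ∃ R : Set Pt, x ∈ R ∧ R ⊆ Kᶜ ∧ IsPreconnected R ∧
      ¬ Bornology.IsBounded R) : region v = K := by
  ext x
  simp only [region, exterior, Set.mem_compl_iff, Set.mem_ofPred_eq, not_and, not_not]
  constructor
  · intro h
    by_contra hx
    obtain ⟨R, hxR, hRK, hR, hRb⟩ := hout x hx
    have hxc : x ∉ curve v := fun hc => hx (hcK hc)
    have hb' := h hxc
    have hsub : R ⊆ connectedComponentIn (curve v)ᶜ x := by
      apply hR.subset_connectedComponentIn hxR
      intro y hy hyc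
      exact hRK hy (hcK hyc)
    exact hRb (hb'.subset hsub)
  · intro hx hxc
    have hxU : x ∈ U := by
      by_contra hxU
      exact hxc (hKU ⟨hx, hxU⟩)
    have hsub : connectedComponentIn (curve v)ᶜ x ⊆ U := by
      have hpre : IsPreconnected (connectedComponentIn (curve v)ᶜ x) :=
        isPreconnected_connectedComponentIn
      have hcov : connectedComponentIn (curve v)ᶜ x ⊆ U ∪ Kᶜ := by
        intro y hy
        have hyc := connectedComponentIn_subset _ _ hy
        by_cases hyK : y ∈ K
        · left
          by_contra hyU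
          exact hyc (hKU ⟨hyK, hyU⟩)
        · exact Or.inr hyK
      have hxm : x ∈ connectedComponentIn (curve v)ᶜ x := mem_connectedComponentIn hxc
      exact hpre.subset_left_of_subset_union hU hK.isOpen_compl
        (by
          rw [Set.disjoint_compl_right_iff_subset]
          exact hUK) hcov ⟨x, hxm, hxU⟩
    exact hb.subset (hsub.trans hUK)

end Pool.Agent.H224R3.Vis
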