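import Pool.Agent.H224R3.Vis1

set_option autoImplicit false

namespace Pool.Agent.H224R3.Vis

open Finset

/-- constant -/
def AA (K : ℕ) : ℝ := ((K : ℝ) + 1) ^ 2

/-- the lines of the right chain -/
noncomputable def Lin (m K j : ℕ) (y : ℝ) : ℝ :=
  if j = 0 then y * (AA K - 1) / (2 * m + 1) else AA K - (j : ℝ) ^ 2 - (2 * j + 1) * (y - 2 * m - j)

/-- slope of the top edge -/
noncomputable def cc (K : ℕ) : ℝ := (AA K - (K : ℝ) ^ 2) / K

/-- the left chain -/
noncomputable def ell (m K : ℕ) (D : ℕ → ℝ) (y : ℝ) : ℝ :=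
  -(∑ i ∈ range (2 * m + 1), D i * max 0 (1 - |y - i|)) + max 0 ((y - 2 * m) * cc K)

/-- closed region -/
def KK (m K : ℕ) (D : ℕ → ℝ) : Set Pt :=
  {p | 0 ≤ p.2 ∧ p.2 ≤ 2 * m + K ∧ ell m K D p.2 ≤ p.1 ∧ ∀ j < K, p.1 ≤ Lin m K j p.2}

/-- open region -/
def UU (m K : ℕ) (D : ℕ → ℝ) : Set Pt :=
  {p | 0 < p.2 ∧ p.2 < 2 * m + K ∧ ell m K D p.2 < p.1 ∧ ∀ j < K, p.1 < Lin m K j p.2}

/-- convex part -/
def CC (m K : ℕ) : Set Pt :=
  {p | 0 ≤ p.2 ∧ p.2 ≤ 2 * m + K ∧ 0 ≤ p.1 ∧ (p.2 - 2 * m) * cc K ≤ p.1 ∧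
    ∀ j < K, p.1 ≤ Lin m K j p.2}

/-- vertices -/
noncomputable def ww (m K : ℕ) (D : ℕ → ℝ) (k : ℕ) : Pt :=
  if k ≤ 2 * m then (-(D k), (k : ℝ))
  else (AA K - ((2 * m + 1 + K - k : ℕ) : ℝ) ^ 2, 2 * m + ((2 * m + 1 + K - k : ℕ) : ℝ))

theorem Lin_affine (m K j : ℕ) (a b y z : ℝ) (h : a + b = 1) :
    Lin m K j (a * y + b * z) = a * Lin m K j y + b * Lin m K j z := by
  unfold Lin
  split_ifs
  · ring
  · have : b = 1 - a := by linarith
    subst this
    ring

theorem Lin_continuous (m K j : ℕ) : Continuous (Lin m K j) := by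
  unfold Lin
  split_ifs <;> fun_prop

theorem ell_continuous (m K : ℕ) (D : ℕ → ℝ) : Continuous (ell m K D) := by
  unfold ell
  fun_prop

theorem CC_convex (m K : ℕ) : Convex ℝ (CC m K) := by
  rintro ⟨x1, y1⟩ ⟨a1, a2, a3, a4, a5⟩ ⟨x2, y2⟩ ⟨b1, b2, b3, b4, b5⟩ a b ha hb hab
  simp only at a1 a2 a3 a4 a5 b1 b2 b3 b4 b5
  simp only [CC, Prod.smul_mk, Prod.mk_add_mk, smul_eq_mul, Set.mem_ofPred_eq]
  refine ⟨by positivity, ?_, by positivity, ?_, ?_⟩
  · calc a * y1 + b * y2 ≤ a * (2 * m + K) + b * (2 * m + K) := by gcongr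
      _ = _ := by rw [← add_mul, hab, one_mul]
  · calc (a * y1 + b * y2 - 2 * m) * cc K = a * ((y1 - 2 * m) * cc K) + b * ((y2 - 2 * m) * cc K) := by
          have : b = 1 - a := by linarith
          subst this; ring
      _ ≤ _ := by gcongr
  · intro j hj
    rw [Lin_affine m K j a b y1 y2 hab]
    have := a5 j hj
    have := b5 j hj
    gcongr

theorem cc_pos {K : ℕ} (hK : 1 ≤ K) : 0 < cc K := by
  unfold cc AA
  have : (1 : ℝ) ≤ K := by exact_mod_cast hK
  apply div_pos _ (by linarith)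
  nlinarith

theorem ell_mid {m K : ℕ} {D : ℕ → ℝ} (hK : 1 ≤ K) {k : ℕ} (hk : k < 2 * m) {y : ℝ}
    (h1 : (k : ℝ) ≤ y) (h2 : y ≤ k + 1) :
    ell m K D y = -(D k * (k + 1 - y) + D (k + 1) * (y - k)) := by
  have hkm : (k : ℝ) + 1 ≤ 2 * m := by exact_mod_cast hk
  have hmax : max 0 ((y - 2 * m) * cc K) = 0 := by
    apply max_eq_left
    have := cc_pos hK
    nlinarith
  unfold ell
  rw [hmax, add_zero]
  congr 1
  have hsub : ({k, k + 1} : Finset ℕ) ⊆ range (2 * m + 1) := by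
    intro i hi
    rw [mem_insert, mem_singleton] at hi
    rw [mem_range]; omega
  rw [← sum_subset hsub]
  · rw [sum_pair (by omega)]
    congr 1
    · congr 1
      rw [abs_of_nonneg (by linarith), max_eq_right (by linarith)]
      ring
    · congr 1
      push_cast
      rw [abs_of_nonpos (by linarith), max_eq_right (by linarith)]
      ring
  · intro i _ hi
    rw [mem_insert, mem_singleton, not_or] at hi
    have : max 0 (1 - |y - i|) = 0 := by
      apply max_eq_left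
      rw [sub_nonpos]
      rcases Nat.lt_or_ge i k with h | h
      · have : (i : ℝ) + 1 ≤ k := by exact_mod_cast h
        rw [abs_of_nonneg (by linarith)]
        linarith
      · have h' : k + 2 ≤ i := by omega
        have : (k : ℝ) + 2 ≤ i := by exact_mod_cast h'
        rw [abs_of_nonpos (by linarith)]
        linarith
    rw [this, mul_zero]

theorem ell_top {m K : ℕ} {D : ℕ → ℝ} (hK : 1 ≤ K) (hD : D (2 * m) = 0) {y : ℝ}
    (h1 : (2 * m : ℝ) ≤ y) : ell m K D y = (y - 2 * m) * cc K := by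
  have hmax : max 0 ((y - 2 * m) * cc K) = (y - 2 * m) * cc K := by
    apply max_eq_right
    have := cc_pos hK
    apply mul_nonneg _ this.le
    linarith
  unfold ell
  rw [hmax]
  have : ∑ i ∈ range (2 * m + 1), D i * max 0 (1 - |y - i|) = 0 := by
    apply sum_eq_zero
    intro i hi
    rw [mem_range] at hi
    by_cases h : i = 2 * m
    · rw [h, hD, zero_mul]
    · have h' : i + 1 ≤ 2 * m := by omega
      have h'' : (i : ℝ) + 1 ≤ 2 * m := by exact_mod_cast h'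
      have : max 0 (1 - |y - i|) = 0 := by
        apply max_eq_left
        rw [sub_nonpos, abs_of_nonneg (by linarith)]
        linarith
      rw [this, mul_zero]
  rw [this]
  ring

theorem ell_le {m K : ℕ} {D : ℕ → ℝ} (hD : ∀ k, 0 ≤ D k) (y : ℝ) :
    ell m K D y ≤ max 0 ((y - 2 * m) * cc K) := by
  unfold ell
  have : 0 ≤ ∑ i ∈ range (2 * m + 1), D i * max 0 (1 - |y - i|) :=
    sum_nonneg (fun i _ => mul_nonneg (hD i) (le_max_left _ _))
  linarith

theorem ell_nonpos {m K : ℕ} {D : ℕ → ℝ} (hK : 1 ≤ K) (hD : ∀ k, 0 ≤ D k) {y : ℝ}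
    (hy : y ≤ 2 * m) : ell m K D y ≤ 0 := by
  refine (ell_le hD y).trans ?_
  apply max_le le_rfl
  have := cc_pos hK
  nlinarith

theorem ell_lower {m K : ℕ} {D : ℕ → ℝ} (hD : ∀ k, 0 ≤ D k) (y : ℝ) :
    -(∑ i ∈ range (2 * m + 1), D i) ≤ ell m K D y := by
  unfold ell
  have h1 : ∑ i ∈ range (2 * m + 1), D i * max 0 (1 - |y - i|) ≤ ∑ i ∈ range (2 * m + 1), D i := by
    apply sum_le_sum
    intro i _
    have : max 0 (1 - |y - i|) ≤ 1 := by
      apply max_le (by norm_num)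
      have := abs_nonneg (y - i)
      linarith
    calc D i * max 0 (1 - |y - i|) ≤ D i * 1 := mul_le_mul_of_nonneg_left this (hD i)
      _ = D i := mul_one _
  have := le_max_left 0 ((y - 2 * m) * cc K)
  linarith

theorem CC_sub_KK {m K : ℕ} {D : ℕ → ℝ} (hD : ∀ k, 0 ≤ D k) : CC m K ⊆ KK m K D := by
  rintro p ⟨a1, a2, a3, a4, a5⟩
  exact ⟨a1, a2, (ell_le hD _).trans (max_le a3 a4), a5⟩

theorem rr_mem {m K : ℕ} {j : ℕ} (hj : 1 ≤ j) (hjK : j ≤ K) :
    ((AA K - (j : ℝ) ^ 2, 2 * m + (j : ℝ)) : Pt) ∈ CC m K := by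
  have h1 : (1 : ℝ) ≤ j := by exact_mod_cast hj
  have h2 : (j : ℝ) ≤ K := by exact_mod_cast hjK
  have hK : (0 : ℝ) < K := by linarith
  simp only [CC, Set.mem_ofPred_eq]
  refine ⟨by positivity, by linarith, ?_, ?_, ?_⟩
  · unfold AA; nlinarith
  · unfold cc
    rw [show (2 * (m : ℝ) + j - 2 * m) = j by ring, mul_div_assoc', div_le_iff₀ hK]
    unfold AA
    nlinarith [mul_nonneg (sub_nonneg.2 h2) (mul_nonneg hK.le (by linarith : (0 : ℝ) ≤ j)),
      mul_nonneg (sub_nonneg.2 h2) hK.le]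
  · intro i hi
    unfold Lin
    split_ifs with h
    · rw [le_div_iff₀ (by positivity)]
      unfold AA
      have : (0 : ℝ) ≤ m := Nat.cast_nonneg m
      nlinarith [mul_nonneg this (by nlinarith : (0 : ℝ) ≤ (j : ℝ) ^ 2 - 1),
        mul_nonneg (by linarith : (0 : ℝ) ≤ (j : ℝ) - 1) (by nlinarith : (0 : ℝ) ≤ (K : ℝ) ^ 2 + 2 * K)]
    · have key : (0 : ℝ) ≤ ((j : ℝ) - i) * ((j : ℝ) - i - 1) := by
        rcases lt_trichotomy j i with h3 | h3 | h3
        · have : (j : ℝ) + 1 ≤ i := by exact_mod_cast h3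
          nlinarith
        · subst h3; simp
        · have : (i : ℝ) + 1 ≤ j := by exact_mod_cast h3
          nlinarith
      nlinarith

theorem b0_mem {m K : ℕ} (hK : 1 ≤ K) : ((0, 0) : Pt) ∈ CC m K := by
  have h2 : (1 : ℝ) ≤ K := by exact_mod_cast hK
  have hc := cc_pos hK
  simp only [CC, Set.mem_ofPred_eq]
  refine ⟨le_rfl, by positivity, le_rfl, ?_, ?_⟩
  · have : (0 : ℝ) ≤ m := Nat.cast_nonneg m
    nlinarith
  · intro i hi
    have hi' : (i : ℝ) + 1 ≤ K := by exact_mod_cast hi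
    have h0 : (0 : ℝ) ≤ i := Nat.cast_nonneg i
    unfold Lin
    split_ifs with h
    · simp
    · unfold AA
      have : (0 : ℝ) ≤ m := Nat.cast_nonneg m
      nlinarith [mul_nonneg h0 this]

theorem bm_mem {m K : ℕ} (hK : 1 ≤ K) : ((0, 2 * m) : Pt) ∈ CC m K := by
  have h2 : (1 : ℝ) ≤ K := by exact_mod_cast hK
  simp only [CC, Set.mem_ofPred_eq]
  have hm : (0 : ℝ) ≤ m := Nat.cast_nonneg m
  refine ⟨by positivity, by linarith, le_rfl, by simp, ?_⟩
  intro i hi
  have hi' : (i : ℝ) + 1 ≤ K := by exact_mod_cast hi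
  have h0 : (0 : ℝ) ≤ i := Nat.cast_nonneg i
  unfold Lin
  split_ifs with h
  · apply div_nonneg _ (by positivity)
    apply mul_nonneg (by positivity)
    unfold AA; nlinarith
  · unfold AA
    nlinarith

theorem Lin_nonneg {m K : ℕ} (hK : 1 ≤ K) {y : ℝ} (h0 : 0 ≤ y) (h1 : y ≤ 2 * m) {j : ℕ}
    (hj : j < K) : 0 ≤ Lin m K j y := by
  have hseg : ((0, y) : Pt) ∈ CC m K := by
    have hc := CC_convex m K
    rcases Nat.eq_zero_or_pos m with hm | hm
    · subst hm
      have : y = 0 := by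
        have : y ≤ 0 := by simpa using h1
        linarith
      rw [this]; exact b0_mem hK
    · have hm' : (0 : ℝ) < 2 * m := by
        have : (0 : ℝ) < m := by exact_mod_cast hm
        linarith
      have := hc (b0_mem (m := m) hK) (bm_mem (m := m) hK)
        (a := 1 - y / (2 * m)) (b := y / (2 * m)) (by
          rw [sub_nonneg, div_le_one hm']; exact h1) (by positivity) (by ring)
      simp only [Prod.smul_mk, Prod.mk_add_mk, smul_eq_mul, mul_zero, add_zero, zero_add] at this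
      rwa [div_mul_cancel₀ _ hm'.ne'] at this
  exact hseg.2.2.2.2 j hj

theorem mem_seg {x1 y1 x2 y2 : ℝ} (h : y1 < y2) (p : Pt) :
    p ∈ segment ℝ ((x1, y1) : Pt) (x2, y2) ↔
      y1 ≤ p.2 ∧ p.2 ≤ y2 ∧ p.1 * (y2 - y1) = x1 * (y2 - p.2) + x2 * (p.2 - y1) := by
  obtain ⟨x, y⟩ := p
  constructor
  · rintro ⟨a, b, ha, hb, hab, hp⟩
    simp only [Prod.smul_mk, Prod.mk_add_mk, smul_eq_mul, Prod.mk.injEq] at hp
    obtain ⟨rfl, rfl⟩ := hp
    have hb' : b = 1 - a := by linarith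
    subst hb'
    simp only
    refine ⟨by nlinarith, by nlinarith, by ring⟩
  · rintro ⟨h1, h2, h3⟩
    simp only at h1 h2 h3
    have hpos : 0 < y2 - y1 := by linarith
    refine ⟨(y2 - y) / (y2 - y1), (y - y1) / (y2 - y1), div_nonneg (by linarith) hpos.le,
      div_nonneg (by linarith) hpos.le, ?_, ?_⟩
    · rw [← add_div]
      rw [show y2 - y + (y - y1) = y2 - y1 by ring, div_self hpos.ne']
    · simp only [Prod.smul_mk, Prod.mk_add_mk, smul_eq_mul, Prod.mk.injEq]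
      constructor
      · rw [div_mul_eq_mul_div, div_mul_eq_mul_div, ← add_div, div_eq_iff hpos.ne', h3]
        ring
      · rw [div_mul_eq_mul_div, div_mul_eq_mul_div, ← add_div, div_eq_iff hpos.ne']
        ring

end Pool.Agent.H224R3.Vis
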