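import Pool.Agent.H224R3.Vis2

set_option autoImplicit false

namespace Pool.Agent.H224R3.Vis

open Finset

/-- standing hypotheses -/
structure Hyp (m K : ℕ) (D : ℕ → ℝ) : Prop where
  hm : 1 ≤ m
  hK : 2 ≤ K
  D0 : ∀ k, D (2 * k) = 0
  Dpos : ∀ k, 0 < D (2 * k + 1)
  hne : D (2 * m - 1) ≠ cc K

theorem Hyp.Dnn {m K : ℕ} {D : ℕ → ℝ} (h : Hyp m K D) (k : ℕ) : 0 ≤ D k := by
  rcases Nat.even_or_odd' k with ⟨c, rfl | rfl⟩
  · rw [h.D0]
  · exact (h.Dpos c).le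

/-- the vertex map -/
noncomputable def vv (m K : ℕ) (D : ℕ → ℝ) : Fin (2 * m + 1 + K) → Pt := fun i => ww m K D i

theorem rot_val {n : ℕ} (i : Fin n) :
    ((finRotate n i : Fin n) : ℕ) = if (i : ℕ) + 1 < n then (i : ℕ) + 1 else 0 := by
  cases n with
  | zero => exact i.elim0
  | succ n =>
    split_ifs with h
    · have : i ≠ Fin.last n := by
        intro hi; rw [hi] at h; simp at h
      rw [coe_finRotate_of_ne_last this]
    · have : i = Fin.last n := by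
        ext; simp; omega
      rw [this, finRotate_last]
      simp

theorem ww_left (m K : ℕ) (D : ℕ → ℝ) {k : ℕ} (hk : k ≤ 2 * m) : ww m K D k = (-(D k), (k : ℝ)) := by
  unfold ww
  rw [if_pos hk]

theorem ww_right (m K : ℕ) (D : ℕ → ℝ) {k j : ℕ} (hk : 2 * m < k) (hj : k + j = 2 * m + 1 + K) :
    ww m K D k = (AA K - (j : ℝ) ^ 2, 2 * m + (j : ℝ)) := by
  unfold ww
  rw [if_neg (by omega), show 2 * m + 1 + K - k = j by omega]

theorem edge_left {m K : ℕ} {D : ℕ → ℝ} (h : Hyp m K D) {k : ℕ} (hk : k < 2 * m) (p : Pt) :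
    p ∈ segment ℝ (ww m K D k) (ww m K D (k + 1)) ↔
      (k : ℝ) ≤ p.2 ∧ p.2 ≤ k + 1 ∧ p.1 = ell m K D p.2 := by
  have hK := h.hK
  rw [ww_left m K D hk.le, ww_left m K D hk, mem_seg (by push_cast; linarith)]
  push_cast
  constructor
  · rintro ⟨h1, h2, h3⟩
    refine ⟨h1, h2, ?_⟩
    rw [ell_mid (by omega) hk h1 h2]
    linarith
  · rintro ⟨h1, h2, h3⟩
    refine ⟨h1, h2, ?_⟩
    rw [ell_mid (by omega) hk h1 h2] at h3
    rw [h3]; ring

theorem edge_top {m K : ℕ} {D : ℕ → ℝ} (h : Hyp m K D) (p : Pt) :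
    p ∈ segment ℝ (ww m K D (2 * m)) (ww m K D (2 * m + 1)) ↔
      (2 * m : ℝ) ≤ p.2 ∧ p.2 ≤ 2 * m + K ∧ p.1 = ell m K D p.2 := by
  have hK := h.hK
  have hKR : (0 : ℝ) < K := by
    have : (2 : ℝ) ≤ K := by exact_mod_cast hK
    linarith
  rw [ww_left m K D le_rfl, ww_right m K D (k := 2 * m + 1) (j := K) (by omega) rfl, h.D0,
    mem_seg (by push_cast; linarith)]
  push_cast
  constructor
  · rintro ⟨h1, h2, h3⟩
    refine ⟨h1, h2, ?_⟩
    rw [ell_top (by omega) (h.D0 m) h1]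
    unfold cc
    field_simp
    linarith
  · rintro ⟨h1, h2, h3⟩
    refine ⟨h1, h2, ?_⟩
    rw [ell_top (by omega) (h.D0 m) h1] at h3
    rw [h3]
    unfold cc
    field_simp
    ring

theorem edge_right {m K : ℕ} {D : ℕ → ℝ} {k j : ℕ} (hk : 2 * m < k)
    (hj : k + 1 + j = 2 * m + 1 + K) (hj1 : 1 ≤ j) (p : Pt) :
    p ∈ segment ℝ (ww m K D k) (ww m K D (k + 1)) ↔
      (2 * m + j : ℝ) ≤ p.2 ∧ p.2 ≤ 2 * m + j + 1 ∧ p.1 = Lin m K j p.2 := by
  rw [ww_right m K D hk (j := j + 1) (by omega), ww_right m K D (k := k + 1) (j := j) (by omega) hj,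
    segment_symm, mem_seg (by push_cast; linarith)]
  have hj0 : j ≠ 0 := by omega
  simp only [Lin, hj0, if_false]
  push_cast
  constructor
  · rintro ⟨h1, h2, h3⟩
    refine ⟨h1, by linarith, ?_⟩
    linarith
  · rintro ⟨h1, h2, h3⟩
    refine ⟨h1, by linarith, ?_⟩
    rw [h3]; ring

theorem edge_last {m K : ℕ} {D : ℕ → ℝ} (h : Hyp m K D) (p : Pt) :
    p ∈ segment ℝ (ww m K D (2 * m + K)) (ww m K D 0) ↔
      (0 : ℝ) ≤ p.2 ∧ p.2 ≤ 2 * m + 1 ∧ p.1 = Lin m K 0 p.2 := by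
  have hK := h.hK
  have hmR : (0 : ℝ) ≤ m := Nat.cast_nonneg m
  have h0 : D 0 = 0 := h.D0 0
  rw [ww_right m K D (k := 2 * m + K) (j := 1) (by omega) (by omega), ww_left m K D (Nat.zero_le _),
    segment_symm, mem_seg (by push_cast; linarith), h0]
  simp only [Lin, if_true]
  push_cast
  have hpos : (0 : ℝ) < 2 * m + 1 := by positivity
  constructor
  · rintro ⟨h1, h2, h3⟩
    refine ⟨h1, h2, ?_⟩
    rw [eq_div_iff hpos.ne']
    linarith
  · rintro ⟨h1, h2, h3⟩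
    refine ⟨h1, h2, ?_⟩
    rw [eq_div_iff hpos.ne'] at h3
    linarith

/-- lower end of the j-th right edge -/
def lo (m j : ℕ) : ℝ := if j = 0 then 0 else 2 * m + j

/-- an edge, described by its index -/
theorem edge_desc {m K : ℕ} {D : ℕ → ℝ} (h : Hyp m K D) (i : Fin (2 * m + 1 + K)) (p : Pt)
    (hp : p ∈ segment ℝ (vv m K D i) (vv m K D (finRotate _ i))) :
    ((i : ℕ) < 2 * m ∧ (i : ℝ) ≤ p.2 ∧ p.2 ≤ (i : ℝ) + 1 ∧ p.1 = ell m K D p.2) ∨
    ((i : ℕ) = 2 * m ∧ (2 * m : ℝ) ≤ p.2 ∧ p.2 ≤ 2 * m + K ∧ p.1 = ell m K D p.2) ∨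
    (∃ j : ℕ, j < K ∧ (i : ℕ) + 1 + j = 2 * m + 1 + K ∧ lo m j ≤ p.2 ∧ p.2 ≤ 2 * m + j + 1 ∧
      p.1 = Lin m K j p.2) := by
  have hK := h.hK
  have hi := i.2
  unfold vv at hp
  rw [rot_val] at hp
  rcases lt_trichotomy (i : ℕ) (2 * m) with h1 | h1 | h1
  · left
    rw [if_pos (by omega), edge_left h h1] at hp
    exact ⟨h1, hp⟩
  · right; left
    rw [if_pos (by omega), h1, edge_top h] at hp
    exact ⟨h1, hp⟩
  · right; right
    by_cases h2 : (i : ℕ) + 1 < 2 * m + 1 + K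
    · rw [if_pos h2, edge_right h1 (j := 2 * m + 1 + K - (i + 1)) (by omega) (by omega)] at hp
      refine ⟨2 * m + 1 + K - (i + 1), by omega, by omega, ?_, hp.2.1, hp.2.2⟩
      unfold lo
      rw [if_neg (by omega)]
      exact hp.1
    · have h3 : (i : ℕ) = 2 * m + K := by omega
      rw [if_neg h2, h3, edge_last h] at hp
      refine ⟨0, by omega, by omega, ?_, ?_, hp.2.2⟩
      · unfold lo; rw [if_pos rfl]; exact hp.1
      · simpa using hp.2.1

theorem mem_curve_left {m K : ℕ} {D : ℕ → ℝ} (h : Hyp m K D) (p : Pt) (h1 : 0 ≤ p.2)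
    (h2 : p.2 ≤ 2 * m + K) (h3 : p.1 = ell m K D p.2) : p ∈ curve (vv m K D) := by
  have hK := h.hK
  rw [curve, Set.mem_iUnion]
  by_cases hc : p.2 < 2 * m
  · have hf : ⌊p.2⌋₊ < 2 * m := by
      rw [Nat.floor_lt h1]; push_cast; exact hc
    refine ⟨⟨⌊p.2⌋₊, by omega⟩, ?_⟩
    unfold vv
    rw [rot_val]
    simp only
    rw [if_pos (by omega), edge_left h hf]
    exact ⟨Nat.floor_le h1, (Nat.lt_floor_add_one _).le, h3⟩
  · refine ⟨⟨2 * m, by omega⟩, ?_⟩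
    unfold vv
    rw [rot_val]
    simp only
    rw [if_pos (by omega), edge_top h]
    exact ⟨not_lt.1 hc, h2, h3⟩

theorem mem_curve_right {m K : ℕ} {D : ℕ → ℝ} (h : Hyp m K D) (p : Pt) {j : ℕ} (hj : j < K)
    (h1 : lo m j ≤ p.2) (h2 : p.2 ≤ 2 * m + j + 1) (h3 : p.1 = Lin m K j p.2) :
    p ∈ curve (vv m K D) := by
  have hK := h.hK
  rw [curve, Set.mem_iUnion]
  refine ⟨⟨2 * m + K - j, by omega⟩, ?_⟩
  unfold vv
  rw [rot_val]
  simp only
  by_cases hj0 : j = 0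
  · subst hj0
    rw [if_neg (by omega), Nat.sub_zero, edge_last h]
    unfold lo at h1
    rw [if_pos rfl] at h1
    exact ⟨h1, by simpa using h2, h3⟩
  · rw [if_pos (by omega), edge_right (by omega) (j := j) (by omega) (by omega)]
    unfold lo at h1
    rw [if_neg hj0] at h1
    exact ⟨h1, h2, h3⟩

theorem ell_lt_Lin {m K : ℕ} {D : ℕ → ℝ} (h : Hyp m K D) {y : ℝ} (h1 : 0 < y)
    (h2 : y < 2 * m + K) {j : ℕ} (hj : j < K) : ell m K D y < Lin m K j y := by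
  have hK := h.hK
  have hK1 : 1 ≤ K := by omega
  have hm : (1 : ℝ) ≤ m := by exact_mod_cast h.hm
  have hKR : (2 : ℝ) ≤ K := by exact_mod_cast hK
  have hjK : (j : ℝ) + 1 ≤ K := by exact_mod_cast hj
  have hj0 : (0 : ℝ) ≤ j := Nat.cast_nonneg j
  have hpos : ∀ z : ℝ, 0 < z → z ≤ 2 * m → 0 < Lin m K j z := by
    intro z hz hz'
    unfold Lin
    split_ifs with hj'
    · apply div_pos _ (by positivity)
      apply mul_pos hz
      unfold AA; nlinarith
    · unfold AA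
      nlinarith [mul_nonneg hj0 (by linarith : (0 : ℝ) ≤ 2 * m + j - z)]
  by_cases hc : y ≤ 2 * m
  · exact lt_of_le_of_lt (ell_nonpos hK1 h.Dnn hc) (hpos y h1 hc)
  · push Not at hc
    rw [ell_top hK1 (h.D0 m) hc.le]
    have hA := hpos (2 * m) (by linarith) le_rfl
    have hB : (AA K - (K : ℝ) ^ 2) ≤ Lin m K j (2 * m + K) :=
      (rr_mem (m := m) (K := K) hK1 le_rfl).2.2.2.2 j hj
    have hKpos : (0 : ℝ) < K := by linarith
    set b : ℝ := (y - 2 * m) / K with hb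
    have hb0 : 0 ≤ b := div_nonneg (by linarith) hKpos.le
    have hb1 : b < 1 := by rw [hb, div_lt_one hKpos]; linarith
    have hy : y = (1 - b) * (2 * m) + b * (2 * m + K) := by
      rw [hb]; field_simp; ring
    have hL := Lin_affine m K j (1 - b) b (2 * m) (2 * m + K) (by ring)
    rw [← hy] at hL
    rw [hL]
    have hcc : (y - 2 * m) * cc K = b * (AA K - (K : ℝ) ^ 2) := by
      rw [hb]; unfold cc; field_simp
    rw [hcc]
    have : b * (AA K - (K : ℝ) ^ 2) ≤ b * Lin m K j (2 * m + K) := mul_le_mul_of_nonneg_left hB hb0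
    have : 0 < (1 - b) * Lin m K j (2 * m) := mul_pos (by linarith) hA
    linarith

end Pool.Agent.H224R3.Vis
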