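import Pool.Agent.H224R3.Vis3

set_option autoImplicit false

namespace Pool.Agent.H224R3.Vis

open Finset

theorem cross_of_collinear {p q r : Pt} (h : Collinear ℝ {p, q, r}) :
    (q.1 - p.1) * (r.2 - p.2) = (r.1 - p.1) * (q.2 - p.2) := by
  rw [collinear_iff_of_mem (p₀ := p) (by simp)] at h
  obtain ⟨v, hv⟩ := h
  obtain ⟨a, ha⟩ := hv q (by simp)
  obtain ⟨b, hb⟩ := hv r (by simp)
  rw [ha, hb]
  simp only [vadd_eq_add, Prod.fst_add, Prod.smul_fst, smul_eq_mul, Prod.snd_add, Prod.smul_snd]
  ring

theorem vv_snd_pos {m K : ℕ} {D : ℕ → ℝ} (k : ℕ) (hk : k ≤ 2 * m) : (ww m K D k).2 = k := by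
  rw [ww_left m K D hk]

theorem vv_injective {m K : ℕ} {D : ℕ → ℝ} (h : Hyp m K D) : Function.Injective (vv m K D) := by
  intro i j hij
  have hK := h.hK
  have hm := h.hm
  have hi := i.2
  have hj := j.2
  unfold vv at hij
  ext
  have key : ∀ a b : ℕ, a < 2 * m + 1 + K → b < 2 * m + 1 + K → a ≤ b →
      ww m K D a = ww m K D b → a = b := by
    intro a b ha hb hab he
    by_cases hb2 : b ≤ 2 * m
    · rw [ww_left m K D (by omega : a ≤ 2 * m), ww_left m K D hb2, Prod.mk.injEq] at he
      exact_mod_cast he.2
    · by_cases ha2 : a ≤ 2 * m
      · rw [ww_left m K D ha2, ww_right m K D (k := b) (j := 2 * m + 1 + K - b) (by omega) (by omega),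
          Prod.mk.injEq] at he
        exfalso
        have h1 : (1 : ℝ) ≤ ((2 * m + 1 + K - b : ℕ) : ℝ) := by
          exact_mod_cast (by omega : 1 ≤ 2 * m + 1 + K - b)
        have h2 : (a : ℝ) ≤ 2 * m := by exact_mod_cast ha2
        linarith [he.2]
      · rw [ww_right m K D (k := a) (j := 2 * m + 1 + K - a) (by omega) (by omega),
          ww_right m K D (k := b) (j := 2 * m + 1 + K - b) (by omega) (by omega),
          Prod.mk.injEq] at he
        have h1 : ((2 * m + 1 + K - a : ℕ) : ℝ) = ((2 * m + 1 + K - b : ℕ) : ℝ) := by linarith [he.2]
        have h2 : 2 * m + 1 + K - a = 2 * m + 1 + K - b := by exact_mod_cast h1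
        omega
  rcases Nat.le_total i j with hle | hle
  · exact key i j hi hj hle hij
  · exact (key j i hj hi hle hij.symm).symm

theorem ww_mem_left {m K : ℕ} {D : ℕ → ℝ} (h : Hyp m K D) {k : ℕ} (hk : k ≤ 2 * m) :
    (ww m K D k).1 = ell m K D (ww m K D k).2 := by
  have hK := h.hK
  rcases Nat.lt_or_ge k (2 * m) with h1 | h1
  · exact ((edge_left h h1 _).1 (left_mem_segment ℝ _ _)).2.2
  · have : k = 2 * m := by omega
    subst this
    exact ((edge_top h _).1 (left_mem_segment ℝ _ _)).2.2

theorem ww_eq_of {m K : ℕ} {D : ℕ → ℝ} {k : ℕ} {p : Pt} (h2 : p.2 = (ww m K D k).2)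
    (h1 : p.1 = (ww m K D k).1) : p = ww m K D k := Prod.ext h1 h2

theorem simple_poly {m K : ℕ} {D : ℕ → ℝ} (h : Hyp m K D) : IsSimplePolygon (vv m K D) where
  three_le := by have := h.hm; omega
  injective := vv_injective h
  simple := by
    have hK := h.hK
    have hm := h.hm
    have hKR : (2 : ℝ) ≤ K := by exact_mod_cast hK
    -- ordered version
    have key : ∀ i j : Fin (2 * m + 1 + K), (i : ℕ) < j → ∀ x,
        x ∈ segment ℝ (vv m K D i) (vv m K D (finRotate _ i)) →
        x ∈ segment ℝ (vv m K D j) (vv m K D (finRotate _ j)) →
        (j = finRotate _ i ∧ x = vv m K D j) ∨ (i = finRotate _ j ∧ x = vv m K D i) := by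
      intro i j hij x hxi hxj
      have hi := i.2
      have hj := j.2
      rcases edge_desc h i x hxi with ⟨a1, a2, a3, a4⟩ | ⟨a1, a2, a3, a4⟩ | ⟨r, a1, a2, a3, a4, a5⟩
      · rcases edge_desc h j x hxj with ⟨b1, b2, b3, b4⟩ | ⟨b1, b2, b3, b4⟩ | ⟨s, b1, b2, b3, b4, b5⟩
        · -- both left
          left
          have e1 : (j : ℝ) ≤ (i : ℝ) + 1 := by linarith
          have e2 : (j : ℕ) ≤ (i : ℕ) + 1 := by exact_mod_cast e1
          have e3 : (j : ℕ) = (i : ℕ) + 1 := by omega
          have e4 : (j : ℝ) = (i : ℝ) + 1 := by exact_mod_cast e3
          refine ⟨?_, ?_⟩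
          · ext; rw [rot_val, if_pos (by omega)]; exact e3
          · apply ww_eq_of
            · rw [ww_left m K D b1.le]; simp only; linarith
            · rw [a4, ww_mem_left h b1.le, ww_left m K D b1.le]
              simp only
              congr 1; linarith
        · left
          have e1 : (2 * m : ℝ) ≤ (i : ℝ) + 1 := by linarith
          have e2 : 2 * m ≤ (i : ℕ) + 1 := by exact_mod_cast e1
          have e3 : (j : ℕ) = (i : ℕ) + 1 := by omega
          have e5 : (i : ℝ) + 1 = 2 * m := by exact_mod_cast (by omega : (i : ℕ) + 1 = 2 * m)
          refine ⟨?_, ?_⟩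
          · ext; rw [rot_val, if_pos (by omega)]; exact e3
          · apply ww_eq_of
            · rw [b1, ww_left m K D le_rfl]; simp only; push_cast; linarith
            · rw [a4, b1, ww_mem_left h le_rfl, ww_left m K D le_rfl]
              simp only
              congr 1; push_cast; linarith
        · right
          by_cases hy : x.2 = 0
          · have e1 : (i : ℝ) ≤ 0 := by linarith
            have e2 : (i : ℕ) = 0 := by
              have : (i : ℕ) ≤ 0 := by exact_mod_cast e1
              omega
            have e3 : s = 0 := by
              by_contra hs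
              unfold lo at b3
              rw [if_neg hs] at b3
              have : (1 : ℝ) ≤ s := by exact_mod_cast (by omega : 1 ≤ s)
              have : (0 : ℝ) ≤ m := Nat.cast_nonneg m
              linarith
            refine ⟨?_, ?_⟩
            · ext; rw [rot_val, if_neg (by omega)]; exact e2
            · apply ww_eq_of
              · rw [e2, ww_left m K D (Nat.zero_le _)]; simp only; rw [hy]; simp
              · rw [a4, e2, ww_mem_left h (Nat.zero_le _), ww_left m K D (Nat.zero_le _)]
                simp only
                congr 1; rw [hy]; simp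
          · exfalso
            have e0 : (0 : ℝ) ≤ i := Nat.cast_nonneg _
            have e1 : 0 < x.2 := lt_of_le_of_ne (by linarith) (Ne.symm hy)
            have e2 : (i : ℝ) + 1 ≤ 2 * m := by exact_mod_cast a1
            have := ell_lt_Lin h e1 (by linarith) b1
            rw [← a4, ← b5] at this
            exact lt_irrefl _ this
      · rcases edge_desc h j x hxj with ⟨b1, b2, b3, b4⟩ | ⟨b1, b2, b3, b4⟩ | ⟨s, b1, b2, b3, b4, b5⟩
        · omega
        · omega
        · left
          by_cases hy : x.2 = 2 * m + K
          · have e1 : (K : ℝ) ≤ s + 1 := by linarith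
            have e2 : K ≤ s + 1 := by exact_mod_cast e1
            have e3 : (j : ℕ) = 2 * m + 1 := by omega
            refine ⟨?_, ?_⟩
            · ext; rw [rot_val, if_pos (by omega)]; omega
            · have hw := ww_right m K D (k := 2 * m + 1) (j := K) (by omega) rfl
              apply ww_eq_of
              · rw [e3, hw]; exact hy
              · rw [e3, a4]
                have := ((edge_top h _).1 (right_mem_segment ℝ (ww m K D (2 * m))
                  (ww m K D (2 * m + 1)))).2.2
                rw [this]
                congr 1
                rw [hw]; exact hy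
          · exfalso
            have e1 : x.2 < 2 * m + K := lt_of_le_of_ne a3 hy
            have hmR : (1 : ℝ) ≤ m := by exact_mod_cast hm
            have := ell_lt_Lin h (by linarith) e1 b1
            rw [← a4, ← b5] at this
            exact lt_irrefl _ this
      · rcases edge_desc h j x hxj with ⟨b1, b2, b3, b4⟩ | ⟨b1, b2, b3, b4⟩ | ⟨s, b1, b2, b3, b4, b5⟩
        · omega
        · omega
        · left
          have hrs : s < r := by omega
          unfold lo at a3
          rw [if_neg (by omega)] at a3
          have e1 : (r : ℝ) ≤ s + 1 := by linarith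
          have e2 : r ≤ s + 1 := by exact_mod_cast e1
          have e3 : (r : ℝ) = s + 1 := by exact_mod_cast (by omega : r = s + 1)
          refine ⟨?_, ?_⟩
          · ext; rw [rot_val, if_pos (by omega)]; omega
          · have hw := ww_right m K D (k := (j : ℕ)) (j := s + 1) (by omega) (by omega)
            apply ww_eq_of
            · rw [hw]; simp only; push_cast; linarith
            · rw [b5, hw]
              have hx2 : x.2 = 2 * m + s + 1 := by linarith
              rw [hx2]
              simp only [Lin]
              split_ifs with hs
              · subst hs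
                have : (0 : ℝ) < 2 * m + 1 := by positivity
                push_cast
                rw [div_eq_iff (by linarith)]
                ring
              · push_cast; ring
    intro i j hij x hxi hxj
    rcases Nat.lt_or_ge i j with hlt | hge
    · exact key i j hlt x hxi hxj
    · have hlt : (j : ℕ) < i := lt_of_le_of_ne hge (fun e => hij (Fin.ext e.symm))
      exact (key j i hlt x hxj hxi).symm
  corner := by
    have hK := h.hK
    have hm := h.hm
    have hKR : (2 : ℝ) ≤ K := by exact_mod_cast hK
    have hmR : (1 : ℝ) ≤ m := by exact_mod_cast hm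
    intro i hcol
    have hi := i.2
    have hc := cross_of_collinear hcol
    clear hcol
    unfold vv at hc
    have hr1 := rot_val i
    have hr2 := rot_val (finRotate _ i)
    generalize ((finRotate (2 * m + 1 + K) (finRotate (2 * m + 1 + K) i) : Fin _) : ℕ) = r2
      at hc hr2
    generalize ((finRotate (2 * m + 1 + K) i : Fin _) : ℕ) = r1 at hc hr1 hr2
    generalize (i : ℕ) = k at hc hr1 hi
    by_cases h1 : k + 2 ≤ 2 * m
    · rw [if_pos (by omega)] at hr1
      subst hr1
      rw [if_pos (by omega)] at hr2
      subst hr2
      rw [ww_left m K D (by omega), ww_left m K D (by omega),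
        ww_left m K D (by omega)] at hc
      simp only at hc
      push_cast at hc
      rcases Nat.even_or_odd' k with ⟨c, hc' | hc'⟩
      · have e1 : D k = 0 := by rw [hc']; exact h.D0 c
        have e2 : D (k + 1 + 1) = 0 := by rw [hc', show 2 * c + 1 + 1 = 2 * (c + 1) by ring]; exact h.D0 _
        have e3 : 0 < D (k + 1) := by rw [hc']; exact h.Dpos c
        rw [e1, e2] at hc
        linarith
      · have e1 : 0 < D k := by rw [hc']; exact h.Dpos c
        have e2 : 0 < D (k + 1 + 1) := by
          rw [hc', show 2 * c + 1 + 1 + 1 = 2 * (c + 1) + 1 by ring]; exact h.Dpos _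
        have e3 : D (k + 1) = 0 := by rw [hc', show 2 * c + 1 + 1 = 2 * (c + 1) by ring]; exact h.D0 _
        rw [e3] at hc
        linarith
    · by_cases h2 : k + 1 = 2 * m
      · rw [if_pos (by omega)] at hr1
        subst hr1
        rw [if_pos (by omega)] at hr2
        subst hr2
        rw [ww_left m K D (by omega), ww_left m K D (by omega),
          ww_right m K D (k := k + 1 + 1) (j := K) (by omega) (by omega)] at hc
        simp only at hc
        have e1 : D (k + 1) = 0 := by rw [h2]; exact h.D0 m
        have e2 : (k : ℝ) = 2 * m - 1 := by
          have : (k : ℝ) + 1 = 2 * m := by exact_mod_cast h2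
          linarith
        rw [e1] at hc
        push_cast at hc
        rw [e2] at hc
        apply h.hne
        have e3 : 2 * m - 1 = k := by omega
        rw [e3]
        unfold cc
        rw [eq_div_iff (by linarith)]
        linarith
      · by_cases h3 : k = 2 * m
        · rw [if_pos (by omega)] at hr1
          subst hr1
          rw [if_pos (by omega)] at hr2
          subst hr2
          rw [ww_left m K D (k := k) (by omega),
            ww_right m K D (k := k + 1) (j := K) (by omega) (by omega),
            ww_right m K D (k := k + 1 + 1) (j := K - 1) (by omega) (by omega)] at hc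
          simp only at hc
          have e1 : D k = 0 := by rw [h3]; exact h.D0 m
          have e2 : (k : ℝ) = 2 * m := by exact_mod_cast h3
          rw [e1, e2, Nat.cast_sub (by omega), Nat.cast_one] at hc
          unfold AA at hc
          nlinarith
        · by_cases h4 : k + 2 < 2 * m + 1 + K
          · rw [if_pos (by omega)] at hr1
            subst hr1
            rw [if_pos (by omega)] at hr2
            subst hr2
            rw [ww_right m K D (k := k) (j := 2 * m + 1 + K - k - 2 + 2) (by omega) (by omega),
              ww_right m K D (k := k + 1) (j := 2 * m + 1 + K - k - 2 + 1) (by omega) (by omega),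
              ww_right m K D (k := k + 1 + 1) (j := 2 * m + 1 + K - k - 2) (by omega) (by omega)] at hc
            simp only at hc
            push_cast at hc
            nlinarith
          · by_cases h5 : k + 2 = 2 * m + 1 + K
            · rw [if_pos (by omega)] at hr1
              subst hr1
              rw [if_neg (by omega)] at hr2
              subst hr2
              rw [ww_right m K D (k := k) (j := 2) (by omega) (by omega),
                ww_right m K D (k := k + 1) (j := 1) (by omega) (by omega),
                ww_left m K D (by omega)] at hc
              simp only at hc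
              have e1 : D 0 = 0 := h.D0 0
              rw [e1] at hc
              push_cast at hc
              unfold AA at hc
              nlinarith
            · rw [if_neg (by omega)] at hr1
              subst hr1
              rw [if_pos (by omega)] at hr2
              subst hr2
              rw [ww_right m K D (k := k) (j := 1) (by omega) (by omega),
                ww_left m K D (by omega), ww_left m K D (by omega)] at hc
              simp only at hc
              have e1 : D 0 = 0 := h.D0 0
              have e2 : 0 < D (0 + 1) := h.Dpos 0
              rw [e1] at hc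
              push_cast at hc
              unfold AA at hc
              nlinarith

end Pool.Agent.H224R3.Vis
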