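import Pool.Agent.H224R3.Vis4

set_option autoImplicit false

namespace Pool.Agent.H224R3.Vis

open Finset

theorem KK_closed (m K : ℕ) (D : ℕ → ℝ) : IsClosed (KK m K D) := by
  have h1 : IsClosed {p : Pt | 0 ≤ p.2} := isClosed_le continuous_const continuous_snd
  have h2 : IsClosed {p : Pt | p.2 ≤ 2 * m + K} := isClosed_le continuous_snd continuous_const
  have h3 : IsClosed {p : Pt | ell m K D p.2 ≤ p.1} :=
    isClosed_le ((ell_continuous m K D).comp continuous_snd) continuous_fst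
  have h4 : IsClosed (⋂ j : ℕ, ⋂ _ : j < K, {p : Pt | p.1 ≤ Lin m K j p.2}) :=
    isClosed_iInter (fun j => isClosed_iInter (fun _ =>
      isClosed_le continuous_fst ((Lin_continuous m K j).comp continuous_snd)))
  have : KK m K D = {p : Pt | 0 ≤ p.2} ∩ ({p : Pt | p.2 ≤ 2 * m + K} ∩
      ({p : Pt | ell m K D p.2 ≤ p.1} ∩ ⋂ j : ℕ, ⋂ _ : j < K, {p : Pt | p.1 ≤ Lin m K j p.2})) := by
    ext p
    simp [KK]
  rw [this]
  exact h1.inter (h2.inter (h3.inter h4))

theorem UU_open (m K : ℕ) (D : ℕ → ℝ) : IsOpen (UU m K D) := by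
  have h1 : IsOpen {p : Pt | 0 < p.2} := isOpen_lt continuous_const continuous_snd
  have h2 : IsOpen {p : Pt | p.2 < 2 * m + K} := isOpen_lt continuous_snd continuous_const
  have h3 : IsOpen {p : Pt | ell m K D p.2 < p.1} :=
    isOpen_lt ((ell_continuous m K D).comp continuous_snd) continuous_fst
  have h4 : IsOpen (⋂ j ∈ (range K : Finset ℕ), {p : Pt | p.1 < Lin m K j p.2}) :=
    isOpen_biInter_finset (fun j _ =>
      isOpen_lt continuous_fst ((Lin_continuous m K j).comp continuous_snd))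
  have : UU m K D = {p : Pt | 0 < p.2} ∩ ({p : Pt | p.2 < 2 * m + K} ∩
      ({p : Pt | ell m K D p.2 < p.1} ∩ ⋂ j ∈ (range K : Finset ℕ), {p : Pt | p.1 < Lin m K j p.2})) := by
    ext p
    simp [UU]
  rw [this]
  exact h1.inter (h2.inter (h3.inter h4))

theorem UU_sub_KK (m K : ℕ) (D : ℕ → ℝ) : UU m K D ⊆ KK m K D := by
  rintro p ⟨h1, h2, h3, h4⟩
  exact ⟨h1.le, h2.le, h3.le, fun j hj => (h4 j hj).le⟩

theorem seg_CC {m K : ℕ} {D : ℕ → ℝ} (h : Hyp m K D) {p q : Pt} (hp : p ∈ CC m K) (hq : q ∈ CC m K) :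
    segment ℝ p q ⊆ KK m K D :=
  ((CC_convex m K).segment_subset hp hq).trans (CC_sub_KK h.Dnn)

theorem ww_right_mem {m K : ℕ} (D : ℕ → ℝ) {k : ℕ} (hk : 2 * m < k)
    (hk2 : k < 2 * m + 1 + K) : ww m K D k ∈ CC m K := by
  rw [ww_right m K D hk (j := 2 * m + 1 + K - k) (by omega)]
  exact rr_mem (by omega) (by omega)

theorem curve_sub_KK {m K : ℕ} {D : ℕ → ℝ} (h : Hyp m K D) : curve (vv m K D) ⊆ KK m K D := by
  have hK := h.hK
  intro p hp
  rw [curve, Set.mem_iUnion] at hp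
  obtain ⟨i, hi⟩ := hp
  rcases Nat.lt_or_ge i (2 * m) with h1 | h1
  · rcases edge_desc h i p hi with ⟨a1, a2, a3, a4⟩ | ⟨a1, _⟩ | ⟨r, a1, a2, _⟩
    · have hi2 : (i : ℝ) + 1 ≤ 2 * m := by exact_mod_cast h1
      have hy0 : 0 ≤ p.2 := le_trans (Nat.cast_nonneg _) a2
      have hKR : (0 : ℝ) ≤ K := Nat.cast_nonneg K
      refine ⟨hy0, by linarith, a4.symm.le, fun j hj => ?_⟩
      rw [a4]
      exact (ell_nonpos (by omega) h.Dnn (by linarith)).trans
        (Lin_nonneg (by omega) hy0 (by linarith) hj)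
    · omega
    · omega
  · have hmem : vv m K D i ∈ CC m K := by
      unfold vv
      rcases Nat.lt_or_ge (2 * m) i with h2 | h2
      · exact ww_right_mem D h2 i.2
      · have : (i : ℕ) = 2 * m := by omega
        rw [this, ww_left m K D le_rfl, h.D0 m, neg_zero]
        have := bm_mem (m := m) (K := K) (by omega)
        push_cast
        exact this
    have hmem2 : vv m K D (finRotate _ i) ∈ CC m K := by
      unfold vv
      rw [rot_val]
      split_ifs with h2
      · exact ww_right_mem D (by omega) h2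
      · rw [ww_left m K D (Nat.zero_le _)]
        have e : D 0 = 0 := h.D0 0
        rw [e, neg_zero]
        have := b0_mem (m := m) (K := K) (by omega)
        simpa using this
    exact seg_CC h hmem hmem2 hi

theorem KK_diff {m K : ℕ} {D : ℕ → ℝ} (h : Hyp m K D) : KK m K D \ UU m K D ⊆ curve (vv m K D) := by
  have hK := h.hK
  have hKR : (2 : ℝ) ≤ K := by exact_mod_cast hK
  have hmR : (1 : ℝ) ≤ m := by exact_mod_cast h.hm
  rintro p ⟨⟨h1, h2, h3, h4⟩, hU⟩
  by_cases hell : p.1 = ell m K D p.2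
  · exact mem_curve_left h p h1 h2 hell
  have h3' : ell m K D p.2 < p.1 := lt_of_le_of_ne h3 (Ne.symm hell)
  by_cases hy0 : p.2 = 0
  · have hl0 : Lin m K 0 p.2 = 0 := by rw [hy0]; simp [Lin]
    have he0 : ell m K D p.2 = 0 := by
      have := ww_mem_left h (Nat.zero_le (2 * m))
      rw [ww_left m K D (Nat.zero_le _)] at this
      simp only at this
      rw [hy0]
      have e : D 0 = 0 := h.D0 0
      rw [e] at this
      simpa using this.symm
    have := h4 0 (by omega)
    linarith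
  by_cases hyH : p.2 = 2 * m + K
  · exfalso
    have e1 : ell m K D p.2 = AA K - (K : ℝ) ^ 2 := by
      rw [ell_top (by omega) (h.D0 m) (by linarith), hyH]
      unfold cc
      field_simp
      ring
    have e2 := h4 (K - 1) (by omega)
    have e3 : Lin m K (K - 1) p.2 = AA K - (K : ℝ) ^ 2 := by
      unfold Lin
      rw [if_neg (by omega), hyH, Nat.cast_sub (by omega)]
      push_cast
      ring
    linarith
  have h1' : 0 < p.2 := lt_of_le_of_ne h1 (Ne.symm hy0)
  have h2' : p.2 < 2 * m + K := lt_of_le_of_ne h2 hyH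
  -- some right inequality is an equality
  have hex : ∃ j, j < K ∧ p.1 = Lin m K j p.2 := by
    by_contra hcon
    push Not at hcon
    exact hU ⟨h1', h2', h3', fun j hj => lt_of_le_of_ne (h4 j hj) (hcon j hj)⟩
  obtain ⟨j, hj, hjp⟩ := hex
  have hj0 : (0 : ℝ) ≤ j := Nat.cast_nonneg j
  apply mem_curve_right h p hj _ _ hjp
  · unfold lo
    split_ifs with hj'
    · exact h1
    · by_contra hcon
      push Not at hcon
      have hlt := h4 (j - 1) (by omega)
      rw [hjp] at hlt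
      by_cases hj1 : j = 1
      · subst hj1
        simp only [Lin, Nat.sub_self, if_true] at hlt
        rw [if_neg (by norm_num), le_div_iff₀ (by positivity)] at hlt
        push_cast at hlt hcon
        have hpos : 0 < 2 * (m : ℝ) + 1 - p.2 := by linarith
        have hA : 1 < AA K := by unfold AA; nlinarith
        nlinarith [mul_pos hpos (by linarith : 0 < AA K - 1), mul_pos hpos (by linarith : (0 : ℝ) < 2 * m + 1)]
      · simp only [Lin] at hlt
        rw [if_neg hj', if_neg (by omega), Nat.cast_sub (by omega)] at hlt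
        push_cast at hlt
        nlinarith
  · by_cases hjK : j + 1 = K
    · have : (j : ℝ) + 1 = K := by exact_mod_cast hjK
      linarith
    · have hlt := h4 (j + 1) (by omega)
      rw [hjp] at hlt
      by_contra hcon
      push Not at hcon
      by_cases hj' : j = 0
      · subst hj'
        unfold Lin at hlt
        rw [if_pos rfl, if_neg (by norm_num), div_le_iff₀ (by positivity)] at hlt
        push_cast at hlt hcon
        have hpos : 0 < p.2 - (2 * (m : ℝ) + 1) := by linarith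
        have hA : 1 < AA K := by unfold AA; nlinarith
        nlinarith [mul_pos hpos (by linarith : 0 < AA K - 1), mul_pos hpos (by linarith : (0 : ℝ) < 2 * m + 1)]
      · simp only [Lin] at hlt
        rw [if_neg hj', if_neg (by omega)] at hlt
        push_cast at hlt
        nlinarith

theorem KK_bounded {m K : ℕ} {D : ℕ → ℝ} (h : Hyp m K D) : Bornology.IsBounded (KK m K D) := by
  have hK := h.hK
  have hsub : KK m K D ⊆ Set.Icc (-(∑ i ∈ range (2 * m + 1), D i)) (Lin m K 0 (2 * m + K)) ×ˢ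
      Set.Icc (0 : ℝ) (2 * m + K) := by
    rintro p ⟨h1, h2, h3, h4⟩
    refine ⟨⟨(ell_lower h.Dnn _).trans h3, ?_⟩, h1, h2⟩
    refine (h4 0 (by omega)).trans ?_
    simp only [Lin, if_true]
    have hA : 1 ≤ AA K := by
      unfold AA
      have : (0 : ℝ) ≤ K := Nat.cast_nonneg K
      nlinarith
    have : 0 ≤ AA K - 1 := by linarith
    gcongr
  exact ((Metric.isBounded_Icc _ _).prod (Metric.isBounded_Icc _ _)).subset hsub

theorem not_bounded_ray_right (a y : ℝ) : ¬ Bornology.IsBounded {p : Pt | p.2 = y ∧ a ≤ p.1} := by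
  intro hb
  have h1 : Bornology.IsBounded (Prod.fst '' {p : Pt | p.2 = y ∧ a ≤ p.1}) :=
    hb.image_fst
  have h2 : Prod.fst '' {p : Pt | p.2 = y ∧ a ≤ p.1} = Set.Ici a := by
    ext x
    simp only [Set.mem_image, Set.mem_ofPred_eq, Set.mem_Ici, Prod.exists]
    constructor
    · rintro ⟨a', b', ⟨_, h⟩, rfl⟩; exact h
    · intro h; exact ⟨x, y, ⟨rfl, h⟩, rfl⟩
  rw [h2] at h1
  obtain ⟨M, hM⟩ := h1.bddAbove
  have := hM (Set.mem_Ici.2 (le_max_left a (M + 1)))
  have := le_max_right a (M + 1)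
  linarith

theorem not_bounded_ray_left (a y : ℝ) : ¬ Bornology.IsBounded {p : Pt | p.2 = y ∧ p.1 ≤ a} := by
  intro hb
  have h1 : Bornology.IsBounded (Prod.fst '' {p : Pt | p.2 = y ∧ p.1 ≤ a}) :=
    hb.image_fst
  have h2 : Prod.fst '' {p : Pt | p.2 = y ∧ p.1 ≤ a} = Set.Iic a := by
    ext x
    simp only [Set.mem_image, Set.mem_ofPred_eq, Set.mem_Iic, Prod.exists]
    constructor
    · rintro ⟨a', b', ⟨_, h⟩, rfl⟩; exact h
    · intro h; exact ⟨x, y, ⟨rfl, h⟩, rfl⟩
  rw [h2] at h1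
  obtain ⟨M, hM⟩ := h1.bddBelow
  have := hM (Set.mem_Iic.2 (min_le_left a (M - 1)))
  have := min_le_right a (M - 1)
  linarith

theorem ray_right_preconn (a y : ℝ) : IsPreconnected {p : Pt | p.2 = y ∧ a ≤ p.1} := by
  apply Convex.isPreconnected
  rintro ⟨x1, y1⟩ ⟨a1, a2⟩ ⟨x2, y2⟩ ⟨b1, b2⟩ c d hc hd hcd
  simp only at a1 a2 b1 b2
  subst a1
  subst b1
  simp only [Prod.smul_mk, Prod.mk_add_mk, smul_eq_mul, Set.mem_ofPred_eq]
  refine ⟨by rw [← add_mul, hcd, one_mul], ?_⟩
  calc a = c * a + d * a := by rw [← add_mul, hcd, one_mul]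
    _ ≤ _ := by gcongr

theorem ray_left_preconn (a y : ℝ) : IsPreconnected {p : Pt | p.2 = y ∧ p.1 ≤ a} := by
  apply Convex.isPreconnected
  rintro ⟨x1, y1⟩ ⟨a1, a2⟩ ⟨x2, y2⟩ ⟨b1, b2⟩ c d hc hd hcd
  simp only at a1 a2 b1 b2
  subst a1
  subst b1
  simp only [Prod.smul_mk, Prod.mk_add_mk, smul_eq_mul, Set.mem_ofPred_eq]
  refine ⟨by rw [← add_mul, hcd, one_mul], ?_⟩
  calc c * x1 + d * x2 ≤ c * a + d * a := by gcongr
    _ = a := by rw [← add_mul, hcd, one_mul]

theorem region_vv {m K : ℕ} {D : ℕ → ℝ} (h : Hyp m K D) : region (vv m K D) = KK m K D := by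
  apply region_eq _ _ (UU m K D) (KK_closed m K D) (UU_open m K D) (UU_sub_KK m K D)
    (curve_sub_KK h) (KK_diff h) (KK_bounded h)
  intro p hp
  by_cases h1 : 0 ≤ p.2 ∧ p.2 ≤ 2 * m + K
  · by_cases h3 : ell m K D p.2 ≤ p.1
    · have h4 : ∃ j, j < K ∧ Lin m K j p.2 < p.1 := by
        by_contra hcon
        push Not at hcon
        exact hp ⟨h1.1, h1.2, h3, hcon⟩
      obtain ⟨j, hj, hjp⟩ := h4
      refine ⟨{q | q.2 = p.2 ∧ p.1 ≤ q.1}, ⟨rfl, le_rfl⟩, ?_, ray_right_preconn _ _,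
        not_bounded_ray_right _ _⟩
      rintro q ⟨hq1, hq2⟩ hqK
      have := hqK.2.2.2 j hj
      rw [hq1] at this
      linarith
    · push Not at h3
      refine ⟨{q | q.2 = p.2 ∧ q.1 ≤ p.1}, ⟨rfl, le_rfl⟩, ?_, ray_left_preconn _ _,
        not_bounded_ray_left _ _⟩
      rintro q ⟨hq1, hq2⟩ hqK
      have := hqK.2.2.1
      rw [hq1] at this
      linarith
  · refine ⟨{q | q.2 = p.2 ∧ p.1 ≤ q.1}, ⟨rfl, le_rfl⟩, ?_, ray_right_preconn _ _,
      not_bounded_ray_right _ _⟩
    rintro q ⟨hq1, hq2⟩ hqK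
    apply h1
    rw [← hq1]
    exact ⟨hqK.1, hqK.2.1⟩

end Pool.Agent.H224R3.Vis
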