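import Pool.Agent.H224R3.Vis5

set_option autoImplicit false

namespace Pool.Agent.H224R3.Vis

open Finset

theorem ell_even {m K : ℕ} {D : ℕ → ℝ} (h : Hyp m K D) {i : ℕ} (hi : i ≤ m) :
    ell m K D (2 * i) = 0 := by
  have := ww_mem_left h (k := 2 * i) (by omega)
  rw [ww_left m K D (by omega)] at this
  simp only at this
  rw [h.D0] at this
  push_cast at this
  linarith

/-- F1, first half -/
theorem vis_down {m K : ℕ} {D : ℕ → ℝ} (h : Hyp m K D) {i : ℕ} (hi : i < m) :
    segment ℝ (ww m K D (2 * i + 1)) (ww m K D (2 * i)) ⊆ KK m K D := by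
  rw [segment_symm]
  intro p hp
  apply curve_sub_KK h
  rw [edge_left h (by omega)] at hp
  have hi' : (i : ℝ) + 1 ≤ m := by exact_mod_cast hi
  have h0 : (0 : ℝ) ≤ i := Nat.cast_nonneg i
  have hK : (0 : ℝ) ≤ K := Nat.cast_nonneg K
  push_cast at hp
  exact mem_curve_left h p (by linarith [hp.1]) (by linarith [hp.2.1]) hp.2.2

/-- F1, second half -/
theorem vis_up {m K : ℕ} {D : ℕ → ℝ} (h : Hyp m K D) {i : ℕ} (hi : i < m) :
    segment ℝ (ww m K D (2 * i + 1)) (ww m K D (2 * i + 2)) ⊆ KK m K D := by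
  intro p hp
  apply curve_sub_KK h
  rw [show 2 * i + 2 = 2 * i + 1 + 1 by ring, edge_left h (by omega)] at hp
  have hi' : (i : ℝ) + 1 ≤ m := by exact_mod_cast hi
  have h0 : (0 : ℝ) ≤ i := Nat.cast_nonneg i
  have hK : (0 : ℝ) ≤ K := Nat.cast_nonneg K
  push_cast at hp
  exact mem_curve_left h p (by linarith [hp.1]) (by linarith [hp.2.1]) hp.2.2

/-- F2 -/
theorem not_vis {m K : ℕ} {D : ℕ → ℝ} (h : Hyp m K D) {i j : ℕ} (hi : i < m) (hj : j ≤ m)
    (h1 : j ≠ i) (h2 : j ≠ i + 1) :
    ¬ segment ℝ (ww m K D (2 * i + 1)) (ww m K D (2 * j)) ⊆ KK m K D := by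
  intro hsub
  have hD := h.Dpos i
  have hw1 := ww_left m K D (k := 2 * i + 1) (by omega)
  have hw2 := ww_left m K D (k := 2 * j) (by omega)
  rw [h.D0] at hw2
  push_cast at hw1 hw2
  rcases lt_or_gt_of_ne h1 with hlt | hgt
  · -- j < i, height 2 i
    have hji : (j : ℝ) + 1 ≤ i := by exact_mod_cast hlt
    have hpos : (0 : ℝ) < 2 * i + 1 - 2 * j := by linarith
    have hp : ((-(D (2 * i + 1)) * (2 * i - 2 * j) / (2 * i + 1 - 2 * j), 2 * (i : ℝ)) : Pt) ∈
        segment ℝ (ww m K D (2 * i + 1)) (ww m K D (2 * j)) := by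
      rw [segment_symm, hw1, hw2, mem_seg (by linarith)]
      refine ⟨by simp only; linarith, by simp only; linarith, ?_⟩
      simp only
      rw [div_mul_cancel₀ _ hpos.ne']
      ring
    have hk := (hsub hp).2.2.1
    simp only at hk
    rw [ell_even h (by omega)] at hk
    have : -(D (2 * i + 1)) * (2 * i - 2 * j) / (2 * i + 1 - 2 * j) < 0 := by
      apply div_neg_of_neg_of_pos _ hpos
      nlinarith
    linarith
  · have hlt : i + 2 ≤ j := by omega
    have hji : (i : ℝ) + 2 ≤ j := by exact_mod_cast hlt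
    have hpos : (0 : ℝ) < 2 * j - (2 * i + 1) := by linarith
    have hp : ((-(D (2 * i + 1)) * (2 * j - (2 * i + 2)) / (2 * j - (2 * i + 1)),
        2 * ((i : ℝ) + 1)) : Pt) ∈
        segment ℝ (ww m K D (2 * i + 1)) (ww m K D (2 * j)) := by
      rw [hw1, hw2, mem_seg (by linarith)]
      refine ⟨by simp only; linarith, by simp only; linarith, ?_⟩
      simp only
      rw [div_mul_cancel₀ _ hpos.ne']
      ring
    have hk := (hsub hp).2.2.1
    simp only at hk
    have he := ell_even h (i := i + 1) (by omega)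
    push_cast at he
    rw [he] at hk
    have : -(D (2 * i + 1)) * (2 * j - (2 * i + 2)) / (2 * j - (2 * i + 1)) < 0 := by
      apply div_neg_of_neg_of_pos _ hpos
      nlinarith
    linarith

/-- F3 -/
theorem vis_right {m K : ℕ} {D : ℕ → ℝ} (h : Hyp m K D) {i j : ℕ} (hi : i < m) (hj1 : 1 ≤ j)
    (hj : j ≤ K) :
    segment ℝ (ww m K D (2 * i + 1)) (ww m K D (2 * m + 1 + K - j)) ⊆ KK m K D ↔
      D (2 * i + 1) * (2 * m + j - (2 * i + 2)) ≤ AA K - (j : ℝ) ^ 2 := by
  have hK := h.hK
  have hD := h.Dpos i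
  have hw1 := ww_left m K D (k := 2 * i + 1) (by omega)
  have hw2 := ww_right m K D (k := 2 * m + 1 + K - j) (j := j) (by omega) (by omega)
  push_cast at hw1
  have hiR : (i : ℝ) + 1 ≤ m := by exact_mod_cast hi
  have hi0 : (0 : ℝ) ≤ i := Nat.cast_nonneg i
  have hjR : (1 : ℝ) ≤ j := by exact_mod_cast hj1
  have hjK : (j : ℝ) ≤ K := by exact_mod_cast hj
  have hL : (0 : ℝ) < 2 * m + j - (2 * i + 1) := by linarith
  have he := ell_even h (i := i + 1) (by omega)
  push_cast at he
  constructor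
  · intro hsub
    by_contra hcon
    push Not at hcon
    have hp : (((-(D (2 * i + 1)) * (2 * m + j - (2 * i + 2)) + (AA K - (j : ℝ) ^ 2)) /
        (2 * m + j - (2 * i + 1)), 2 * ((i : ℝ) + 1)) : Pt) ∈
        segment ℝ (ww m K D (2 * i + 1)) (ww m K D (2 * m + 1 + K - j)) := by
      rw [hw1, hw2, mem_seg (by linarith)]
      refine ⟨by simp only; linarith, by simp only; linarith, ?_⟩
      simp only
      rw [div_mul_cancel₀ _ hL.ne']
      ring
    have hk := (hsub hp).2.2.1
    simp only at hk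
    rw [he] at hk
    have : (-(D (2 * i + 1)) * (2 * m + j - (2 * i + 2)) + (AA K - (j : ℝ) ^ 2)) /
        (2 * m + j - (2 * i + 1)) < 0 := by
      apply div_neg_of_neg_of_pos _ hL
      linarith
    linarith
  · intro hle p hp
    have hXc := (rr_mem (m := m) (K := K) hj1 hj).2.2.2.1
    have hX0 := (rr_mem (m := m) (K := K) hj1 hj).2.2.1
    have hXL := (rr_mem (m := m) (K := K) hj1 hj).2.2.2.2
    simp only at hXc hX0 hXL
    rw [show (2 * (m : ℝ) + j - 2 * m) = j by ring] at hXc
    have hLin : ∀ l < K, p.1 ≤ Lin m K l p.2 := by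
      intro l hl
      rw [hw1, hw2] at hp
      obtain ⟨a, b, ha, hb, hab, hpe⟩ := hp
      rw [← hpe]
      simp only [Prod.smul_mk, Prod.mk_add_mk, smul_eq_mul]
      rw [Lin_affine m K l a b _ _ hab]
      have h1 : -(D (2 * i + 1)) ≤ Lin m K l (2 * i + 1) :=
        (by linarith : -(D (2 * i + 1)) ≤ 0).trans
          (Lin_nonneg (by omega) (by linarith) (by linarith) hl)
      have h2 := hXL l hl
      gcongr
    rw [hw1, hw2, mem_seg (by linarith)] at hp
    obtain ⟨h1, h2, h3⟩ := hp
    set y := p.2 with hy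
    set X : ℝ := AA K - (j : ℝ) ^ 2 with hX
    set d := D (2 * i + 1) with hd
    have hmain : d * (y - (2 * i + 2)) ≤ p.1 := by
      have hs : 0 ≤ y - (2 * i + 1) := by linarith
      have : (d * (y - (2 * i + 2))) * (2 * m + j - (2 * i + 1)) ≤
          p.1 * (2 * m + j - (2 * i + 1)) := by
        rw [h3]
        nlinarith [mul_nonneg hs (sub_nonneg.2 hle)]
      exact le_of_mul_le_mul_right this hL
    have hy0 : 0 ≤ y := by linarith
    have hyH : y ≤ 2 * m + K := by linarith
    by_cases hc : y ≤ 2 * i + 2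
    · refine ⟨hy0, hyH, ?_, hLin⟩
      rw [← hy, ell_mid (k := 2 * i + 1) (by omega) (by omega) (by push_cast; linarith)
        (by push_cast; linarith)]
      have e2 : D (2 * i + 1 + 1) = 0 := by
        rw [show 2 * i + 1 + 1 = 2 * (i + 1) by ring]; exact h.D0 _
      rw [e2]
      push_cast
      linarith
    · push Not at hc
      apply CC_sub_KK h.Dnn
      have hx0 : 0 ≤ p.1 := le_trans (mul_nonneg hD.le (by linarith)) hmain
      refine ⟨hy0, hyH, hx0, ?_, hLin⟩
      have hcc := cc_pos (K := K) (by omega)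
      by_cases hy2 : y ≤ 2 * m
      · have : (p.2 - 2 * m) * cc K ≤ 0 := by
          rw [← hy]; nlinarith
        linarith
      · push Not at hy2
        rw [← hy]
        -- x * (L - 1) ≥ X * (s - 1)
        have hL1 : (0 : ℝ) < 2 * m + j - (2 * i + 2) := by linarith
        have hx1 : X * (y - (2 * i + 2)) ≤ p.1 * (2 * m + j - (2 * i + 2)) := by
          have : (X * (y - (2 * i + 2))) * (2 * m + j - (2 * i + 1)) ≤
              (p.1 * (2 * m + j - (2 * i + 2))) * (2 * m + j - (2 * i + 1)) := by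
            have e : (p.1 * (2 * m + j - (2 * i + 2))) * (2 * m + j - (2 * i + 1)) =
              (p.1 * (2 * m + j - (2 * i + 1))) * (2 * m + j - (2 * i + 2)) := by ring
            rw [e, h3]
            nlinarith [mul_nonneg (sub_nonneg.2 h2) (sub_nonneg.2 hle)]
          exact le_of_mul_le_mul_right this hL
        have hx2 : (j : ℝ) * cc K * (y - (2 * i + 2)) ≤ X * (y - (2 * i + 2)) :=
          mul_le_mul_of_nonneg_right hXc (by linarith)
        have hx3 : (y - 2 * m) * cc K * (2 * m + j - (2 * i + 2)) ≤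
            (j : ℝ) * cc K * (y - (2 * i + 2)) := by
          have e : (j : ℝ) * cc K * (y - (2 * i + 2)) -
            (y - 2 * m) * cc K * (2 * m + j - (2 * i + 2)) =
            cc K * ((2 * m - (2 * i + 2)) * (2 * m + j - y)) := by ring
          have e2 : 0 ≤ cc K * ((2 * m - (2 * i + 2)) * (2 * m + j - y)) :=
            mul_nonneg hcc.le (mul_nonneg (by linarith) (by linarith))
          linarith
        have hx4 : (y - 2 * m) * cc K * (2 * m + j - (2 * i + 2)) ≤
            p.1 * (2 * m + j - (2 * i + 2)) := by linarith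
        exact le_of_mul_le_mul_right hx4 hL1

end Pool.Agent.H224R3.Vis
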