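import Pool.Agent.H224R3.Vis6

set_option autoImplicit false

namespace Pool.Agent.H224R3.Vis

open Finset

/-- pit depths realizing the thresholds t -/
noncomputable def DD (m K : ℕ) (t : ℕ → ℕ) (k : ℕ) : ℝ :=
  if k % 2 = 0 then 0 else if k < 2 * m then
    (AA K - ((t (k / 2) : ℝ) + 1 / 2) ^ 2) / (2 * m + ((t (k / 2) : ℝ) + 1 / 2) - (k + 1)) else 1

theorem DD_odd {m K : ℕ} {t : ℕ → ℕ} {i : ℕ} (hi : i < m) :
    DD m K t (2 * i + 1) = (AA K - ((t i : ℝ) + 1 / 2) ^ 2) /
      (2 * m + ((t i : ℝ) + 1 / 2) - (2 * i + 2)) := by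
  unfold DD
  rw [if_neg (by omega), if_pos (by omega), show (2 * i + 1) / 2 = i by omega]
  congr 1
  push_cast
  ring

theorem DD_hyp {m K : ℕ} (hm : 1 ≤ m) (hK : 2 ≤ K) {t : ℕ → ℕ} (ht : ∀ i, t i ≤ K) :
    Hyp m K (DD m K t) where
  hm := hm
  hK := hK
  D0 := by
    intro k
    unfold DD
    rw [if_pos (by omega)]
  Dpos := by
    intro k
    by_cases hk : k < m
    · rw [DD_odd hk]
      have h1 : (k : ℝ) + 1 ≤ m := by exact_mod_cast hk
      have h2 : (t k : ℝ) ≤ K := by exact_mod_cast ht k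
      have h3 : (0 : ℝ) ≤ t k := Nat.cast_nonneg _
      apply div_pos
      · unfold AA; nlinarith
      · linarith
    · unfold DD
      rw [if_neg (by omega), if_neg (by omega)]
      norm_num
  hne := by
    have h0 : 2 * m - 1 = 2 * (m - 1) + 1 := by omega
    rw [h0, DD_odd (by omega)]
    have h2 : (t (m - 1) : ℝ) ≤ K := by exact_mod_cast ht _
    have h3 : (0 : ℝ) ≤ t (m - 1) := Nat.cast_nonneg _
    have hKR : (2 : ℝ) ≤ K := by exact_mod_cast hK
    intro heq
    unfold cc at heq
    rw [Nat.cast_sub hm] at heq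
    push_cast at heq
    have e : 2 * (m : ℝ) + ((t (m - 1) : ℝ) + 1 / 2) - (2 * (m - 1) + 2) = (t (m - 1) : ℝ) + 1 / 2 := by
      ring
    rw [e, div_eq_div_iff (by linarith) (by linarith)] at heq
    have hfac : ((K : ℝ) - ((t (m - 1) : ℝ) + 1 / 2)) * (AA K + K * ((t (m - 1) : ℝ) + 1 / 2)) = 0 := by
      linarith
    rcases mul_eq_zero.1 hfac with h | h
    · have h4 : (2 * K : ℝ) = 2 * t (m - 1) + 1 := by linarith
      have h5 : 2 * K = 2 * t (m - 1) + 1 := by exact_mod_cast h4
      omega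
    · unfold AA at h
      have : 0 < ((K : ℝ) + 1) ^ 2 + K * ((t (m - 1) : ℝ) + 1 / 2) := by positivity
      linarith

theorem DD_thr {m K : ℕ} {t : ℕ → ℕ} (ht : ∀ i, t i ≤ K) {i j : ℕ} (hi : i < m) (hj1 : 1 ≤ j)
    (hj : j ≤ K) :
    DD m K t (2 * i + 1) * (2 * m + j - (2 * i + 2)) ≤ AA K - (j : ℝ) ^ 2 ↔ j ≤ t i := by
  rw [DD_odd hi]
  have h1 : (i : ℝ) + 1 ≤ m := by exact_mod_cast hi
  have h2 : (t i : ℝ) ≤ K := by exact_mod_cast ht i
  have h3 : (0 : ℝ) ≤ t i := Nat.cast_nonneg _
  have hj1R : (1 : ℝ) ≤ j := by exact_mod_cast hj1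
  have hden : (0 : ℝ) < 2 * m + ((t i : ℝ) + 1 / 2) - (2 * i + 2) := by linarith
  rw [div_mul_eq_mul_div, div_le_iff₀ hden]
  set u : ℝ := (t i : ℝ) + 1 / 2 with hu
  have hfac : (AA K - (j : ℝ) ^ 2) * (2 * m + u - (2 * i + 2)) -
      (AA K - u ^ 2) * (2 * m + j - (2 * i + 2)) =
      (u - j) * (AA K + (2 * m - (2 * i + 2)) * (j + u) + u * j) := by ring
  have hpos : 0 < AA K + (2 * m - (2 * i + 2)) * (j + u) + u * j := by
    have : 0 < AA K := by unfold AA; positivity
    have e1 : 0 ≤ (2 * (m : ℝ) - (2 * i + 2)) * (j + u) := mul_nonneg (by linarith) (by linarith)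
    have e2 : 0 ≤ u * j := mul_nonneg (by linarith) (by linarith)
    linarith
  constructor
  · intro h
    have h4 : 0 ≤ (u - j) * (AA K + (2 * m - (2 * i + 2)) * (j + u) + u * j) := by linarith
    have h5 : 0 ≤ u - j := by
      by_contra hc
      push Not at hc
      have := mul_neg_of_neg_of_pos hc hpos
      linarith
    have h6 : (j : ℝ) < t i + 1 := by linarith
    have h7 : j < t i + 1 := by exact_mod_cast h6
    omega
  · intro h
    have h6 : (j : ℝ) ≤ t i := by exact_mod_cast h
    have h4 : 0 ≤ (u - j) * (AA K + (2 * m - (2 * i + 2)) * (j + u) + u * j) :=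
      mul_nonneg (by linarith) hpos.le
    linarith

/-- the polygon attached to the thresholds -/
noncomputable def poly (m K : ℕ) (t : ℕ → ℕ) : Fin (2 * m + 1 + K) → Pt := vv m K (DD m K t)

theorem poly_simple {m K : ℕ} (hm : 1 ≤ m) (hK : 2 ≤ K) {t : ℕ → ℕ} (ht : ∀ i, t i ≤ K) :
    IsSimplePolygon (poly m K t) := simple_poly (DD_hyp hm hK ht)

theorem adj_iff {m K : ℕ} (hm : 1 ≤ m) (hK : 2 ≤ K) {t : ℕ → ℕ} (ht : ∀ i, t i ≤ K)
    (a b : Fin (2 * m + 1 + K)) : (visGraph (poly m K t)).Adj a b ↔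
      a ≠ b ∧ segment ℝ (ww m K (DD m K t) a) (ww m K (DD m K t) b) ⊆ KK m K (DD m K t) := by
  have := region_vv (DD_hyp hm hK ht)
  show a ≠ b ∧ segment ℝ (poly m K t a) (poly m K t b) ⊆ region (poly m K t) ↔ _
  unfold poly
  rw [this]
  rfl

/-- index of B i -/
def iB (m K : ℕ) (i : ℕ) (h : i ≤ m) : Fin (2 * m + 1 + K) := ⟨2 * i, by omega⟩
/-- index of V i -/
def iV (m K : ℕ) (i : ℕ) (h : i < m) : Fin (2 * m + 1 + K) := ⟨2 * i + 1, by omega⟩
/-- index of R j -/
def iR (m K : ℕ) (j : ℕ) (h1 : 1 ≤ j) (_h2 : j ≤ K) : Fin (2 * m + 1 + K) :=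
  ⟨2 * m + 1 + K - j, by omega⟩

theorem adjB {m K : ℕ} (hm : 1 ≤ m) (hK : 2 ≤ K) {t : ℕ → ℕ} (ht : ∀ i, t i ≤ K) {i j : ℕ}
    (hi : i < m) (hj : j ≤ m) :
    (visGraph (poly m K t)).Adj (iV m K i hi) (iB m K j hj) ↔ (j = i ∨ j = i + 1) := by
  rw [adj_iff hm hK ht]
  constructor
  · rintro ⟨_, h⟩
    by_contra hcon
    push Not at hcon
    exact not_vis (DD_hyp hm hK ht) hi hj hcon.1 hcon.2 h
  · rintro (rfl | rfl)
    · refine ⟨?_, vis_down (DD_hyp hm hK ht) hi⟩
      intro he
      have := congrArg Fin.val he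
      simp only [iV, iB] at this
      omega
    · refine ⟨?_, ?_⟩
      · intro he
        have := congrArg Fin.val he
        simp only [iV, iB] at this
        omega
      · have := vis_up (DD_hyp hm hK ht) hi
        simp only [iV, iB]
        rw [show 2 * (i + 1) = 2 * i + 2 by ring]
        exact this

theorem adjR {m K : ℕ} (hm : 1 ≤ m) (hK : 2 ≤ K) {t : ℕ → ℕ} (ht : ∀ i, t i ≤ K) {i j : ℕ}
    (hi : i < m) (hj1 : 1 ≤ j) (hj : j ≤ K) :
    (visGraph (poly m K t)).Adj (iV m K i hi) (iR m K j hj1 hj) ↔ j ≤ t i := by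
  rw [adj_iff hm hK ht, ← DD_thr ht hi hj1 hj, ← vis_right (DD_hyp hm hK ht) hi hj1 hj]
  constructor
  · rintro ⟨_, h⟩
    exact h
  · intro h
    refine ⟨?_, h⟩
    intro he
    have := congrArg Fin.val he
    simp only [iV, iR] at this
    omega

/-- type of a vertex -/
def ty (m : ℕ) (k : ℕ) : Fin 3 := if k ≤ 2 * m then (if k % 2 = 0 then 0 else 1) else 2

/-- extend a bounded function -/
def ext {m K : ℕ} (t : Fin m → Fin (K + 1)) : ℕ → ℕ := fun i => if h : i < m then (t ⟨i, h⟩ : ℕ) else 0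

theorem ext_le {m K : ℕ} (t : Fin m → Fin (K + 1)) (i : ℕ) : ext t i ≤ K := by
  unfold ext
  split_ifs with h
  · have := (t ⟨i, h⟩).2; omega
  · omega

/-- the visibility graph attached to t -/
noncomputable def GG {m K : ℕ} (t : Fin m → Fin (K + 1)) : SimpleGraph (Fin (2 * m + 1 + K)) :=
  visGraph (poly m K (ext t))

theorem iso_exists {m K : ℕ} (t : Fin m → Fin (K + 1)) :
    Nonempty (GG t ≃g (Quotient.mk (isoSetoid _) (GG t)).out) := by
  have := Quotient.mk_out (s := isoSetoid _) (GG t)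
  exact (isoSetoid _).symm this

/-- a chosen isomorphism to the representative -/
noncomputable def phi {m K : ℕ} (t : Fin m → Fin (K + 1)) :
    GG t ≃g (Quotient.mk (isoSetoid _) (GG t)).out := (iso_exists t).some

/-- the code of t -/
noncomputable def code {m K : ℕ} (t : Fin m → Fin (K + 1)) :
    Quotient (isoSetoid (2 * m + 1 + K)) × (Fin K → Fin (2 * m + 1 + K)) × Fin (2 * m + 1 + K) ×
      (Fin (2 * m + 1 + K) → Fin 3) :=
  (Quotient.mk _ (GG t), fun j => phi t (iR m K (j + 1) (by omega) (by omega)),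
    phi t (iB m K 0 (by omega)), fun x => ty m ((phi t).symm x))

theorem recon {m K : ℕ} (hm : 1 ≤ m) (hK : 2 ≤ K) (t t' : Fin m → Fin (K + 1))
    (H : SimpleGraph (Fin (2 * m + 1 + K))) (f : GG t ≃g H) (f' : GG t' ≃g H)
    (h0 : f (iB m K 0 (by omega)) = f' (iB m K 0 (by omega)))
    (hR : ∀ j : Fin K, f (iR m K (j + 1) (by omega) (by omega)) =
      f' (iR m K (j + 1) (by omega) (by omega)))
    (hty : ∀ x, ty m (f.symm x) = ty m (f'.symm x)) : t = t' := by
  -- types
  have hT1 : ∀ x : Fin (2 * m + 1 + K), ty m x = 1 → ∃ l, ∃ hl : l < m, x = iV m K l hl := by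
    intro x hx
    unfold ty at hx
    split_ifs at hx with h1 h2
    · exact absurd hx (by decide)
    · exact ⟨x / 2, by omega, by ext; simp only [iV]; omega⟩
    · exact absurd hx (by decide)
  have hT0 : ∀ x : Fin (2 * m + 1 + K), ty m x = 0 → ∃ l, ∃ hl : l ≤ m, x = iB m K l hl := by
    intro x hx
    unfold ty at hx
    split_ifs at hx with h1 h2
    · exact ⟨x / 2, by omega, by ext; simp only [iB]; omega⟩
    · exact absurd hx (by decide)
    · exact absurd hx (by decide)
  have tyV : ∀ l (hl : l < m), ty m (iV m K l hl) = 1 := by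
    intro l hl
    unfold ty iV
    simp only
    rw [if_pos (by omega), if_neg (by omega)]
  have tyB : ∀ l (hl : l ≤ m), ty m (iB m K l hl) = 0 := by
    intro l hl
    unfold ty iB
    simp only
    rw [if_pos (by omega), if_pos (by omega)]
  have adjVB : ∀ l (hl : l < m) j (hj : j ≤ m), (GG t).Adj (iV m K l hl) (iB m K j hj) ↔
      (j = l ∨ j = l + 1) := fun l hl j hj => adjB hm hK (ext_le t) hl hj
  have adjVB' : ∀ l (hl : l < m) j (hj : j ≤ m), (GG t').Adj (iV m K l hl) (iB m K j hj) ↔
      (j = l ∨ j = l + 1) := fun l hl j hj => adjB hm hK (ext_le t') hl hj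
  have main : ∀ i, (∀ hi : i ≤ m, f (iB m K i hi) = f' (iB m K i hi)) ∧
      (∀ hi : i < m, f (iV m K i hi) = f' (iV m K i hi)) := by
    intro i
    induction i using Nat.strong_induction_on with
    | _ i ih =>
      have hB : ∀ hi : i ≤ m, f (iB m K i hi) = f' (iB m K i hi) := by
        intro hi
        rcases Nat.eq_zero_or_pos i with h | h
        · subst h; exact h0
        · obtain ⟨l, rfl⟩ : ∃ l, i = l + 1 := ⟨i - 1, by omega⟩
          obtain ⟨ihB, ihV⟩ := ih l (by omega)
          have ihB := ihB (by omega)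
          have ihV := ihV (by omega)
          set x := f' (iB m K (l + 1) hi) with hx
          have hadj : H.Adj (f (iV m K l (by omega))) x := by
            rw [ihV, hx, f'.map_adj_iff, adjVB']
            exact Or.inr rfl
          have htx : ty m (f.symm x) = 0 := by
            rw [hty x, hx, f'.symm_apply_apply, tyB]
          obtain ⟨l', hl', he⟩ := hT0 _ htx
          have hxe : x = f (iB m K l' hl') := by rw [← he, f.apply_symm_apply]
          rw [hxe, f.map_adj_iff, adjVB] at hadj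
          rcases hadj with h1 | h1
          · exfalso
            subst h1
            rw [hx, ihB] at hxe
            have := f'.injective hxe
            have := congrArg Fin.val this
            simp only [iB] at this
            omega
          · subst h1
            exact hxe.symm
      refine ⟨hB, ?_⟩
      intro hi
      set x := f' (iV m K i hi) with hx
      have hadj : H.Adj x (f (iB m K i hi.le)) := by
        rw [hB hi.le, hx, f'.map_adj_iff, adjVB']
        exact Or.inl rfl
      have htx : ty m (f.symm x) = 1 := by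
        rw [hty x, hx, f'.symm_apply_apply, tyV]
      obtain ⟨l', hl', he⟩ := hT1 _ htx
      have hxe : x = f (iV m K l' hl') := by rw [← he, f.apply_symm_apply]
      rw [hxe, f.map_adj_iff, adjVB] at hadj
      rcases hadj with h1 | h1
      · subst h1
        exact hxe.symm
      · exfalso
        have ihV := (ih l' (by omega)).2 hl'
        rw [hx, ihV] at hxe
        have := f'.injective hxe
        have := congrArg Fin.val this
        simp only [iV] at this
        omega
  -- conclude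
  funext i
  have hV := (main i).2 i.2
  have key : ∀ j : ℕ, 1 ≤ j → j ≤ K → (j ≤ ext t i ↔ j ≤ ext t' i) := by
    intro j hj1 hj
    rw [← adjR hm hK (ext_le t) i.2 hj1 hj, ← adjR hm hK (ext_le t') i.2 hj1 hj]
    have hRj := hR ⟨j - 1, by omega⟩
    have e1 : iR m K (((⟨j - 1, by omega⟩ : Fin K) : ℕ) + 1) (by omega) (by simp only; omega) =
        iR m K j hj1 hj := by
      unfold iR
      ext
      simp only
      omega
    rw [e1] at hRj
    show (GG t).Adj _ _ ↔ (GG t').Adj _ _
    rw [← f.map_adj_iff, ← f'.map_adj_iff, hV, hRj]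
  have h1 := ext_le t i
  have h2 := ext_le t' i
  have h3 : ext t i = ext t' i := by
    apply le_antisymm
    · rcases Nat.eq_zero_or_pos (ext t i) with h | h
      · omega
      · exact (key _ h h1).1 le_rfl
    · rcases Nat.eq_zero_or_pos (ext t' i) with h | h
      · omega
      · exact (key _ h h2).2 le_rfl
  unfold ext at h3
  simp only [i.2, dif_pos] at h3
  exact Fin.ext h3

theorem code_injective {m K : ℕ} (hm : 1 ≤ m) (hK : 2 ≤ K) :
    Function.Injective (code (m := m) (K := K)) := by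
  intro t t' h
  have h1 : (Quotient.mk (isoSetoid _) (GG t)) = Quotient.mk _ (GG t') := congrArg Prod.fst h
  have h2 := congrArg (fun x => x.2) h
  simp only [code, Prod.mk.injEq] at h2
  obtain ⟨hR, h0, hty⟩ := h2
  -- transport
  have key : ∀ (c : Quotient (isoSetoid (2 * m + 1 + K)))
      (hc : Quotient.mk (isoSetoid _) (GG t) = c)
      (f' : GG t' ≃g c.out),
      (∀ j : Fin K, phi t (iR m K (j + 1) (by omega) (by omega)) =
        f' (iR m K (j + 1) (by omega) (by omega))) →
      phi t (iB m K 0 (by omega)) = f' (iB m K 0 (by omega)) →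
      (∀ x, ty m ((phi t).symm x) = ty m (f'.symm x)) → t = t' := by
    intro c hc
    subst hc
    intro f' a1 a2 a3
    exact recon hm hK t t' _ (phi t) f' a2 a1 a3
  exact key _ h1 (phi t') (fun j => congrFun hR j) h0 (fun x => congrFun hty x)

theorem count_lower {m K : ℕ} (hm : 1 ≤ m) (hK : 2 ≤ K) :
    (K + 1) ^ m ≤ numVis (2 * m + 1 + K) *
      ((2 * m + 1 + K) ^ K * ((2 * m + 1 + K) * 3 ^ (2 * m + 1 + K))) := by
  classical
  set n := 2 * m + 1 + K with hn
  set S : Set (Quotient (isoSetoid n)) := {c : Quotient (isoSetoid n) |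
    ∃ v : Fin n → Pt, IsSimplePolygon v ∧ Quotient.mk (isoSetoid n) (visGraph v) = c} with hS
  haveI : Finite (Quotient (isoSetoid n)) := Quotient.finite _
  have hSf : S.Finite := Set.toFinite _
  haveI : Fintype S := hSf.fintype
  have hcard : Fintype.card (Fin m → Fin (K + 1)) ≤
      Fintype.card (S × (Fin K → Fin n) × Fin n × (Fin n → Fin 3)) := by
    apply Fintype.card_le_of_injective
      (fun t => (⟨(code t).1, ⟨poly m K (ext t), poly_simple hm hK (ext_le t), rfl⟩⟩, (code t).2))
    intro t t' h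
    apply code_injective hm hK
    simp only [Prod.mk.injEq, Subtype.mk.injEq] at h
    exact Prod.ext h.1 h.2
  rw [Fintype.card_fun, Fintype.card_fin, Fintype.card_fin, Fintype.card_prod, Fintype.card_prod,
    Fintype.card_prod, Fintype.card_fun, Fintype.card_fun, Fintype.card_fin, Fintype.card_fin,
    Fintype.card_fin] at hcard
  have : numVis n = Fintype.card S := by
    unfold numVis
    rw [← hS, ← Nat.card_coe_set_eq, Nat.card_eq_fintype_card]
  rw [this]
  exact hcard

end Pool.Agent.H224R3.Vis
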